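import Mathlib

set_option autoImplicit false

open MeasureTheory Set Filter Topology
open scoped ComplexConjugate

namespace Pool.Agent.T2H73.Plus

/-- tent function -/
noncomputable def tent (δ x : ℝ) : ℝ := max 0 (δ - |x|)

lemma continuous_tent (δ : ℝ) : Continuous (tent δ) :=
  continuous_const.max (continuous_const.sub continuous_abs)

lemma tent_of_notMem {δ x : ℝ} (hx : x ∉ Icc (-δ) δ) : tent δ x = 0 := by
  rw [tent, max_eq_left]
  by_contra h
  push Not at h
  exact hx (abs_le.1 (by linarith))

lemma tent_of_mem {δ x : ℝ} (h0 : 0 ≤ x) (hx : x ≤ δ) : tent δ x = δ - x := by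
  rw [tent, abs_of_nonneg h0, max_eq_right (by linarith)]

lemma tent_neg (δ x : ℝ) : tent δ (-x) = tent δ x := by rw [tent, tent, abs_neg]

lemma int_cos {a δ : ℝ} (ha : a ≠ 0) :
    ∫ x in (0 : ℝ)..δ, 2 * (δ - x) * Real.cos (a * x) = 2 * (1 - Real.cos (a * δ)) / a ^ 2 := by
  have hd : ∀ x ∈ uIcc (0 : ℝ) δ, HasDerivAt
      (fun x => 2 * ((δ - x) * Real.sin (a * x) / a - Real.cos (a * x) / a ^ 2))
      (2 * (δ - x) * Real.cos (a * x)) x := by
    intro x _
    have h0 : HasDerivAt (fun x => a * x) a x := by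
      simpa using (hasDerivAt_id x).const_mul a
    have h1 : HasDerivAt (fun x => Real.sin (a * x)) (Real.cos (a * x) * a) x := h0.sin
    have h2 : HasDerivAt (fun x => Real.cos (a * x)) (-Real.sin (a * x) * a) x := h0.cos
    have h3 : HasDerivAt (fun x : ℝ => δ - x) (-1) x := by
      simpa using (hasDerivAt_id x).const_sub δ
    have h4 := (((h3.mul h1).div_const a).sub (h2.div_const (a ^ 2))).const_mul 2
    convert! h4 using 1
    field_simp
    ring
  rw [intervalIntegral.integral_eq_sub_of_hasDerivAt hd]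
  · simp
    field_simp
    ring
  · apply Continuous.intervalIntegrable
    fun_prop

/-- the Fourier transform of the tent -/
noncomputable def K (a δ : ℝ) : ℝ := ∫ x in (0 : ℝ)..δ, 2 * (δ - x) * Real.cos (a * x)

lemma K_nonneg (a : ℝ) {δ : ℝ} (hδ : 0 ≤ δ) : 0 ≤ K a δ := by
  rcases eq_or_ne a 0 with rfl | ha
  · refine intervalIntegral.integral_nonneg hδ fun x hx => ?_
    simp only [zero_mul, Real.cos_zero, mul_one]
    linarith [hx.2]
  · rw [K, int_cos ha]
    have := Real.cos_le_one (a * δ)
    have h2 : 0 < a ^ 2 := by positivity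
    exact div_nonneg (by linarith) h2.le

lemma K_pos {a δ : ℝ} (hδ : 0 < δ) (h : |a * δ| ≤ 1) : 0 < K a δ := by
  rcases eq_or_ne a 0 with rfl | ha
  · have : K 0 δ = δ ^ 2 := by
      simp only [K, zero_mul, Real.cos_zero, mul_one]
      have hd : ∀ x ∈ uIcc (0 : ℝ) δ, HasDerivAt (fun x => 2 * δ * x - x ^ 2) (2 * (δ - x)) x := by
        intro x _
        have h4 := ((hasDerivAt_id x).const_mul (2 * δ)).sub (hasDerivAt_pow 2 x)
        convert! h4 using 1
        simp
        ring
      rw [intervalIntegral.integral_eq_sub_of_hasDerivAt hd]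
      · ring
      · apply Continuous.intervalIntegrable
        fun_prop
    rw [this]
    positivity
  · rw [K, int_cos ha]
    have h2 : 0 < a ^ 2 := by positivity
    have h3 : Real.cos (a * δ) < 1 := by
      refine lt_of_le_of_ne (Real.cos_le_one _) fun h4 => ?_
      have h5 := abs_le.1 h
      have hpi := Real.pi_gt_three
      rw [Real.cos_eq_one_iff_of_lt_of_lt (by linarith) (by linarith)] at h4
      exact (mul_ne_zero ha hδ.ne') h4
    exact div_pos (by linarith) h2

lemma tent_FT {δ s e : ℝ} (hδ : 0 < δ) (hs : s ≤ -δ) (he : δ ≤ e) (a : ℝ) :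
    ∫ x in Icc s e, (tent δ x : ℂ) * conj (Complex.exp ((a * x : ℝ) * Complex.I)) = (K a δ : ℂ) := by
  set f : ℝ → ℂ := fun x => (tent δ x : ℂ) * conj (Complex.exp ((a * x : ℝ) * Complex.I)) with hf
  have hfc : Continuous f := by
    have := continuous_tent δ
    have h2 : Continuous fun x : ℝ => Complex.exp ((a * x : ℝ) * Complex.I) := by fun_prop
    exact (Complex.continuous_ofReal.comp this).mul (Complex.continuous_conj.comp h2)
  have h1 : ∫ x in Icc s e, f x = ∫ x in Icc (-δ) δ, f x := by
    refine setIntegral_eq_of_subset_of_forall_sdiff_eq_zero measurableSet_Icc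
      (Icc_subset_Icc hs he) fun x hx => ?_
    simp only [hf, tent_of_notMem hx.2, Complex.ofReal_zero, zero_mul]
  rw [h1, integral_Icc_eq_integral_Ioc, ← intervalIntegral.integral_of_le (by linarith),
    ← intervalIntegral.integral_add_adjacent_intervals (b := 0)
      (hfc.intervalIntegrable _ _) (hfc.intervalIntegrable _ _)]
  have h2 : ∫ x in (-δ)..0, f x = ∫ x in (0 : ℝ)..δ, f (-x) := by
    rw [intervalIntegral.integral_comp_neg (f := f), neg_zero]
  have hfn : Continuous fun x => f (-x) := hfc.comp continuous_neg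
  rw [h2, ← intervalIntegral.integral_add
    (hfn.intervalIntegrable _ _) (hfc.intervalIntegrable _ _), K,
    ← intervalIntegral.integral_ofReal]
  refine intervalIntegral.integral_congr fun x hx => ?_
  rw [uIcc_of_le hδ.le] at hx
  simp only [hf, tent_neg, tent_of_mem hx.1 hx.2]
  rw [← mul_add, ← Complex.exp_conj, ← Complex.exp_conj]
  simp only [map_mul, Complex.conj_ofReal, Complex.conj_I]
  have e1 : Complex.exp (((a * -x : ℝ) : ℂ) * -Complex.I) + Complex.exp (((a * x : ℝ) : ℂ) * -Complex.I)
      = 2 * (Real.cos (a * x) : ℂ) := by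
    rw [Complex.ofReal_cos, Complex.two_cos]
    congr 2 <;> push_cast <;> ring
  rw [e1]
  push_cast
  ring

end Pool.Agent.T2H73.Plus
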