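import Mathlib

set_option autoImplicit false

/-!
Definitions for the curvature G-equation with a three-dimensional shear flow
`V(X) = (0, 0, A f(x))`, `X = (x, x₃)`:
`G_t + (1 - d div(DG/|DG|))_+ |DG| + V(X)·DG = 0`, `G(X,0) = P·X`.
-/

open Filter Set

namespace Pool.Agent.T2H73.Geq

/-- `ℝ³` -/
abbrev V3 := Fin 3 → ℝ

/-- `ℝ²` -/
abbrev V2 := Fin 2 → ℝ

/-- The standard inner product of `ℝ³`. -/
def dot (p q : V3) : ℝ := ∑ i, p i * q i

/-- The Euclidean norm of `ℝ³`. -/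
noncomputable def nrm (p : V3) : ℝ := Real.sqrt (dot p p)

/-- The gradient (vector of partial derivatives) of `g` at `X`. -/
noncomputable def grad (g : V3 → ℝ) (X : V3) : V3 := fun i => fderiv ℝ g X (Pi.single i 1)

/-- The Hessian matrix of `g` at `X`. -/
noncomputable def hess (g : V3 → ℝ) (X : V3) : Matrix (Fin 3) (Fin 3) ℝ :=
  fun i j => fderiv ℝ (fun Y => grad g Y i) X (Pi.single j 1)

/-- `div(Dg/|Dg|)` expressed through `p = Dg ≠ 0` and `M = D²g`. -/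
noncomputable def curv (p : V3) (M : Matrix (Fin 3) (Fin 3) ℝ) : ℝ :=
  (M.trace - dot (M.mulVec p) p / dot p p) / nrm p

/-- `(1 - d κ)_+ |p|`, the laminar burning term for `p = Dg ≠ 0`, `M = D²g`. -/
noncomputable def speed (d : ℝ) (p : V3) (M : Matrix (Fin 3) (Fin 3) ℝ) : ℝ :=
  max (1 - d * curv p M) 0 * nrm p

open Classical in
/-- Upper semicontinuous envelope of the burning term: its value at `p = 0` is the supremum of
the limits `(-d (tr M - ⟨M e, e⟩))_+` over unit vectors `e`. -/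
noncomputable def speedUp (d : ℝ) (p : V3) (M : Matrix (Fin 3) (Fin 3) ℝ) : ℝ :=
  if p = 0 then ⨆ e : {e : V3 // dot e e = 1}, max (-d * (M.trace - dot (M.mulVec e.1) e.1)) 0
  else speed d p M

open Classical in
/-- Lower semicontinuous envelope of the burning term. -/
noncomputable def speedLow (d : ℝ) (p : V3) (M : Matrix (Fin 3) (Fin 3) ℝ) : ℝ :=
  if p = 0 then ⨅ e : {e : V3 // dot e e = 1}, max (-d * (M.trace - dot (M.mulVec e.1) e.1)) 0
  else speed d p M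

/-- `G` is a viscosity solution of
`G_t + (1 - d div(DG/|DG|))_+ |DG| + A f(x) ∂₃G = 0` on `ℝ³ × (0,∞)`, `G(X,0) = P·X`,
continuous on `ℝ³ × [0,∞)`, with `G - P·X` bounded on `ℝ³ × [0,T]` for every `T`. -/
structure IsViscositySolution (f : V2 → ℝ) (d A : ℝ) (P : V3) (G : V3 → ℝ → ℝ) : Prop where
  cont : ContinuousOn (fun z : V3 × ℝ => G z.1 z.2) (univ ×ˢ Ici 0)
  init : ∀ X, G X 0 = dot P X
  bdd : ∀ T : ℝ, ∃ C : ℝ, ∀ X, ∀ t ∈ Icc 0 T, |G X t - dot P X| ≤ C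
  sub : ∀ (φ : V3 → ℝ → ℝ) (X : V3) (t : ℝ), 0 < t →
    ContDiffAt ℝ 2 (fun z : V3 × ℝ => φ z.1 z.2) (X, t) →
    IsLocalMax (fun z : V3 × ℝ => G z.1 z.2 - φ z.1 z.2) (X, t) →
    deriv (φ X) t + speedLow d (grad (fun Y => φ Y t) X) (hess (fun Y => φ Y t) X)
      + A * f ![X 0, X 1] * grad (fun Y => φ Y t) X 2 ≤ 0
  super : ∀ (φ : V3 → ℝ → ℝ) (X : V3) (t : ℝ), 0 < t →
    ContDiffAt ℝ 2 (fun z : V3 × ℝ => φ z.1 z.2) (X, t) →
    IsLocalMin (fun z : V3 × ℝ => G z.1 z.2 - φ z.1 z.2) (X, t) →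
    0 ≤ deriv (φ X) t + speedUp d (grad (fun Y => φ Y t) X) (hess (fun Y => φ Y t) X)
      + A * f ![X 0, X 1] * grad (fun Y => φ Y t) X 2

/-- `H` is the effective burning velocity `H̄₊(P,d,A)`: every viscosity solution `G` satisfies
`-(G(X,t) - P·X)/t → H` as `t → ∞`, for every `X`. -/
def IsEffectiveVelocity (f : V2 → ℝ) (d A : ℝ) (P : V3) (H : ℝ) : Prop :=
  ∀ G : V3 → ℝ → ℝ, IsViscositySolution f d A P G →
    ∀ X, Tendsto (fun t : ℝ => -((G X t - dot P X) / t)) atTop (nhds H)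

end Pool.Agent.T2H73.Geq
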