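import Mathlib
import Pool.Agent.T2H73.GeqDef

set_option autoImplicit false

open Filter Set Topology

namespace Pool.Agent.T2H73.Geq

noncomputable section

/-! ### linearity of grad and hess -/

lemma contDiff_grad {g : V3 → ℝ} (hg : ContDiff ℝ 2 g) (i : Fin 3) :
    ContDiff ℝ 1 (fun Y => grad g Y i) := by
  unfold grad
  exact (hg.fderiv_right (m := 1) (by norm_num)).clm_apply contDiff_const

lemma continuous_hess {g : V3 → ℝ} (hg : ContDiff ℝ 2 g) (i j : Fin 3) :
    Continuous (fun Y => hess g Y i j) := by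
  unfold hess
  exact (((contDiff_grad hg i).continuous_fderiv (by norm_num))).clm_apply continuous_const

lemma grad_comb {g z : V3 → ℝ} (hg : ContDiff ℝ 2 g) (hz : ContDiff ℝ 2 z) (a b : ℝ) :
    grad (fun Y => g Y + a * z Y + b) = fun Y i => grad g Y i + a * grad z Y i := by
  funext Y i
  unfold grad
  have h1 : DifferentiableAt ℝ g Y := (hg.differentiable (by norm_num)) Y
  have h2 : DifferentiableAt ℝ z Y := (hz.differentiable (by norm_num)) Y
  have h3 := ((h1.hasFDerivAt.fun_add (h2.hasFDerivAt.const_mul a)).fun_add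
    (hasFDerivAt_const b Y))
  rw [h3.fderiv]
  simp

lemma hess_comb {g z : V3 → ℝ} (hg : ContDiff ℝ 2 g) (hz : ContDiff ℝ 2 z) (a b : ℝ) (Y : V3) :
    hess (fun Y => g Y + a * z Y + b) Y = fun i j => hess g Y i j + a * hess z Y i j := by
  funext i j
  unfold hess
  rw [grad_comb hg hz a b]
  have h1 : DifferentiableAt ℝ (fun Y => grad g Y i) Y :=
    ((contDiff_grad hg i).differentiable (by norm_num)) Y
  have h2 : DifferentiableAt ℝ (fun Y => grad z Y i) Y :=
    ((contDiff_grad hz i).differentiable (by norm_num)) Y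
  have h3 := (h1.hasFDerivAt.fun_add (h2.hasFDerivAt.const_mul a))
  rw [h3.fderiv]
  simp

/-! ### the penalisation function -/

def rho (s : ℝ) : ℝ := Real.sqrt (1 + s^2)

lemma rho_pos (s : ℝ) : 0 < rho s := Real.sqrt_pos.2 (by positivity)

lemma abs_le_rho (s : ℝ) : |s| ≤ rho s := by
  rw [rho]; apply Real.abs_le_sqrt; linarith

lemma rho_sq (s : ℝ) : rho s ^ 2 = 1 + s^2 := Real.sq_sqrt (by positivity)

lemma contDiff_rho : ContDiff ℝ 2 rho := by
  unfold rho
  refine ContDiff.sqrt (by fun_prop) fun x => by positivity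

lemma hasDerivAt_rho (s : ℝ) : HasDerivAt rho (s / rho s) s := by
  have h1 : HasDerivAt (fun s : ℝ => 1 + s^2) (2 * s) s := by
    have := (hasDerivAt_pow 2 s).const_add 1
    convert! this using 1
    norm_num
  have h2 := h1.sqrt (by positivity)
  unfold rho
  convert! h2 using 1
  rw [mul_div_mul_left _ _ (by norm_num : (2:ℝ) ≠ 0)]

lemma hasDerivAt_rho' (s : ℝ) : HasDerivAt (fun s => s / rho s) (1 / rho s ^ 3) s := by
  have h := (hasDerivAt_id s).fun_div (hasDerivAt_rho s) (rho_pos s).ne'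
  convert! h using 1
  have h2 := rho_sq s
  have h3 := (rho_pos s).ne'
  simp only [id]
  field_simp
  linear_combination -h2

def zeta (X : V3) : ℝ := ∑ i, rho (X i)

lemma contDiff_zeta : ContDiff ℝ 2 zeta := by
  unfold zeta
  refine ContDiff.sum fun i _ => ?_
  exact contDiff_rho.comp (contDiff_apply ℝ ℝ i)

lemma grad_zeta (X : V3) (i : Fin 3) : grad zeta X i = X i / rho (X i) := by
  unfold grad
  have h : HasFDerivAt zeta (∑ i, (X i / rho (X i)) • ContinuousLinearMap.proj (R := ℝ)
      (φ := fun _ : Fin 3 => ℝ) i) X := by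
    unfold zeta
    refine HasFDerivAt.fun_sum fun i _ => ?_
    have h1 : HasFDerivAt (fun X : V3 => X i)
        (ContinuousLinearMap.proj (R := ℝ) (φ := fun _ : Fin 3 => ℝ) i) X := hasFDerivAt_apply i X
    have h2 : HasFDerivAt (rho ∘ fun X : V3 => X i) ((X i / rho (X i)) •
        ContinuousLinearMap.proj (R := ℝ) (φ := fun _ : Fin 3 => ℝ) i) X :=
      HasDerivAt.comp_hasFDerivAt (h₂ := rho) X (hasDerivAt_rho (X i)) h1
    exact h2
  rw [h.fderiv]
  simp [Pi.single_apply]

lemma hess_zeta (X : V3) (i j : Fin 3) :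
    hess zeta X i j = if i = j then 1 / rho (X i) ^ 3 else 0 := by
  unfold hess
  have h0 : (fun Y => grad zeta Y i) = fun Y : V3 => (fun s => s / rho s) (Y i) := by
    funext Y; exact grad_zeta Y i
  rw [h0]
  have h1 : HasFDerivAt (fun X : V3 => X i)
      (ContinuousLinearMap.proj (R := ℝ) (φ := fun _ : Fin 3 => ℝ) i) X := hasFDerivAt_apply i X
  have h2 := (hasDerivAt_rho' (X i)).comp_hasFDerivAt X h1
  have h3 : fderiv ℝ (fun Y : V3 => (fun s => s / rho s) (Y i)) X
      = (1 / rho (X i) ^ 3) • ContinuousLinearMap.proj (R := ℝ) (φ := fun _ : Fin 3 => ℝ) i :=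
    h2.fderiv
  rw [h3]
  simp [Pi.single_apply]

lemma abs_grad_zeta (X : V3) (i : Fin 3) : |grad zeta X i| ≤ 1 := by
  rw [grad_zeta, abs_div, abs_of_pos (rho_pos _), div_le_one (rho_pos _)]
  exact abs_le_rho _

lemma abs_hess_zeta (X : V3) (i j : Fin 3) : |hess zeta X i j| ≤ 1 := by
  rw [hess_zeta]
  split_ifs
  · have h1 : 1 ≤ rho (X i) := by
      rw [rho, Real.one_le_sqrt]; nlinarith [sq_nonneg (X i)]
    rw [abs_of_pos (by have := rho_pos (X i); positivity), div_le_one (by have := rho_pos (X i); positivity)]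
    exact one_le_pow₀ h1
  · simp

lemma zeta_nonneg (X : V3) : 0 ≤ zeta X := Finset.sum_nonneg fun i _ => (rho_pos _).le

lemma norm_le_zeta (X : V3) : ‖X‖ ≤ zeta X := by
  rw [pi_norm_le_iff_of_nonneg (zeta_nonneg X)]
  intro i
  rw [Real.norm_eq_abs]
  refine (abs_le_rho _).trans ?_
  exact Finset.single_le_sum (f := fun i => rho (X i)) (fun i _ => (rho_pos _).le) (Finset.mem_univ i)

/-! ### existence of minimisers of penalised functions -/

lemma exists_min {H : V3 → ℝ → ℝ} (hH : ContinuousOn (fun z : V3 × ℝ => H z.1 z.2) (univ ×ˢ Ici 0))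
    {T C : ℝ} (hT : 0 < T) (hC : ∀ X, ∀ t ∈ Icc 0 T, -C ≤ H X t) {σ δ η : ℝ} (hσ : 0 < σ)
    (hδ : 0 < δ) (hη : 0 < η) :
    ∃ X0 t0, 0 ≤ t0 ∧ t0 < T ∧ ∀ X t, 0 ≤ t → t < T →
      H X0 t0 + σ * t0 + δ * zeta X0 + η / (T - t0) ≤ H X t + σ * t + δ * zeta X + η / (T - t) := by
  set F : V3 × ℝ → ℝ := fun z => H z.1 z.2 + σ * z.2 + δ * zeta z.1 + η / (T - z.2) with hF
  set v := F (0, 0) with hv
  set R := (|v| + |C| + 1) / δ with hR
  set κ := min (T / 2) (η / (|v| + |C| + 1)) with hκ
  have hpos : 0 < |v| + |C| + 1 := by positivity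
  have hR0 : 0 < R := by positivity
  have hκ0 : 0 < κ := lt_min (by positivity) (by positivity)
  have hκT : κ < T := (min_le_left _ _).trans_lt (by linarith)
  set K : Set (V3 × ℝ) := Metric.closedBall (0 : V3) R ×ˢ Icc 0 (T - κ) with hK
  have hKc : IsCompact K := (isCompact_closedBall _ _).prod isCompact_Icc
  have h0K : ((0 : V3), (0 : ℝ)) ∈ K := ⟨by simp [hR0.le], by simp; linarith⟩
  have hsub : K ⊆ univ ×ˢ Ici 0 := fun z hz => ⟨mem_univ _, hz.2.1⟩
  have hzc : Continuous zeta := contDiff_zeta.continuous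
  have hFc : ContinuousOn F K := by
    refine (((hH.mono hsub).add (by fun_prop)).add (by fun_prop)).add ?_
    refine ContinuousOn.div continuousOn_const (by fun_prop) fun z hz => ?_
    have := hz.2.2
    intro h
    linarith
  obtain ⟨⟨X0, t0⟩, hz0, hmin⟩ := hKc.exists_isMinOn ⟨_, h0K⟩ hFc
  refine ⟨X0, t0, hz0.2.1, by linarith [hz0.2.2], fun X t ht htT => ?_⟩
  by_cases hmem : (X, t) ∈ K
  · exact hmin hmem
  · have h1 : F (X0, t0) ≤ v := hmin h0K
    have h2 : -C ≤ H X t := hC X t ⟨ht, htT.le⟩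
    have h3 : 0 ≤ σ * t := by positivity
    have h4 : 0 ≤ δ * zeta X := mul_nonneg hδ.le (zeta_nonneg X)
    have h5 : 0 ≤ η / (T - t) := div_nonneg hη.le (by linarith)
    have h6 : |v| + |C| + 1 ≤ δ * zeta X + η / (T - t) := by
      by_cases hX : X ∈ Metric.closedBall (0 : V3) R
      · have ht2 : T - κ < t := by
          by_contra hcon
          push Not at hcon
          exact hmem ⟨hX, ht, hcon⟩
        have h7 : |v| + |C| + 1 ≤ η / (T - t) := by
          rw [le_div_iff₀ (by linarith)]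
          have h8 : κ ≤ η / (|v| + |C| + 1) := min_le_right _ _
          rw [le_div_iff₀ hpos] at h8
          nlinarith
        linarith
      · have h7 : R < ‖X‖ := by simpa using hX
        have h8 : |v| + |C| + 1 ≤ δ * zeta X := by
          have : δ * R ≤ δ * zeta X :=
            mul_le_mul_of_nonneg_left (h7.le.trans (norm_le_zeta X)) hδ.le
          have h9 : δ * R = |v| + |C| + 1 := by rw [hR]; field_simp
          linarith
        linarith
    have h7 : v ≤ |v| := le_abs_self v
    have h8 : C ≤ |C| := le_abs_self C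
    show F (X0, t0) ≤ _
    linarith

end

end Pool.Agent.T2H73.Geq
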