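import Mathlib
import Pool.Agent.T2H73.Geq4

set_option autoImplicit false

open Filter Set Topology

namespace Pool.Agent.T2H73.Geq

noncomputable section

lemma dot_self_pos {p : V3} (hp : p 2 ≠ 0) : 0 < dot p p := by
  unfold dot
  have h1 : 0 < p 2 * p 2 := mul_self_pos.2 hp
  have h2 : p 2 * p 2 ≤ ∑ i, p i * p i :=
    Finset.single_le_sum (f := fun i => p i * p i) (fun i _ => mul_self_nonneg _) (Finset.mem_univ 2)
  linarith

lemma continuousOn_speed (d : ℝ) :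
    ContinuousOn (fun z : V3 × (Fin 3 → Fin 3 → ℝ) => speed d z.1 z.2) {z | z.1 2 ≠ 0} := by
  have h1 : Continuous fun z : V3 × (Fin 3 → Fin 3 → ℝ) => dot z.1 z.1 := by
    unfold dot; fun_prop
  have h2 : Continuous fun z : V3 × (Fin 3 → Fin 3 → ℝ) => nrm z.1 := by
    unfold nrm; exact Real.continuous_sqrt.comp h1
  have h3 : Continuous fun z : V3 × (Fin 3 → Fin 3 → ℝ) =>
      Matrix.trace (n := Fin 3) (z.2 : Matrix (Fin 3) (Fin 3) ℝ) := by
    simp only [Matrix.trace, Matrix.diag]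
    fun_prop
  have h4 : Continuous fun z : V3 × (Fin 3 → Fin 3 → ℝ) =>
      dot (Matrix.mulVec (z.2 : Matrix (Fin 3) (Fin 3) ℝ) z.1) z.1 := by
    simp only [dot, Matrix.mulVec, dotProduct]
    fun_prop
  unfold speed curv
  refine ContinuousOn.mul ?_ h2.continuousOn
  refine ContinuousOn.sup ?_ continuousOn_const
  refine continuousOn_const.sub (continuousOn_const.mul ?_)
  refine ContinuousOn.div ?_ h2.continuousOn fun z hz => ?_
  · exact h3.continuousOn.sub (h4.continuousOn.div h1.continuousOn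
      fun z hz => (dot_self_pos hz).ne')
  · exact (Real.sqrt_pos.2 (dot_self_pos hz)).ne'

lemma unif (d B : ℝ) {m σ : ℝ} (hm : 0 < m) (hσ : 0 < σ) :
    ∃ δ0 : ℝ, 0 < δ0 ∧ ∀ δ : ℝ, |δ| ≤ δ0 → ∀ (p q : V3) (M R : Fin 3 → Fin 3 → ℝ),
      (∀ i, |p i| ≤ B) → (∀ i j, |M i j| ≤ B) → (∀ i, |q i| ≤ 1) → (∀ i j, |R i j| ≤ 1) →
      m ≤ |p 2| → p 2 + δ * q 2 ≠ 0 ∧
        |speed d (fun i => p i + δ * q i) (fun i j => M i j + δ * R i j) - speed d p M| < σ := by
  set K : Set (V3 × (Fin 3 → Fin 3 → ℝ)) :=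
    (Metric.closedBall 0 (|B| + 1) ×ˢ Metric.closedBall 0 (|B| + 1)) ∩ {z | m / 2 ≤ |z.1 2|}
    with hK
  have hKc : IsCompact K := by
    refine IsCompact.inter_right ((isCompact_closedBall _ _).prod (isCompact_closedBall _ _)) ?_
    exact isClosed_le continuous_const (by fun_prop)
  have hKsub : K ⊆ {z | z.1 2 ≠ 0} := by
    intro z hz h0
    have h := hz.2
    simp only [mem_ofPred_eq] at h h0
    rw [h0, abs_zero] at h
    linarith
  have huc := hKc.uniformContinuousOn_of_continuous ((continuousOn_speed d).mono hKsub)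
  rw [Metric.uniformContinuousOn_iff] at huc
  obtain ⟨ε, hε, hunif⟩ := huc σ hσ
  refine ⟨min (min 1 (m/2)) (ε/2), by positivity, ?_⟩
  intro δ hδ p q M R hp hM hq hR hm2
  have hδ1 : |δ| ≤ 1 := hδ.trans ((min_le_left _ _).trans (min_le_left _ _))
  have hδm : |δ| ≤ m/2 := hδ.trans ((min_le_left _ _).trans (min_le_right _ _))
  have hδε : |δ| ≤ ε/2 := hδ.trans (min_le_right _ _)
  have hB : B ≤ |B| := le_abs_self B
  have hB0 : 0 ≤ |B| := abs_nonneg B
  have hδq : ∀ i, |δ * q i| ≤ |δ| := fun i => by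
    rw [abs_mul]; exact mul_le_of_le_one_right (abs_nonneg _) (hq i)
  have hδR : ∀ i j, |δ * R i j| ≤ |δ| := fun i j => by
    rw [abs_mul]; exact mul_le_of_le_one_right (abs_nonneg _) (hR i j)
  have h2 : m / 2 ≤ |p 2 + δ * q 2| := by
    have h1 := abs_sub_abs_le_abs_sub (p 2) (-(δ * q 2))
    rw [sub_neg_eq_add, abs_neg] at h1
    have := hδq 2
    linarith
  have hne : p 2 + δ * q 2 ≠ 0 := by
    intro h0; rw [h0, abs_zero] at h2; linarith
  refine ⟨hne, ?_⟩
  have hz1 : ((fun i => p i + δ * q i, fun i j => M i j + δ * R i j) :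
      V3 × (Fin 3 → Fin 3 → ℝ)) ∈ K := by
    refine ⟨⟨?_, ?_⟩, h2⟩
    · rw [mem_closedBall_zero_iff, pi_norm_le_iff_of_nonneg (by positivity)]
      intro i
      rw [Real.norm_eq_abs]
      have := abs_add_le (p i) (δ * q i)
      have := hδq i
      have := hp i
      linarith
    · rw [mem_closedBall_zero_iff, pi_norm_le_iff_of_nonneg (by positivity)]
      intro i
      rw [pi_norm_le_iff_of_nonneg (by positivity)]
      intro j
      rw [Real.norm_eq_abs]
      have := abs_add_le (M i j) (δ * R i j)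
      have := hδR i j
      have := hM i j
      linarith
  have hz2 : ((p, M) : V3 × (Fin 3 → Fin 3 → ℝ)) ∈ K := by
    refine ⟨⟨?_, ?_⟩, ?_⟩
    · rw [mem_closedBall_zero_iff, pi_norm_le_iff_of_nonneg (by positivity)]
      intro i
      rw [Real.norm_eq_abs]
      have := hp i
      linarith
    · rw [mem_closedBall_zero_iff, pi_norm_le_iff_of_nonneg (by positivity)]
      intro i
      rw [pi_norm_le_iff_of_nonneg (by positivity)]
      intro j
      rw [Real.norm_eq_abs]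
      have := hM i j
      linarith
    · show m / 2 ≤ |p 2|
      linarith
  have hdist : dist ((fun i => p i + δ * q i, fun i j => M i j + δ * R i j) :
      V3 × (Fin 3 → Fin 3 → ℝ)) (p, M) < ε := by
    refine lt_of_le_of_lt ?_ (show |δ| < ε by linarith)
    rw [Prod.dist_eq]
    refine max_le ?_ ?_
    · rw [dist_pi_le_iff (abs_nonneg _)]
      intro i
      rw [Real.dist_eq]
      simpa using hδq i
    · rw [dist_pi_le_iff (abs_nonneg _)]
      intro i
      rw [dist_pi_le_iff (abs_nonneg _)]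
      intro j
      rw [Real.dist_eq]
      simpa using hδR i j
  have := hunif _ hz1 _ hz2 hdist
  rwa [Real.dist_eq] at this

lemma speedUp_eq {d : ℝ} {p : V3} {M : Matrix (Fin 3) (Fin 3) ℝ} (hp : p 2 ≠ 0) :
    speedUp d p M = speed d p M := by
  unfold speedUp
  rw [if_neg]
  intro h; rw [h] at hp; simp at hp

lemma speedLow_eq {d : ℝ} {p : V3} {M : Matrix (Fin 3) (Fin 3) ℝ} (hp : p 2 ≠ 0) :
    speedLow d p M = speed d p M := by
  unfold speedLow
  rw [if_neg]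
  intro h; rw [h] at hp; simp at hp

/-- the test function -/
def tf (Φ : V3 → ℝ) (a b e T : ℝ) (X : V3) (t : ℝ) : ℝ := Φ X + a * t + b * zeta X + e / (T - t)

lemma tf_contDiffAt {Φ : V3 → ℝ} (hΦ : ContDiff ℝ 2 Φ) (a b e : ℝ) {T : ℝ} (X : V3) {t : ℝ}
    (ht : t < T) : ContDiffAt ℝ 2 (fun z : V3 × ℝ => tf Φ a b e T z.1 z.2) (X, t) := by
  unfold tf
  have h1 : ContDiff ℝ 2 fun z : V3 × ℝ => Φ z.1 := hΦ.comp contDiff_fst
  have h2 : ContDiff ℝ 2 fun z : V3 × ℝ => zeta z.1 := contDiff_zeta.comp contDiff_fst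
  have h3 : ContDiffAt ℝ 2 (fun z : V3 × ℝ => e / (T - z.2)) (X, t) := by
    refine ContDiffAt.div contDiffAt_const (by fun_prop) ?_
    simp only
    linarith
  exact ((h1.contDiffAt.add (by fun_prop)).add (contDiffAt_const.mul h2.contDiffAt)).add h3

lemma tf_deriv (Φ : V3 → ℝ) (a b e : ℝ) {T : ℝ} (X : V3) {t : ℝ} (ht : t < T) :
    deriv (tf Φ a b e T X) t = a + e / (T - t)^2 := by
  have h0 : T - t ≠ 0 := by linarith
  have h1 : HasDerivAt (fun t : ℝ => T - t) (-1) t := by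
    simpa using (hasDerivAt_id t).const_sub T
  have h2 : HasDerivAt (fun t : ℝ => e / (T - t)) (e / (T - t)^2) t := by
    have := (hasDerivAt_const t e).fun_div h1 h0
    convert! this using 1
    ring
  have h3 : HasDerivAt (fun t : ℝ => a * t) a t := by
    simpa using (hasDerivAt_id t).const_mul a
  have h4 : HasDerivAt (tf Φ a b e T X) (0 + a + 0 + e / (T - t)^2) t := by
    unfold tf
    exact (((hasDerivAt_const t (Φ X)).fun_add h3).fun_add (hasDerivAt_const t _)).fun_add h2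
  rw [h4.deriv]
  ring

lemma tf_grad {Φ : V3 → ℝ} (hΦ : ContDiff ℝ 2 Φ) (a b e T t : ℝ) (X : V3) :
    grad (fun Y => tf Φ a b e T Y t) X = fun i => grad Φ X i + b * grad zeta X i := by
  have h0 : (fun Y => tf Φ a b e T Y t) = fun Y => Φ Y + b * zeta Y + (a * t + e / (T - t)) := by
    funext Y; unfold tf; ring
  rw [h0, grad_comb hΦ contDiff_zeta]

lemma tf_hess {Φ : V3 → ℝ} (hΦ : ContDiff ℝ 2 Φ) (a b e T t : ℝ) (X : V3) :
    hess (fun Y => tf Φ a b e T Y t) X = fun i j => hess Φ X i j + b * hess zeta X i j := by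
  have h0 : (fun Y => tf Φ a b e T Y t) = fun Y => Φ Y + b * zeta Y + (a * t + e / (T - t)) := by
    funext Y; unfold tf; ring
  rw [h0, hess_comb hΦ contDiff_zeta]

/-- Comparison with a smooth subsolution. -/
theorem compare_below {f : V2 → ℝ} {d A : ℝ} {P : V3} {G : V3 → ℝ → ℝ}
    (hG : IsViscositySolution f d A P G) {Φ : V3 → ℝ} (hΦ : ContDiff ℝ 2 Φ) {c C0 B Bf : ℝ}
    (hC0 : ∀ X, |Φ X - dot P X| ≤ C0) (hP : P 2 ≠ 0) (h3 : ∀ X, grad Φ X 2 = P 2)
    (hB1 : ∀ X i, |grad Φ X i| ≤ B) (hB2 : ∀ X i j, |hess Φ X i j| ≤ B)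
    (hf : ∀ x, |f x| ≤ Bf)
    (hc : ∀ X, speed d (grad Φ X) (hess Φ X) + A * f ![X 0, X 1] * P 2 ≤ c) (X1 : V3) {t1 : ℝ}
    (ht1 : 0 ≤ t1) : Φ X1 - c * t1 - C0 ≤ G X1 t1 := by
  by_contra hcon
  push Not at hcon
  set g := Φ X1 - c * t1 - C0 - G X1 t1 with hg
  have hg0 : 0 < g := by rw [hg]; linarith
  set T := t1 + 1 with hT
  have hT0 : 0 < T := by rw [hT]; linarith
  set σ := g / (4 * T) with hσd
  have hσ : 0 < σ := by positivity
  have hBf0 : 0 ≤ Bf := (abs_nonneg _).trans (hf 0)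
  obtain ⟨δ0, hδ0, hunif⟩ := unif d B (m := |P 2|) (σ := σ / 4) (abs_pos.2 hP) (by positivity)
  set δ := min (min δ0 (g / (4 * (zeta X1 + 1)))) (σ / (4 * (|A| * Bf + 1))) with hδd
  have hz := zeta_nonneg X1
  have hδ : 0 < δ := by
    refine lt_min (lt_min hδ0 (by positivity)) ?_
    have : 0 ≤ |A| * Bf := by positivity
    positivity
  have hδ1 : δ ≤ δ0 := (min_le_left _ _).trans (min_le_left _ _)
  have hδ2 : δ * zeta X1 ≤ g / 4 := by
    have h1 : δ ≤ g / (4 * (zeta X1 + 1)) := (min_le_left _ _).trans (min_le_right _ _)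
    rw [le_div_iff₀ (by positivity)] at h1
    nlinarith
  have hδ3 : δ * (|A| * Bf) ≤ σ / 4 := by
    have h0 : 0 ≤ |A| * Bf := by positivity
    have h1 : δ ≤ σ / (4 * (|A| * Bf + 1)) := min_le_right _ _
    rw [le_div_iff₀ (by positivity)] at h1
    nlinarith
  set η := g / 4 with hη
  have hη0 : 0 < η := by positivity
  -- the function H
  obtain ⟨C, hC⟩ := hG.bdd T
  have hΦc : Continuous Φ := hΦ.continuous
  have hHc : ContinuousOn (fun z : V3 × ℝ => (fun X t => G X t - Φ X + c * t + C0) z.1 z.2)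
      (univ ×ˢ Ici 0) := by
    have h1 : Continuous fun z : V3 × ℝ => Φ z.1 := hΦc.comp continuous_fst
    exact ((hG.cont.sub h1.continuousOn).add (by fun_prop)).add (by fun_prop)
  have hHb : ∀ X, ∀ t ∈ Icc 0 T, -(C + |c| * T) ≤ (fun X t => G X t - Φ X + c * t + C0) X t := by
    intro X t ht
    have h1 := (abs_le.1 (hC X t ht)).1
    have h2 := (abs_le.1 (hC0 X)).2
    have h4 : -(|c| * T) ≤ c * t := by
      have h5 : |c * t| ≤ |c| * T := by
        rw [abs_mul, abs_of_nonneg ht.1]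
        exact mul_le_mul_of_nonneg_left ht.2 (abs_nonneg _)
      linarith [(abs_le.1 h5).1]
    simp only
    linarith
  obtain ⟨X0, t0, ht0, ht0T, hmin⟩ := exists_min hHc hT0 hHb hσ hδ hη0
  have hval := hmin X1 t1 ht1 (by rw [hT]; linarith)
  have hTt : T - t1 = 1 := by rw [hT]; ring
  rw [hTt, div_one] at hval
  have hσT : σ * t1 ≤ g / 4 := by
    have : σ * T = g / 4 := by rw [hσd]; field_simp
    nlinarith
  have hneg : G X0 t0 - Φ X0 + c * t0 + C0 + σ * t0 + δ * zeta X0 + η / (T - t0) < 0 ∨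
      G X0 t0 - Φ X0 + c * t0 + C0 + σ * t0 + δ * zeta X0 + η / (T - t0) ≤ -(g/4) := by
    right
    have : G X1 t1 - Φ X1 + c * t1 + C0 = -g := by rw [hg]; ring
    linarith
  have hneg' : G X0 t0 - Φ X0 + c * t0 + C0 + σ * t0 + δ * zeta X0 + η / (T - t0) < 0 := by
    rcases hneg with h | h
    · exact h
    · linarith
  have ht0pos : 0 < t0 := by
    rcases ht0.lt_or_eq with h | h
    · exact h
    · exfalso
      rw [← h] at hneg'
      rw [hG.init] at hneg'
      have h2 := (abs_le.1 (hC0 X0)).2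
      have h5 : 0 ≤ δ * zeta X0 := mul_nonneg hδ.le (zeta_nonneg X0)
      have h6 : 0 ≤ η / (T - 0) := div_nonneg hη0.le (by linarith)
      linarith
  -- test function
  have hloc : IsLocalMin (fun z : V3 × ℝ => G z.1 z.2 - tf Φ (-c - σ) (-δ) (-η) T z.1 z.2)
      (X0, t0) := by
    have hnhds : (univ ×ˢ Ioo 0 T : Set (V3 × ℝ)) ∈ 𝓝 (X0, t0) :=
      (isOpen_univ.prod isOpen_Ioo).mem_nhds ⟨mem_univ _, ht0pos, ht0T⟩
    filter_upwards [hnhds] with z hz
    have := hmin z.1 z.2 hz.2.1.le hz.2.2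
    simp only [tf]
    have e1 : ∀ x : ℝ, -η / x = -(η / x) := fun x => neg_div x η
    rw [e1, e1]
    linarith
  have hsup := hG.super (tf Φ (-c - σ) (-δ) (-η) T) X0 t0 ht0pos
    (tf_contDiffAt hΦ _ _ _ X0 ht0T) hloc
  rw [tf_deriv _ _ _ _ _ ht0T, tf_grad hΦ, tf_hess hΦ] at hsup
  obtain ⟨hne, hsp⟩ := hunif (-δ) (by rw [abs_neg, abs_of_pos hδ]; exact hδ1) (grad Φ X0)
    (grad zeta X0) (hess Φ X0) (hess zeta X0) (hB1 X0) (hB2 X0) (abs_grad_zeta X0)
    (abs_hess_zeta X0) (by rw [h3])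
  rw [speedUp_eq hne] at hsup
  have h1 := hc X0
  have h2 := (abs_lt.1 hsp).2
  have h4 : -η / (T - t0)^2 ≤ 0 := by
    rw [neg_div]
    have : 0 ≤ η / (T - t0)^2 := by positivity
    linarith
  have h5 : |A * f ![X0 0, X0 1] * (-δ * grad zeta X0 2)| ≤ δ * (|A| * Bf) := by
    rw [abs_mul, abs_mul, abs_mul, abs_neg, abs_of_pos hδ]
    have a1 := hf ![X0 0, X0 1]
    have a2 := abs_grad_zeta X0 2
    calc |A| * |f ![X0 0, X0 1]| * (δ * |grad zeta X0 2|) ≤ |A| * Bf * (δ * 1) := by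
          gcongr
      _ = _ := by ring
  have h6 := (abs_le.1 h5).2
  have h7 : A * f ![X0 0, X0 1] * (fun i => grad Φ X0 i + -δ * grad zeta X0 i) 2
      = A * f ![X0 0, X0 1] * P 2 + A * f ![X0 0, X0 1] * (-δ * grad zeta X0 2) := by
    show A * f ![X0 0, X0 1] * (grad Φ X0 2 + -δ * grad zeta X0 2) = _
    rw [h3]; ring
  rw [h7] at hsup
  linarith

/-- Comparison with a smooth supersolution. -/
theorem compare_above {f : V2 → ℝ} {d A : ℝ} {P : V3} {G : V3 → ℝ → ℝ}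
    (hG : IsViscositySolution f d A P G) {Φ : V3 → ℝ} (hΦ : ContDiff ℝ 2 Φ) {c C0 B Bf : ℝ}
    (hC0 : ∀ X, |Φ X - dot P X| ≤ C0) (hP : P 2 ≠ 0) (h3 : ∀ X, grad Φ X 2 = P 2)
    (hB1 : ∀ X i, |grad Φ X i| ≤ B) (hB2 : ∀ X i j, |hess Φ X i j| ≤ B)
    (hf : ∀ x, |f x| ≤ Bf)
    (hc : ∀ X, c ≤ speed d (grad Φ X) (hess Φ X) + A * f ![X 0, X 1] * P 2) (X1 : V3) {t1 : ℝ}
    (ht1 : 0 ≤ t1) : G X1 t1 ≤ Φ X1 - c * t1 + C0 := by
  by_contra hcon
  push Not at hcon
  set g := G X1 t1 - (Φ X1 - c * t1 + C0) with hg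
  have hg0 : 0 < g := by rw [hg]; linarith
  set T := t1 + 1 with hT
  have hT0 : 0 < T := by rw [hT]; linarith
  set σ := g / (4 * T) with hσd
  have hσ : 0 < σ := by positivity
  have hBf0 : 0 ≤ Bf := (abs_nonneg _).trans (hf 0)
  obtain ⟨δ0, hδ0, hunif⟩ := unif d B (m := |P 2|) (σ := σ / 4) (abs_pos.2 hP) (by positivity)
  set δ := min (min δ0 (g / (4 * (zeta X1 + 1)))) (σ / (4 * (|A| * Bf + 1))) with hδd
  have hz := zeta_nonneg X1
  have hδ : 0 < δ := by
    refine lt_min (lt_min hδ0 (by positivity)) ?_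
    have : 0 ≤ |A| * Bf := by positivity
    positivity
  have hδ1 : δ ≤ δ0 := (min_le_left _ _).trans (min_le_left _ _)
  have hδ2 : δ * zeta X1 ≤ g / 4 := by
    have h1 : δ ≤ g / (4 * (zeta X1 + 1)) := (min_le_left _ _).trans (min_le_right _ _)
    rw [le_div_iff₀ (by positivity)] at h1
    nlinarith
  have hδ3 : δ * (|A| * Bf) ≤ σ / 4 := by
    have h0 : 0 ≤ |A| * Bf := by positivity
    have h1 : δ ≤ σ / (4 * (|A| * Bf + 1)) := min_le_right _ _
    rw [le_div_iff₀ (by positivity)] at h1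
    nlinarith
  set η := g / 4 with hη
  have hη0 : 0 < η := by positivity
  obtain ⟨C, hC⟩ := hG.bdd T
  have hΦc : Continuous Φ := hΦ.continuous
  have hHc : ContinuousOn (fun z : V3 × ℝ => (fun X t => -G X t + Φ X - c * t + C0) z.1 z.2)
      (univ ×ˢ Ici 0) := by
    have h1 : Continuous fun z : V3 × ℝ => Φ z.1 := hΦc.comp continuous_fst
    exact ((hG.cont.neg.add h1.continuousOn).sub (by fun_prop)).add (by fun_prop)
  have hHb : ∀ X, ∀ t ∈ Icc 0 T, -(C + |c| * T) ≤ (fun X t => -G X t + Φ X - c * t + C0) X t := by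
    intro X t ht
    have h1 := (abs_le.1 (hC X t ht)).2
    have h2 := (abs_le.1 (hC0 X)).1
    have h4 : c * t ≤ |c| * T := by
      have h5 : |c * t| ≤ |c| * T := by
        rw [abs_mul, abs_of_nonneg ht.1]
        exact mul_le_mul_of_nonneg_left ht.2 (abs_nonneg _)
      linarith [(abs_le.1 h5).2]
    simp only
    linarith
  obtain ⟨X0, t0, ht0, ht0T, hmin⟩ := exists_min hHc hT0 hHb hσ hδ hη0
  have hval := hmin X1 t1 ht1 (by rw [hT]; linarith)
  have hTt : T - t1 = 1 := by rw [hT]; ring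
  rw [hTt, div_one] at hval
  have hσT : σ * t1 ≤ g / 4 := by
    have : σ * T = g / 4 := by rw [hσd]; field_simp
    nlinarith
  have hneg' : -G X0 t0 + Φ X0 - c * t0 + C0 + σ * t0 + δ * zeta X0 + η / (T - t0) < 0 := by
    have : -G X1 t1 + Φ X1 - c * t1 + C0 = -g := by rw [hg]; ring
    linarith
  have ht0pos : 0 < t0 := by
    rcases ht0.lt_or_eq with h | h
    · exact h
    · exfalso
      rw [← h] at hneg'
      rw [hG.init] at hneg'
      have h2 := (abs_le.1 (hC0 X0)).1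
      have h5 : 0 ≤ δ * zeta X0 := mul_nonneg hδ.le (zeta_nonneg X0)
      have h6 : 0 ≤ η / (T - 0) := div_nonneg hη0.le (by linarith)
      linarith
  have hloc : IsLocalMax (fun z : V3 × ℝ => G z.1 z.2 - tf Φ (-c + σ) δ η T z.1 z.2)
      (X0, t0) := by
    have hnhds : (univ ×ˢ Ioo 0 T : Set (V3 × ℝ)) ∈ 𝓝 (X0, t0) :=
      (isOpen_univ.prod isOpen_Ioo).mem_nhds ⟨mem_univ _, ht0pos, ht0T⟩
    filter_upwards [hnhds] with z hz
    have := hmin z.1 z.2 hz.2.1.le hz.2.2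
    simp only [tf]
    linarith
  have hsub := hG.sub (tf Φ (-c + σ) δ η T) X0 t0 ht0pos
    (tf_contDiffAt hΦ _ _ _ X0 ht0T) hloc
  rw [tf_deriv _ _ _ _ _ ht0T, tf_grad hΦ, tf_hess hΦ] at hsub
  obtain ⟨hne, hsp⟩ := hunif δ (by rw [abs_of_pos hδ]; exact hδ1) (grad Φ X0)
    (grad zeta X0) (hess Φ X0) (hess zeta X0) (hB1 X0) (hB2 X0) (abs_grad_zeta X0)
    (abs_hess_zeta X0) (by rw [h3])
  rw [speedLow_eq hne] at hsub
  have h1 := hc X0
  have h2 := (abs_lt.1 hsp).1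
  have h4 : 0 ≤ η / (T - t0)^2 := by positivity
  have h5 : |A * f ![X0 0, X0 1] * (δ * grad zeta X0 2)| ≤ δ * (|A| * Bf) := by
    rw [abs_mul, abs_mul, abs_mul, abs_of_pos hδ]
    have a1 := hf ![X0 0, X0 1]
    have a2 := abs_grad_zeta X0 2
    calc |A| * |f ![X0 0, X0 1]| * (δ * |grad zeta X0 2|) ≤ |A| * Bf * (δ * 1) := by
          gcongr
      _ = _ := by ring
  have h6 := (abs_le.1 h5).1
  have h7 : A * f ![X0 0, X0 1] * (fun i => grad Φ X0 i + δ * grad zeta X0 i) 2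
      = A * f ![X0 0, X0 1] * P 2 + A * f ![X0 0, X0 1] * (δ * grad zeta X0 2) := by
    show A * f ![X0 0, X0 1] * (grad Φ X0 2 + δ * grad zeta X0 2) = _
    rw [h3]; ring
  rw [h7] at hsub
  linarith

end

end Pool.Agent.T2H73.Geq
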