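import Mathlib

set_option autoImplicit false

open Set

namespace Pool.Agent.T2H73.Geq

noncomputable section

/-! Explicit polynomials in `c = cos x, s = sin x, C = cos y, S = sin y`. -/

def a1 (c s C _S : ℝ) : ℝ := -4*c*s + 2*c - s*C
def b1 (c _s _C S : ℝ) : ℝ := -c*S
def b2 (_c _s _C S : ℝ) : ℝ := -(3/4)*S
def l1 (c s C _S : ℝ) : ℝ := -4*c^2 - 2*c*C + 4*s^2 - 2*s
def l2 (_c _s C _S : ℝ) : ℝ := -(3/4)*C
def p1 (c s C _S : ℝ) : ℝ := -8*c^2 - 4*c*C + 8*s^2 - 4*s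
def q1 (_c s _C S : ℝ) : ℝ := 4*s*S + 14*S
def p2 (c s C _S : ℝ) : ℝ := (-48)*c^3*s + (12)*c^3 + (-24)*c^2*s*C + (9/2)*c^2*C + (-24)*c*s^2 + (-7)*c*s*C^2 + (34)*c*s + (-14)*c*C^2 + (14)*c + (-9/2)*s^2*C + (6)*s*C
def q2 (c s C S : ℝ) : ℝ := (-8)*c^3*S + (-7)*c^2*C*S + (-9/2)*c*s*S + (6)*c*S + (28)*s*C*S + (7/2)*C*S
def p3 (c s C _S : ℝ) : ℝ := (36)*c^6 + (162/5)*c^5*C + (-180)*c^4*s^2 + (270)*c^4*s + (133/8)*c^4*C^2 + (-139/2)*c^4 + (-648/5)*c^3*s^2*C + (135)*c^3*s*C + (119/24)*c^3*C^3 + (-1249/30)*c^3*C + (-399/8)*c^2*s^2*C^2 + (417/2)*c^2*s^2 + (-209/8)*c^2*s*C^2 + (-265/2)*c^2*s + (61/16)*c^2*C^2 + (-49/4)*c^2 + (-119/12)*c*s^2*C^3 + (1249/15)*c*s^2*C + (-42)*c*s*C^3 + (-33/2)*c*s*C + (-23/24)*c*C^3 + (-361/60)*c*C + (-61/16)*s^2*C^2 + (49/4)*s^2 + (-15/2)*s*C^2 + (3)*s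
def q3 (c s C S : ℝ) : ℝ := (-162/5)*c^4*s*S + (135/4)*c^4*S + (-133/4)*c^3*s*C*S + (-209/12)*c^3*C*S + (-119/8)*c^2*s*C^2*S + (1249/30)*c^2*s*S + (-63)*c^2*C^2*S + (-33/4)*c^2*S + (-61/8)*c*s*C*S + (-15)*c*C*S + (23/8)*s*C^2*S + (361/60)*s*S + (63/2)*C^2*S + (-273/32)*S

lemma order1 (c s C S : ℝ) : p1 c s C S = 2 * l1 c s C S := by
  unfold p1 l1; ring

lemma order2 {c s C S : ℝ} (h : c^2+s^2 = 1) (H : C^2+S^2 = 1) :
    p2 c s C S + a1 c s C S * p1 c s C S + b1 c s C S * q1 c s C S - 2 * l2 c s C S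
      - a1 c s C S * l1 c s C S / 2 = 0 := by
  unfold p1 p2 q1 l1 l2 a1 b1
  linear_combination ((-24)*c*s + (-6)*s*C + (-3/2)*C) * h + ((-4)*c*s + (-14)*c) * H

lemma order3 {c s C S : ℝ} (h : c^2+s^2 = 1) (H : C^2+S^2 = 1) :
    p3 c s C S + a1 c s C S * p2 c s C S + b1 c s C S * q2 c s C S + b2 c s C S * q1 c s C S
      - a1 c s C S * l2 c s C S / 2 - (a1 c s C S^2 + b1 c s C S^2) * l1 c s C S / 4
      + 4 * a1 c s C S^2 * l1 c s C S / 64 = 7/4 - C^2/16 := by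
  unfold p2 q1 q2 p3 l1 l2 a1 b1 b2
  linear_combination ((36)*c^4 + (162/5)*c^3*C + (-12)*c^2*s^2 + (114)*c^2*s + (53/8)*c^2*C^2 + (-1)*c^2*S^2 + (7/2)*c^2 + (-6)*c*s^2*C + (48)*c*s*C + (-61/24)*c*C^3 + (263/30)*c*C + (-3/4)*s^2*C^2 + (39/8)*s*C^2 + (-169/16)*C^2 + (49/4)) * h + ((10)*c^4 + (15/2)*c^3*C + (5)*c^2*s + (-7)*c^2 + (-28)*c*s*C + (-7/2)*c*C + (-3)*s + (-21/2)) * H

/-- Abstract expansion. -/
lemma expansion {e a1 b1 b2 l1 l2 p1 q1 p2 q2 p3 q3 m : ℝ}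
    (h1 : p1 = 2 * l1) (h2 : p2 + a1 * p1 + b1 * q1 - 2 * l2 - a1 * l1 / 2 = 0)
    (h3 : p3 + a1 * p2 + b1 * q2 + b2 * q1 - a1 * l2 / 2 - (a1^2 + b1^2) * l1 / 4
      + 4 * a1^2 * l1 / 64 = m) :
    (1 + e*a1) * (e*p1 + e^2*p2 + e^3*p3) + (e*b1 + e^2*b2) * (e*q1 + e^2*q2 + e^3*q3)
      - (2 + ((1 + e*a1)^2 + (e*b1 + e^2*b2)^2 - 1)/4
          - ((1 + e*a1)^2 + (e*b1 + e^2*b2)^2 - 1)^2/64) * (e*l1 + e^2*l2)
      = e^3 * m + e^4 * (a1*p3 + b1*q3 + b2*q2 + e*b2*q3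
          - ((2*b1*b2 + e*b2^2)*l1 + (a1^2 + b1^2 + 2*e*b1*b2 + e^2*b2^2)*l2)/4
          + ((4*a1*(a1^2 + b1^2 + 2*e*b1*b2 + e^2*b2^2)
              + e*(a1^2 + b1^2 + 2*e*b1*b2 + e^2*b2^2)^2)*l1
              + (2*a1 + e*(a1^2 + b1^2 + 2*e*b1*b2 + e^2*b2^2))^2*l2)/64) := by
  subst h3
  linear_combination e * h1 + e^2 * h2

/-- square root expansion -/
lemma sqrt_exp {w : ℝ} (hw : |w| ≤ 1) :
    |Real.sqrt (4 + w) - (2 + w/4 - w^2/64)| ≤ |w|^3 := by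
  have h1 := abs_le.1 hw
  have h0 : 0 ≤ 4 + w := by linarith
  set N := Real.sqrt (4 + w) with hN
  have hN2 : N^2 = 4 + w := Real.sq_sqrt h0
  have hN0 : 0 ≤ N := Real.sqrt_nonneg _
  set y := 2 + w/4 - w^2/64 with hy
  have hy1 : 1 ≤ y := by rw [hy]; nlinarith
  have hNy : 1 ≤ N + y := by linarith
  have hid : (N - y) * (N + y) = w^3/128 - w^4/4096 := by
    have : y^2 = 4 + w - w^3/128 + w^4/4096 := by rw [hy]; ring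
    nlinarith
  have h2 : |N - y| * |N + y| = |w^3/128 - w^4/4096| := by rw [← abs_mul, hid]
  have h3 : |N + y| = N + y := abs_of_nonneg (by linarith)
  have h4 : |w^3/128 - w^4/4096| ≤ |w|^3 := by
    have e1 : w^3/128 - w^4/4096 = w^3 * (1/128 - w/4096) := by ring
    rw [e1, abs_mul, abs_pow]
    have h5 : |1/128 - w/4096| ≤ 1 := by
      rw [abs_le]; constructor <;> linarith
    have h6 : 0 ≤ |w|^3 := by positivity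
    nlinarith
  have h5 : 0 ≤ |N - y| := abs_nonneg _
  rw [h3] at h2
  nlinarith

lemma finish {e r br k X C2 : ℝ} (he : 0 < e) (hr : |r| ≤ br) (hX : |X| ≤ e^4 * k)
    (hM : e * (br + k) ≤ 1) (hC : C2 ≤ 1) : 0 < e^3 * (7/4 - C2/16) + e^4 * r - X := by
  have h3 : 0 < e^3 := by positivity
  have h4 : 0 < e^4 := by positivity
  have h1 : -(e^4 * br) ≤ e^4 * r := by
    have := mul_le_mul_of_nonneg_left (abs_le.1 hr).1 h4.le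
    linarith
  have h2 := (abs_le.1 hX).2
  have h5 : e^4 * (br + k) ≤ e^3 := by
    calc e^4 * (br + k) = e^3 * (e * (br + k)) := by ring
      _ ≤ e^3 * 1 := mul_le_mul_of_nonneg_left hM h3.le
      _ = e^3 := mul_one _
  have h6 : e^3 * (27/16) ≤ e^3 * (7/4 - C2/16) := mul_le_mul_of_nonneg_left (by linarith) h3.le
  linarith

/-- the torus in `ℝ⁴` -/
def K4 : Set (ℝ × ℝ × ℝ × ℝ) := {v | v.1^2 + v.2.1^2 = 1 ∧ v.2.2.1^2 + v.2.2.2^2 = 1}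

lemma isCompact_K4 : IsCompact K4 := by
  have hcl : IsClosed K4 := by
    refine IsClosed.inter ?_ ?_
    · exact isClosed_eq (by fun_prop) continuous_const
    · exact isClosed_eq (by fun_prop) continuous_const
  refine IsCompact.of_isClosed_subset
    ((isCompact_Icc (a := (-1:ℝ)) (b := 1)).prod ((isCompact_Icc (a := (-1:ℝ)) (b := 1)).prod
      ((isCompact_Icc (a := (-1:ℝ)) (b := 1)).prod (isCompact_Icc (a := (-1:ℝ)) (b := 1)))))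
    hcl ?_
  rintro ⟨c, s, C, S⟩ ⟨h1, h2⟩
  simp only at h1 h2
  refine ⟨⟨?_, ?_⟩, ⟨?_, ?_⟩, ⟨?_, ?_⟩, ⟨?_, ?_⟩⟩ <;> simp only <;> nlinarith

/-- gradient of `u` and of the corrector, as functions on the torus -/
def ux (e : ℝ) (v : ℝ × ℝ × ℝ × ℝ) : ℝ := 1 + e * a1 v.1 v.2.1 v.2.2.1 v.2.2.2
def uy (e : ℝ) (v : ℝ × ℝ × ℝ × ℝ) : ℝ :=
  e * b1 v.1 v.2.1 v.2.2.1 v.2.2.2 + e^2 * b2 v.1 v.2.1 v.2.2.1 v.2.2.2
def lap (e : ℝ) (v : ℝ × ℝ × ℝ × ℝ) : ℝ :=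
  e * l1 v.1 v.2.1 v.2.2.1 v.2.2.2 + e^2 * l2 v.1 v.2.1 v.2.2.1 v.2.2.2
def tx (e : ℝ) (v : ℝ × ℝ × ℝ × ℝ) : ℝ :=
  e * p1 v.1 v.2.1 v.2.2.1 v.2.2.2 + e^2 * p2 v.1 v.2.1 v.2.2.1 v.2.2.2
    + e^3 * p3 v.1 v.2.1 v.2.2.1 v.2.2.2
def ty (e : ℝ) (v : ℝ × ℝ × ℝ × ℝ) : ℝ :=
  e * q1 v.1 v.2.1 v.2.2.1 v.2.2.2 + e^2 * q2 v.1 v.2.1 v.2.2.1 v.2.2.2
    + e^3 * q3 v.1 v.2.1 v.2.2.1 v.2.2.2

/-- `N = √(u_x² + u_y² + 3)` -/
def NN (e : ℝ) (v : ℝ × ℝ × ℝ × ℝ) : ℝ := Real.sqrt (ux e v ^2 + uy e v ^2 + 3)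

/-- The key inequality holds for all small `e > 0`. -/
theorem key : ∃ e : ℝ, 0 < e ∧ e < 1/10 ∧ ∀ v ∈ K4,
    0 < ux e v * tx e v + uy e v * ty e v - NN e v * lap e v := by
  -- bounds by compactness
  have hK : IsCompact ((Icc (0:ℝ) 1) ×ˢ K4) := isCompact_Icc.prod isCompact_K4
  set θ : ℝ × (ℝ × ℝ × ℝ × ℝ) → ℝ := fun z =>
    a1 z.2.1 z.2.2.1 z.2.2.2.1 z.2.2.2.2 ^2 + b1 z.2.1 z.2.2.1 z.2.2.2.1 z.2.2.2.2 ^2
      + 2 * z.1 * b1 z.2.1 z.2.2.1 z.2.2.2.1 z.2.2.2.2 * b2 z.2.1 z.2.2.1 z.2.2.2.1 z.2.2.2.2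
      + z.1^2 * b2 z.2.1 z.2.2.1 z.2.2.2.1 z.2.2.2.2 ^2 with hθ
  set ω : ℝ × (ℝ × ℝ × ℝ × ℝ) → ℝ := fun z =>
    2 * a1 z.2.1 z.2.2.1 z.2.2.2.1 z.2.2.2.2 + z.1 * θ z with hω
  set lam : ℝ × (ℝ × ℝ × ℝ × ℝ) → ℝ := fun z =>
    l1 z.2.1 z.2.2.1 z.2.2.2.1 z.2.2.2.2 + z.1 * l2 z.2.1 z.2.2.1 z.2.2.2.1 z.2.2.2.2 with hlam
  set R : ℝ × (ℝ × ℝ × ℝ × ℝ) → ℝ := fun z =>
    a1 z.2.1 z.2.2.1 z.2.2.2.1 z.2.2.2.2 * p3 z.2.1 z.2.2.1 z.2.2.2.1 z.2.2.2.2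
    + b1 z.2.1 z.2.2.1 z.2.2.2.1 z.2.2.2.2 * q3 z.2.1 z.2.2.1 z.2.2.2.1 z.2.2.2.2
    + b2 z.2.1 z.2.2.1 z.2.2.2.1 z.2.2.2.2 * q2 z.2.1 z.2.2.1 z.2.2.2.1 z.2.2.2.2
    + z.1 * b2 z.2.1 z.2.2.1 z.2.2.2.1 z.2.2.2.2 * q3 z.2.1 z.2.2.1 z.2.2.2.1 z.2.2.2.2
    - ((2 * b1 z.2.1 z.2.2.1 z.2.2.2.1 z.2.2.2.2 * b2 z.2.1 z.2.2.1 z.2.2.2.1 z.2.2.2.2
        + z.1 * b2 z.2.1 z.2.2.1 z.2.2.2.1 z.2.2.2.2 ^2) * l1 z.2.1 z.2.2.1 z.2.2.2.1 z.2.2.2.2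
       + θ z * l2 z.2.1 z.2.2.1 z.2.2.2.1 z.2.2.2.2)/4
    + ((4 * a1 z.2.1 z.2.2.1 z.2.2.2.1 z.2.2.2.2 * θ z + z.1 * θ z ^2)
        * l1 z.2.1 z.2.2.1 z.2.2.2.1 z.2.2.2.2
        + (ω z)^2 * l2 z.2.1 z.2.2.1 z.2.2.2.1 z.2.2.2.2)/64 with hR
  have cθ : Continuous θ := by
    rw [hθ]; unfold a1 b1 b2; fun_prop
  have cω : Continuous ω := by
    rw [hω]; unfold a1; fun_prop
  have clam : Continuous lam := by
    rw [hlam]; unfold l1 l2; fun_prop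
  have cR : Continuous R := by
    rw [hR]; unfold a1 b1 b2 p3 q3 q2 l1 l2; fun_prop
  obtain ⟨Bω, hBω⟩ := hK.exists_bound_of_continuousOn cω.continuousOn
  obtain ⟨Bl, hBl⟩ := hK.exists_bound_of_continuousOn clam.continuousOn
  obtain ⟨BR, hBR⟩ := hK.exists_bound_of_continuousOn cR.continuousOn
  set B := |Bω| + 1 with hB
  set M := |BR| + B^3 * |Bl| + 1 with hM
  have hB0 : 0 < B := by positivity
  have hM0 : 0 < M := by positivity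
  set e := min (1/20) (min (1/B) (1/M)) with he
  have he0 : 0 < e := by
    refine lt_min (by norm_num) (lt_min (by positivity) (by positivity))
  have he1 : e ≤ 1/20 := min_le_left _ _
  have heB : e * B ≤ 1 := by
    have : e ≤ 1/B := (min_le_right _ _).trans (min_le_left _ _)
    calc e * B ≤ 1/B * B := mul_le_mul_of_nonneg_right this hB0.le
      _ = 1 := by field_simp
  have heM : e * M ≤ 1 := by
    have : e ≤ 1/M := (min_le_right _ _).trans (min_le_right _ _)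
    calc e * M ≤ 1/M * M := mul_le_mul_of_nonneg_right this hM0.le
      _ = 1 := by field_simp
  refine ⟨e, he0, by linarith, ?_⟩
  rintro ⟨c, s, C, S⟩ hv
  obtain ⟨h, H⟩ := hv
  simp only at h H
  have hmem : (e, (c, s, C, S)) ∈ (Icc (0:ℝ) 1) ×ˢ K4 := ⟨⟨he0.le, by linarith⟩, ⟨h, H⟩⟩
  have g1 := hBω _ hmem
  have g2 := hBl _ hmem
  have g3 := hBR _ hmem
  rw [Real.norm_eq_abs] at g1 g2 g3
  have hexp := expansion (e := e) (q3 := q3 c s C S) (order1 c s C S) (order2 h H) (order3 h H)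
  set w := (1 + e * a1 c s C S)^2 + (e * b1 c s C S + e^2 * b2 c s C S)^2 - 1 with hw
  have hwω : w = e * ω (e, (c, s, C, S)) := by
    rw [hw, hω, hθ]; ring
  have hωB : |ω (e, (c, s, C, S))| ≤ B := by
    rw [hB]; exact (g1.trans (le_abs_self _)).trans (by linarith)
  have hwabs : |w| ≤ e * B := by
    rw [hwω, abs_mul, abs_of_pos he0]
    exact mul_le_mul_of_nonneg_left hωB he0.le
  have hw1 : |w| ≤ 1 := hwabs.trans heB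
  have hN : NN e (c, s, C, S) = Real.sqrt (4 + w) := by
    unfold NN ux uy
    congr 1
    rw [hw]; ring
  have hsq := sqrt_exp hw1
  have hlapl : lap e (c, s, C, S) = e * lam (e, (c, s, C, S)) := by
    unfold lap; rw [hlam]; ring
  have hlapB : |lap e (c, s, C, S)| ≤ e * |Bl| := by
    rw [hlapl, abs_mul, abs_of_pos he0]
    exact mul_le_mul_of_nonneg_left (g2.trans (le_abs_self _)) he0.le
  have hw3 : |w|^3 ≤ e^3 * B^3 := by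
    rw [← mul_pow]
    exact pow_le_pow_left₀ (abs_nonneg _) hwabs 3
  have hprod : |(Real.sqrt (4 + w) - (2 + w/4 - w^2/64)) * lap e (c, s, C, S)|
      ≤ e^4 * (B^3 * |Bl|) := by
    rw [abs_mul]
    calc _ ≤ (e^3 * B^3) * (e * |Bl|) :=
          mul_le_mul (hsq.trans hw3) hlapB (abs_nonneg _) (by positivity)
      _ = _ := by ring
  have hRB : |R (e, (c, s, C, S))| ≤ |BR| := g3.trans (le_abs_self _)
  have hmain : ux e (c, s, C, S) * tx e (c, s, C, S) + uy e (c, s, C, S) * ty e (c, s, C, S)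
      - NN e (c, s, C, S) * lap e (c, s, C, S)
      = e^3 * (7/4 - C^2/16) + e^4 * R (e, (c, s, C, S))
        - (Real.sqrt (4 + w) - (2 + w/4 - w^2/64)) * lap e (c, s, C, S) := by
    rw [hN]
    have e1 : R (e, (c, s, C, S)) = (a1 c s C S*p3 c s C S + b1 c s C S*q3 c s C S
          + b2 c s C S*q2 c s C S + e*b2 c s C S*q3 c s C S
          - ((2*b1 c s C S*b2 c s C S + e*b2 c s C S^2)*l1 c s C S
            + (a1 c s C S^2 + b1 c s C S^2 + 2*e*b1 c s C S*b2 c s C S + e^2*b2 c s C S^2)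
              *l2 c s C S)/4
          + ((4*a1 c s C S*(a1 c s C S^2 + b1 c s C S^2 + 2*e*b1 c s C S*b2 c s C S
                + e^2*b2 c s C S^2)
              + e*(a1 c s C S^2 + b1 c s C S^2 + 2*e*b1 c s C S*b2 c s C S
                + e^2*b2 c s C S^2)^2)*l1 c s C S
              + (2*a1 c s C S + e*(a1 c s C S^2 + b1 c s C S^2 + 2*e*b1 c s C S*b2 c s C S
                + e^2*b2 c s C S^2))^2*l2 c s C S)/64) := by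
      rw [hR, hω, hθ]
    rw [e1]
    unfold ux uy tx ty lap
    simp only
    linear_combination hexp
  rw [hmain]
  have hC : C^2 ≤ 1 := by linarith [sq_nonneg S]
  have h5 : e * (|BR| + B^3 * |Bl|) ≤ 1 := by
    have : e * M = e * (|BR| + B^3 * |Bl|) + e := by rw [hM]; ring
    linarith
  exact finish he0 hRB hprod h5 hC

end

end Pool.Agent.T2H73.Geq
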