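import Mathlib
import Pool.Agent.T2H73.Geq1

set_option autoImplicit false

open Set

namespace Pool.Agent.T2H73.Geq

noncomputable section

def uxx (e : ℝ) (v : ℝ × ℝ × ℝ × ℝ) : ℝ :=
  e * (-2*v.2.1 - 4*(v.1^2 - v.2.1^2) - v.1*v.2.2.1)
def uxy (e : ℝ) (v : ℝ × ℝ × ℝ × ℝ) : ℝ := e * (v.2.1 * v.2.2.2)
def uyy (e : ℝ) (v : ℝ × ℝ × ℝ × ℝ) : ℝ := e * (-(v.1*v.2.2.1)) + e^2 * (-(3/4)*v.2.2.1)

lemma lap_eq (e : ℝ) (v : ℝ × ℝ × ℝ × ℝ) : lap e v = uxx e v + uyy e v := by
  unfold lap uxx uyy l1 l2; ring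

lemma NN_pos (e : ℝ) (v : ℝ × ℝ × ℝ × ℝ) : 1 < NN e v := by
  unfold NN
  rw [Real.lt_sqrt (by norm_num)]
  nlinarith [sq_nonneg (ux e v), sq_nonneg (uy e v)]

lemma NN_sq (e : ℝ) (v : ℝ × ℝ × ℝ × ℝ) : NN e v ^ 2 = ux e v ^2 + uy e v ^2 + 3 :=
  Real.sq_sqrt (by positivity)

/-- curvature term -/
def TT (e : ℝ) (v : ℝ × ℝ × ℝ × ℝ) : ℝ :=
  uxx e v + uyy e v - (ux e v ^2 * uxx e v + 2 * ux e v * uy e v * uxy e v
    + uy e v ^2 * uyy e v) / NN e v ^ 2

def hx (e : ℝ) (v : ℝ × ℝ × ℝ × ℝ) : ℝ := tx e v - (ux e v * uxx e v + uy e v * uxy e v) / NN e v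
def hy (e : ℝ) (v : ℝ × ℝ × ℝ × ℝ) : ℝ := ty e v - (ux e v * uxy e v + uy e v * uyy e v) / NN e v

lemma continuous_ux (e : ℝ) : Continuous (ux e) := by unfold ux a1; fun_prop
lemma continuous_uy (e : ℝ) : Continuous (uy e) := by unfold uy b1 b2; fun_prop
lemma continuous_uxx (e : ℝ) : Continuous (uxx e) := by unfold uxx; fun_prop
lemma continuous_uxy (e : ℝ) : Continuous (uxy e) := by unfold uxy; fun_prop
lemma continuous_uyy (e : ℝ) : Continuous (uyy e) := by unfold uyy; fun_prop
lemma continuous_tx (e : ℝ) : Continuous (tx e) := by unfold tx p1 p2 p3; fun_prop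
lemma continuous_ty (e : ℝ) : Continuous (ty e) := by unfold ty q1 q2 q3; fun_prop
lemma continuous_NN (e : ℝ) : Continuous (NN e) := by
  unfold NN
  exact Real.continuous_sqrt.comp ((((continuous_ux e).pow 2).add ((continuous_uy e).pow 2)).add
    continuous_const)
lemma continuous_TT (e : ℝ) : Continuous (TT e) := by
  unfold TT
  refine ((continuous_uxx e).add (continuous_uyy e)).sub (Continuous.div ?_
    ((continuous_NN e).pow 2) fun v => pow_ne_zero 2 (by linarith [NN_pos e v]))
  exact ((((continuous_ux e).pow 2).mul (continuous_uxx e)).add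
    (((continuous_const.mul (continuous_ux e)).mul (continuous_uy e)).mul
      (continuous_uxy e))).add (((continuous_uy e).pow 2).mul (continuous_uyy e))
lemma continuous_hx (e : ℝ) : Continuous (hx e) := by
  unfold hx
  refine (continuous_tx e).sub (Continuous.div ?_ (continuous_NN e)
    fun v => by linarith [NN_pos e v])
  exact ((continuous_ux e).mul (continuous_uxx e)).add ((continuous_uy e).mul (continuous_uxy e))
lemma continuous_hy (e : ℝ) : Continuous (hy e) := by
  unfold hy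
  refine (continuous_ty e).sub (Continuous.div ?_ (continuous_NN e)
    fun v => by linarith [NN_pos e v])
  exact ((continuous_ux e).mul (continuous_uxy e)).add ((continuous_uy e).mul (continuous_uyy e))

lemma key_id (e : ℝ) (v : ℝ × ℝ × ℝ × ℝ) :
    ux e v * hx e v + uy e v * hy e v - NN e v * TT e v
      = ux e v * tx e v + uy e v * ty e v - NN e v * lap e v := by
  have h : NN e v ≠ 0 := by linarith [NN_pos e v]
  rw [lap_eq]
  unfold hx hy TT
  field_simp
  ring

/-- Choice of the Markstein number (up to scaling). -/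
theorem key2 : ∃ e k : ℝ, 0 < e ∧ e < 1/10 ∧ 0 < k ∧
    (∀ v ∈ K4, Real.sqrt ((ux e v - k * hx e v)^2 + (uy e v - k * hy e v)^2 + 3)
      < NN e v - k * TT e v) ∧
    NN e (1,0,1,0) - k * TT e (1,0,1,0) ≠ NN e (0,1,1,0) - k * TT e (0,1,1,0) := by
  obtain ⟨e, he, he1, hkey⟩ := key
  set D : ℝ × ℝ × ℝ × ℝ → ℝ := fun v => ux e v * tx e v + uy e v * ty e v - NN e v * lap e v
    with hD
  have cD : Continuous D := by
    have : Continuous (lap e) := by unfold lap l1 l2; fun_prop
    exact (((continuous_ux e).mul (continuous_tx e)).add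
      ((continuous_uy e).mul (continuous_ty e))).sub ((continuous_NN e).mul this)
  have hne : K4.Nonempty := ⟨(1,0,1,0), by simp [K4]⟩
  obtain ⟨v0, hv0, hmin⟩ := isCompact_K4.exists_isMinOn hne cD.continuousOn
  set m := D v0 with hm
  have hm0 : 0 < m := hkey v0 hv0
  have hmD : ∀ v ∈ K4, m ≤ D v := fun v hv => hmin hv
  obtain ⟨B, hB⟩ := isCompact_K4.exists_bound_of_continuousOn
    (((continuous_hx e).pow 2).add ((continuous_hy e).pow 2)).continuousOn
  obtain ⟨BT, hBT⟩ := isCompact_K4.exists_bound_of_continuousOn (continuous_TT e).continuousOn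
  have hB0 : 0 ≤ B := (norm_nonneg _).trans (hB _ hv0)
  have hBT0 : 0 ≤ BT := (norm_nonneg _).trans (hBT _ hv0)
  have hdiff : NN e (0,1,1,0) < NN e (1,0,1,0) := by
    unfold NN ux uy a1 b1 b2
    apply Real.sqrt_lt_sqrt
    · positivity
    · norm_num
      nlinarith
  set g := NN e (1,0,1,0) - NN e (0,1,1,0) with hg
  have hg0 : 0 < g := by rw [hg]; linarith
  set k := min (m / (B + 1)) (min (1 / (BT + 1)) (g / (2 * BT + 1))) with hk
  have hk0 : 0 < k := by
    refine lt_min (by positivity) (lt_min (by positivity) (by positivity))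
  have hk1 : k * (B + 1) ≤ m := by
    have : k ≤ m / (B + 1) := min_le_left _ _
    rwa [le_div_iff₀ (by linarith)] at this
  have hk2 : k * (BT + 1) ≤ 1 := by
    have : k ≤ 1 / (BT + 1) := (min_le_right _ _).trans (min_le_left _ _)
    rwa [le_div_iff₀ (by linarith)] at this
  have hk3 : k * (2 * BT + 1) ≤ g := by
    have : k ≤ g / (2 * BT + 1) := (min_le_right _ _).trans (min_le_right _ _)
    rwa [le_div_iff₀ (by linarith)] at this
  refine ⟨e, k, he, he1, hk0, ?_, ?_⟩
  · intro v hv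
    have h1 := hmD v hv
    have h2 : |hx e v ^ 2 + hy e v ^ 2| ≤ B := hB v hv
    have h3 : |TT e v| ≤ BT := hBT v hv
    have h4 := key_id e v
    have h5 := NN_pos e v
    have h6 := NN_sq e v
    simp only [hD] at h1
    rw [← h4] at h1
    clear h4 hmD hB hBT hmin hkey hv
    revert h1 h2 h3 h5 h6
    generalize ux e v = a
    generalize uy e v = b
    generalize hx e v = x
    generalize hy e v = y
    generalize NN e v = n
    generalize TT e v = t
    intro h2 h3 h5 h6 h1
    have h2' : x^2 + y^2 ≤ B := (le_abs_self _).trans h2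
    have h3' := abs_le.1 h3
    have hpos : 0 < n - k * t := by
      have : k * t ≤ k * BT := mul_le_mul_of_nonneg_left h3'.2 hk0.le
      linarith
    rw [Real.sqrt_lt' hpos]
    have e1 : (n - k*t)^2 - ((a - k*x)^2 + (b - k*y)^2 + 3)
        = 2 * k * (a*x + b*y - n*t) + k^2 * t^2 - k^2 * (x^2+y^2) := by
      have : n^2 = a^2 + b^2 + 3 := h6
      linear_combination this
    have e2 : k^2 * (x^2 + y^2) ≤ k * m := by
      calc k^2 * (x^2+y^2) ≤ k^2 * B := mul_le_mul_of_nonneg_left h2' (by positivity)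
        _ ≤ k^2 * (B + 1) := mul_le_mul_of_nonneg_left (by linarith) (by positivity)
        _ = k * (k * (B+1)) := by ring
        _ ≤ k * m := mul_le_mul_of_nonneg_left hk1 hk0.le
    have e3 : k * m ≤ k * (a*x + b*y - n*t) := mul_le_mul_of_nonneg_left h1 hk0.le
    have e4 : 0 < k * m := by positivity
    have e5 : 0 ≤ k^2 * t^2 := by positivity
    linarith
  · intro heq
    have h1 := hBT (1,0,1,0) (by simp [K4])
    have h2 := hBT (0,1,1,0) (by simp [K4])
    rw [Real.norm_eq_abs] at h1 h2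
    have h3 : g = k * (TT e (1,0,1,0) - TT e (0,1,1,0)) := by rw [hg]; linarith
    have h4 : TT e (1,0,1,0) - TT e (0,1,1,0) ≤ 2 * BT := by
      have := (abs_le.1 h1).2
      have := (abs_le.1 h2).1
      linarith
    have h5 : g ≤ k * (2 * BT) := by
      rw [h3]; exact mul_le_mul_of_nonneg_left h4 hk0.le
    linarith

end

end Pool.Agent.T2H73.Geq
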