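import Mathlib
import Pool.Agent.T2H73.Geq2

set_option autoImplicit false

open Set

namespace Pool.Agent.T2H73.Geq

noncomputable section

lemma hm (i j : ℕ) (x : ℝ) : HasDerivAt (fun x => Real.cos x^i * Real.sin x^j)
    ((i * Real.cos x^(i-1) * (-Real.sin x)) * Real.sin x^j
      + Real.cos x^i * (j * Real.sin x^(j-1) * Real.cos x)) x :=
  ((Real.hasDerivAt_cos x).fun_pow i).fun_mul ((Real.hasDerivAt_sin x).fun_pow j)

lemma hp (i : ℕ) (x : ℝ) : HasDerivAt (fun x => Real.cos x^i)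
    (i * Real.cos x^(i-1) * (-Real.sin x)) x := (Real.hasDerivAt_cos x).fun_pow i

def E1 (c s C : ℝ) : ℝ := ((-8)*C^0)*(c^1*s^1) + ((4)*C^0)*(c^1*s^0) + ((-4)*C^1)*(c^0*s^1) + ((-14)*C^1)*(c^0*s^0)
def E2 (c s C : ℝ) : ℝ := ((12)*C^0)*(c^4*s^0) + ((8)*C^1)*(c^3*s^0) + ((12)*C^0)*(c^2*s^1) + ((7/2)*C^2)*(c^2*s^0) + ((-17)*C^0)*(c^2*s^0) + ((9/2)*C^1)*(c^1*s^1) + ((-6)*C^1)*(c^1*s^0) + ((-14)*C^2)*(c^0*s^1) + ((14)*C^0)*(c^0*s^1) + ((-7/4)*C^2)*(c^0*s^0) + ((4)*C^0)*(c^0*s^0)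
def E3 (c s C : ℝ) : ℝ := ((36)*C^0)*(c^5*s^1) + ((-54)*C^0)*(c^5*s^0) + ((162/5)*C^1)*(c^4*s^1) + ((-135/4)*C^1)*(c^4*s^0) + ((133/8)*C^2)*(c^3*s^1) + ((-139/2)*C^0)*(c^3*s^1) + ((209/24)*C^2)*(c^3*s^0) + ((265/6)*C^0)*(c^3*s^0) + ((119/24)*C^3)*(c^2*s^1) + ((-1249/30)*C^1)*(c^2*s^1) + ((21)*C^3)*(c^2*s^0) + ((33/4)*C^1)*(c^2*s^0) + ((61/16)*C^2)*(c^1*s^1) + ((-49/4)*C^0)*(c^1*s^1) + ((15/2)*C^2)*(c^1*s^0) + ((-3)*C^0)*(c^1*s^0) + ((-23/24)*C^3)*(c^0*s^1) + ((-361/60)*C^1)*(c^0*s^1) + ((-21/2)*C^3)*(c^0*s^0) + ((273/32)*C^1)*(c^0*s^0)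

lemma E1_x (x y : ℝ) : HasDerivAt (fun x => E1 (Real.cos x) (Real.sin x) (Real.cos y))
    (p1 (Real.cos x) (Real.sin x) (Real.cos y) (Real.sin y)) x := by
  have h := (((((hm 1 1 x).const_mul ((-8)*Real.cos y^0)).fun_add ((hm 1 0 x).const_mul ((4)*Real.cos y^0))).fun_add ((hm 0 1 x).const_mul ((-4)*Real.cos y^1))).fun_add ((hm 0 0 x).const_mul ((-14)*Real.cos y^1)))
  unfold E1
  convert! h using 1
  unfold p1
  norm_num
  ring

lemma E1_y (x y : ℝ) : HasDerivAt (fun y => E1 (Real.cos x) (Real.sin x) (Real.cos y))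
    (q1 (Real.cos x) (Real.sin x) (Real.cos y) (Real.sin y)) y := by
  have h := ((((((hp 0 y).const_mul ((-8))).mul_const (Real.cos x^1*Real.sin x^1)).fun_add (((hp 0 y).const_mul ((4))).mul_const (Real.cos x^1*Real.sin x^0))).fun_add (((hp 1 y).const_mul ((-4))).mul_const (Real.cos x^0*Real.sin x^1))).fun_add (((hp 1 y).const_mul ((-14))).mul_const (Real.cos x^0*Real.sin x^0)))
  unfold E1
  convert! h using 1
  unfold q1
  norm_num
  ring

lemma E2_x (x y : ℝ) : HasDerivAt (fun x => E2 (Real.cos x) (Real.sin x) (Real.cos y))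
    (p2 (Real.cos x) (Real.sin x) (Real.cos y) (Real.sin y)) x := by
  have h := ((((((((((((hm 4 0 x).const_mul ((12)*Real.cos y^0)).fun_add ((hm 3 0 x).const_mul ((8)*Real.cos y^1))).fun_add ((hm 2 1 x).const_mul ((12)*Real.cos y^0))).fun_add ((hm 2 0 x).const_mul ((7/2)*Real.cos y^2))).fun_add ((hm 2 0 x).const_mul ((-17)*Real.cos y^0))).fun_add ((hm 1 1 x).const_mul ((9/2)*Real.cos y^1))).fun_add ((hm 1 0 x).const_mul ((-6)*Real.cos y^1))).fun_add ((hm 0 1 x).const_mul ((-14)*Real.cos y^2))).fun_add ((hm 0 1 x).const_mul ((14)*Real.cos y^0))).fun_add ((hm 0 0 x).const_mul ((-7/4)*Real.cos y^2))).fun_add ((hm 0 0 x).const_mul ((4)*Real.cos y^0)))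
  unfold E2
  convert! h using 1
  unfold p2
  norm_num
  ring

lemma E2_y (x y : ℝ) : HasDerivAt (fun y => E2 (Real.cos x) (Real.sin x) (Real.cos y))
    (q2 (Real.cos x) (Real.sin x) (Real.cos y) (Real.sin y)) y := by
  have h := (((((((((((((hp 0 y).const_mul ((12))).mul_const (Real.cos x^4*Real.sin x^0)).fun_add (((hp 1 y).const_mul ((8))).mul_const (Real.cos x^3*Real.sin x^0))).fun_add (((hp 0 y).const_mul ((12))).mul_const (Real.cos x^2*Real.sin x^1))).fun_add (((hp 2 y).const_mul ((7/2))).mul_const (Real.cos x^2*Real.sin x^0))).fun_add (((hp 0 y).const_mul ((-17))).mul_const (Real.cos x^2*Real.sin x^0))).fun_add (((hp 1 y).const_mul ((9/2))).mul_const (Real.cos x^1*Real.sin x^1))).fun_add (((hp 1 y).const_mul ((-6))).mul_const (Real.cos x^1*Real.sin x^0))).fun_add (((hp 2 y).const_mul ((-14))).mul_const (Real.cos x^0*Real.sin x^1))).fun_add (((hp 0 y).const_mul ((14))).mul_const (Real.cos x^0*Real.sin x^1))).fun_add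 (((hp 2 y).const_mul ((-7/4))).mul_const (Real.cos x^0*Real.sin x^0))).fun_add (((hp 0 y).const_mul ((4))).mul_const (Real.cos x^0*Real.sin x^0)))
  unfold E2
  convert! h using 1
  unfold q2
  norm_num
  ring

lemma E3_x (x y : ℝ) : HasDerivAt (fun x => E3 (Real.cos x) (Real.sin x) (Real.cos y))
    (p3 (Real.cos x) (Real.sin x) (Real.cos y) (Real.sin y)) x := by
  have h := (((((((((((((((((((((hm 5 1 x).const_mul ((36)*Real.cos y^0)).fun_add ((hm 5 0 x).const_mul ((-54)*Real.cos y^0))).fun_add ((hm 4 1 x).const_mul ((162/5)*Real.cos y^1))).fun_add ((hm 4 0 x).const_mul ((-135/4)*Real.cos y^1))).fun_add ((hm 3 1 x).const_mul ((133/8)*Real.cos y^2))).fun_add ((hm 3 1 x).const_mul ((-139/2)*Real.cos y^0))).fun_add ((hm 3 0 x).const_mul ((209/24)*Real.cos y^2))).fun_add ((hm 3 0 x).const_mul ((265/6)*Real.cos y^0))).fun_add ((hm 2 1 x).const_mul ((119/24)*Real.cos y^3))).fun_add ((hm 2 1 x).const_mul ((-1249/30)*Real.cos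 y^1))).fun_add ((hm 2 0 x).const_mul ((21)*Real.cos y^3))).fun_add ((hm 2 0 x).const_mul ((33/4)*Real.cos y^1))).fun_add ((hm 1 1 x).const_mul ((61/16)*Real.cos y^2))).fun_add ((hm 1 1 x).const_mul ((-49/4)*Real.cos y^0))).fun_add ((hm 1 0 x).const_mul ((15/2)*Real.cos y^2))).fun_add ((hm 1 0 x).const_mul ((-3)*Real.cos y^0))).fun_add ((hm 0 1 x).const_mul ((-23/24)*Real.cos y^3))).fun_add ((hm 0 1 x).const_mul ((-361/60)*Real.cos y^1))).fun_add ((hm 0 0 x).const_mul ((-21/2)*Real.cos y^3))).fun_add ((hm 0 0 x).const_mul ((273/32)*Real.cos y^1)))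
  unfold E3
  convert! h using 1
  unfold p3
  norm_num
  ring

lemma E3_y (x y : ℝ) : HasDerivAt (fun y => E3 (Real.cos x) (Real.sin x) (Real.cos y))
    (q3 (Real.cos x) (Real.sin x) (Real.cos y) (Real.sin y)) y := by
  have h := ((((((((((((((((((((((hp 0 y).const_mul ((36))).mul_const (Real.cos x^5*Real.sin x^1)).fun_add (((hp 0 y).const_mul ((-54))).mul_const (Real.cos x^5*Real.sin x^0))).fun_add (((hp 1 y).const_mul ((162/5))).mul_const (Real.cos x^4*Real.sin x^1))).fun_add (((hp 1 y).const_mul ((-135/4))).mul_const (Real.cos x^4*Real.sin x^0))).fun_add (((hp 2 y).const_mul ((133/8))).mul_const (Real.cos x^3*Real.sin x^1))).fun_add (((hp 0 y).const_mul ((-139/2))).mul_const (Real.cos x^3*Real.sin x^1))).fun_add (((hp 2 y).const_mul ((209/24))).mul_const (Real.cos x^3*Real.sin x^0))).fun_add (((hp 0 y).const_mul ((265/6))).mul_const (Real.cos x^3*Real.sin x^0))).fun_add (((hp 3 y).const_mul ((119/24))).mul_const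 (Real.cos x^2*Real.sin x^1))).fun_add (((hp 1 y).const_mul ((-1249/30))).mul_const (Real.cos x^2*Real.sin x^1))).fun_add (((hp 3 y).const_mul ((21))).mul_const (Real.cos x^2*Real.sin x^0))).fun_add (((hp 1 y).const_mul ((33/4))).mul_const (Real.cos x^2*Real.sin x^0))).fun_add (((hp 2 y).const_mul ((61/16))).mul_const (Real.cos x^1*Real.sin x^1))).fun_add (((hp 0 y).const_mul ((-49/4))).mul_const (Real.cos x^1*Real.sin x^1))).fun_add (((hp 2 y).const_mul ((15/2))).mul_const (Real.cos x^1*Real.sin x^0))).fun_add (((hp 0 y).const_mul ((-3))).mul_const (Real.cos x^1*Real.sin x^0))).fun_add (((hp 3 y).const_mul ((-23/24))).mul_const (Real.cos x^0*Real.sin x^1))).fun_add (((hp 1 y).const_mul ((-361/60))).mul_const (Real.cos x^0*Real.sin x^1))).fun_add (((hp 3 y).const_mul ((-21/2))).mul_const (Real.cos x^0*Real.sin x^0))).fun_add (((hp 1 y).const_mul ((273/32))).mul_const (Real.cos x^0*Real.sin x^0)))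
  unfold E3
  convert! h using 1
  unfold q3
  norm_num
  ring


end

end Pool.Agent.T2H73.Geq
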