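import Mathlib
import Pool.Agent.T2H73.Geq3
import Pool.Agent.T2H73.GeqDef

set_option autoImplicit false

open Set

namespace Pool.Agent.T2H73.Geq

noncomputable section

def cv (x y : ℝ) : ℝ × ℝ × ℝ × ℝ := (Real.cos x, Real.sin x, Real.cos y, Real.sin y)

lemma cv_mem (x y : ℝ) : cv x y ∈ K4 := ⟨by simp [cv], by simp [cv]⟩

/-- the periodic part of the travelling wave -/
def w (e x y : ℝ) : ℝ :=
  e * (2 * Real.sin x + 2 * Real.cos x^2 - 1 + Real.cos x * Real.cos y) + e^2 * (3/4 * Real.cos y)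

/-- the corrector -/
def EE (e x y : ℝ) : ℝ := e * E1 (Real.cos x) (Real.sin x) (Real.cos y)
  + e^2 * E2 (Real.cos x) (Real.sin x) (Real.cos y)
  + e^3 * E3 (Real.cos x) (Real.sin x) (Real.cos y)

lemma hcos2 (x : ℝ) : HasDerivAt (fun x => Real.cos x^2) (2 * Real.cos x * (-Real.sin x)) x := by
  have := (Real.hasDerivAt_cos x).fun_pow 2
  convert! this using 1
  norm_num

lemma w_x (e x y : ℝ) : HasDerivAt (fun x => w e x y) (ux e (cv x y) - 1) x := by
  unfold w
  have h := (((((Real.hasDerivAt_sin x).const_mul 2).fun_add ((hcos2 x).const_mul 2)).sub_const 1).fun_add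
    ((Real.hasDerivAt_cos x).mul_const (Real.cos y))).const_mul e |>.add_const (e^2 * (3/4 * Real.cos y))
  convert! h using 1
  simp only [ux, a1, cv]
  ring

lemma w_y (e x y : ℝ) : HasDerivAt (fun y => w e x y) (uy e (cv x y)) y := by
  unfold w
  have h := ((((Real.hasDerivAt_cos y).const_mul (Real.cos x)).const_add
    (2 * Real.sin x + 2 * Real.cos x^2 - 1)).const_mul e).fun_add
    (((Real.hasDerivAt_cos y).const_mul (3/4)).const_mul (e^2))
  convert! h using 1
  simp only [uy, b1, b2, cv]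
  ring

lemma ux_x (e x y : ℝ) : HasDerivAt (fun x => ux e (cv x y)) (uxx e (cv x y)) x := by
  simp only [ux, a1, cv]
  have h := (((((((Real.hasDerivAt_cos x).const_mul (-4)).fun_mul (Real.hasDerivAt_sin x)).fun_add
    ((Real.hasDerivAt_cos x).const_mul 2)).fun_sub ((Real.hasDerivAt_sin x).mul_const (Real.cos y))).const_mul e).const_add 1)
  convert! h using 1
  simp only [uxx]
  ring

lemma ux_y (e x y : ℝ) : HasDerivAt (fun y => ux e (cv x y)) (uxy e (cv x y)) y := by
  simp only [ux, a1, cv]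
  have h := ((((Real.hasDerivAt_cos y).const_mul (Real.sin x)).const_sub
    (-4 * Real.cos x * Real.sin x + 2 * Real.cos x)).const_mul e).const_add 1
  convert! h using 1
  simp only [uxy]
  ring

lemma uy_x (e x y : ℝ) : HasDerivAt (fun x => uy e (cv x y)) (uxy e (cv x y)) x := by
  simp only [uy, b1, b2, cv]
  have h := ((((Real.hasDerivAt_cos x).fun_neg).mul_const (Real.sin y)).const_mul e).add_const
    (e^2 * (-(3/4) * Real.sin y))
  convert! h using 1
  simp only [uxy]
  ring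

lemma uy_y (e x y : ℝ) : HasDerivAt (fun y => uy e (cv x y)) (uyy e (cv x y)) y := by
  simp only [uy, b1, b2, cv]
  have h := (((Real.hasDerivAt_sin y).const_mul (-Real.cos x)).const_mul e).fun_add
    (((Real.hasDerivAt_sin y).const_mul (-(3/4))).const_mul (e^2))
  convert! h using 1
  simp only [uyy]
  ring

lemma EE_x (e x y : ℝ) : HasDerivAt (fun x => EE e x y) (tx e (cv x y)) x := by
  unfold EE
  exact (((E1_x x y).const_mul e).fun_add ((E2_x x y).const_mul (e^2))).fun_add
    ((E3_x x y).const_mul (e^3))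

lemma EE_y (e x y : ℝ) : HasDerivAt (fun y => EE e x y) (ty e (cv x y)) y := by
  unfold EE
  exact (((E1_y x y).const_mul e).fun_add ((E2_y x y).const_mul (e^2))).fun_add
    ((E3_y x y).const_mul (e^3))

lemma NN_x (e x y : ℝ) : HasDerivAt (fun x => NN e (cv x y))
    ((ux e (cv x y) * uxx e (cv x y) + uy e (cv x y) * uxy e (cv x y)) / NN e (cv x y)) x := by
  unfold NN
  have h := ((((ux_x e x y).fun_pow 2).fun_add ((uy_x e x y).fun_pow 2)).add_const 3).sqrt
    (by positivity)
  convert! h using 1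
  norm_num
  have : 0 < Real.sqrt (ux e (cv x y) ^ 2 + uy e (cv x y) ^ 2 + 3) := Real.sqrt_pos.2 (by positivity)
  field_simp

lemma NN_y (e x y : ℝ) : HasDerivAt (fun y => NN e (cv x y))
    ((ux e (cv x y) * uxy e (cv x y) + uy e (cv x y) * uyy e (cv x y)) / NN e (cv x y)) y := by
  unfold NN
  have h := ((((ux_y e x y).fun_pow 2).fun_add ((uy_y e x y).fun_pow 2)).add_const 3).sqrt
    (by positivity)
  convert! h using 1
  norm_num
  have : 0 < Real.sqrt (ux e (cv x y) ^ 2 + uy e (cv x y) ^ 2 + 3) := Real.sqrt_pos.2 (by positivity)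
  field_simp

/-- the periodic part of the subsolution -/
def psi (e k x y : ℝ) : ℝ := w e x y - k * (EE e x y - NN e (cv x y))

lemma psi_x (e k x y : ℝ) : HasDerivAt (fun x => psi e k x y)
    (ux e (cv x y) - 1 - k * hx e (cv x y)) x := by
  unfold psi
  exact (w_x e x y).fun_sub (((EE_x e x y).fun_sub (NN_x e x y)).const_mul k)

lemma psi_y (e k x y : ℝ) : HasDerivAt (fun y => psi e k x y)
    (uy e (cv x y) - k * hy e (cv x y)) y := by
  unfold psi
  exact (w_y e x y).fun_sub (((EE_y e x y).fun_sub (NN_y e x y)).const_mul k)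

lemma contDiff_w (e : ℝ) : ContDiff ℝ 2 (fun z : ℝ × ℝ => w e z.1 z.2) := by
  unfold w; fun_prop

lemma contDiff_cv : ContDiff ℝ 2 (fun z : ℝ × ℝ => cv z.1 z.2) := by
  unfold cv; fun_prop

lemma contDiff_ux (e : ℝ) : ContDiff ℝ 2 (ux e) := by unfold ux a1; fun_prop
lemma contDiff_uy (e : ℝ) : ContDiff ℝ 2 (uy e) := by unfold uy b1 b2; fun_prop
lemma contDiff_uxx (e : ℝ) : ContDiff ℝ 2 (uxx e) := by unfold uxx; fun_prop
lemma contDiff_uxy (e : ℝ) : ContDiff ℝ 2 (uxy e) := by unfold uxy; fun_prop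
lemma contDiff_uyy (e : ℝ) : ContDiff ℝ 2 (uyy e) := by unfold uyy; fun_prop

lemma contDiff_NN (e : ℝ) : ContDiff ℝ 2 (NN e) := by
  unfold NN
  refine ContDiff.sqrt ?_ fun v => by positivity
  exact (((contDiff_ux e).pow 2).add ((contDiff_uy e).pow 2)).add contDiff_const

lemma contDiff_TT (e : ℝ) : ContDiff ℝ 2 (TT e) := by
  unfold TT
  refine ((contDiff_uxx e).add (contDiff_uyy e)).sub (ContDiff.div ?_
    ((contDiff_NN e).pow 2) fun v => pow_ne_zero 2 (by linarith [NN_pos e v]))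
  exact ((((contDiff_ux e).pow 2).mul (contDiff_uxx e)).add
    (((contDiff_const.mul (contDiff_ux e)).mul (contDiff_uy e)).mul
      (contDiff_uxy e))).add (((contDiff_uy e).pow 2).mul (contDiff_uyy e))

lemma contDiff_EE (e : ℝ) : ContDiff ℝ 2 (fun z : ℝ × ℝ => EE e z.1 z.2) := by
  unfold EE E1 E2 E3; fun_prop

lemma contDiff_psi (e k : ℝ) : ContDiff ℝ 2 (fun z : ℝ × ℝ => psi e k z.1 z.2) := by
  unfold psi
  exact (contDiff_w e).sub (contDiff_const.mul ((contDiff_EE e).sub
    ((contDiff_NN e).comp contDiff_cv)))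

/-! ### lifting to `ℝ³` -/

def lift (a0 a2 b : ℝ) (Q : ℝ → ℝ → ℝ) (X : V3) : ℝ :=
  a0 * X 0 + a2 * X 2 + b * Q (2 * Real.pi * X 0) (2 * Real.pi * X 1)

lemma contDiff_lift (a0 a2 b : ℝ) {Q : ℝ → ℝ → ℝ} {n : WithTop ℕ∞}
    (hQ : ContDiff ℝ n (fun z : ℝ × ℝ => Q z.1 z.2)) : ContDiff ℝ n (lift a0 a2 b Q) := by
  unfold lift
  have h1 : ContDiff ℝ n (fun X : V3 => ((2 * Real.pi * X 0, 2 * Real.pi * X 1) : ℝ × ℝ)) := by
    fun_prop
  exact ContDiff.add (by fun_prop) (contDiff_const.mul (hQ.comp h1))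

lemma grad_eq_of {g : V3 → ℝ} {X : V3} (hg : DifferentiableAt ℝ g X) {i : Fin 3} {a : ℝ}
    (h : HasDerivAt (fun s => g (Function.update X i s)) a (X i)) : grad g X i = a := by
  have h1 : HasDerivAt (Function.update X i) (Pi.single i (1:ℝ)) (X i) := hasDerivAt_update X i (X i)
  have hg' : HasFDerivAt g (fderiv ℝ g X) (Function.update X i (X i)) := by
    rw [Function.update_eq_self]; exact hg.hasFDerivAt
  have h2 := hg'.comp_hasDerivAt (X i) h1
  exact h2.unique h

lemma grad_lift (a0 a2 b : ℝ) {Q Qx Qy : ℝ → ℝ → ℝ}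
    (hQ : Differentiable ℝ (fun z : ℝ × ℝ => Q z.1 z.2))
    (hx : ∀ x y, HasDerivAt (fun x => Q x y) (Qx x y) x)
    (hy : ∀ x y, HasDerivAt (fun y => Q x y) (Qy x y) y) (X : V3) :
    grad (lift a0 a2 b Q) X = ![a0 + b * (2 * Real.pi) * Qx (2 * Real.pi * X 0) (2 * Real.pi * X 1),
      b * (2 * Real.pi) * Qy (2 * Real.pi * X 0) (2 * Real.pi * X 1), a2] := by
  have hd : DifferentiableAt ℝ (lift a0 a2 b Q) X := by
    unfold lift
    have h1 : Differentiable ℝ (fun X : V3 => ((2 * Real.pi * X 0, 2 * Real.pi * X 1) : ℝ × ℝ)) := by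
      fun_prop
    have h2 := hQ.comp h1
    exact (DifferentiableAt.add (by fun_prop) ((h2 X).const_mul b))
  have hlin : ∀ s : ℝ, HasDerivAt (fun s : ℝ => 2 * Real.pi * s) (2 * Real.pi) s := fun s => by
    simpa using (hasDerivAt_id s).const_mul (2 * Real.pi)
  funext i
  refine grad_eq_of hd ?_
  fin_cases i
  · simp only [lift, Fin.zero_eta, Function.update_self, ne_eq, Fin.reduceEq, not_false_eq_true,
      Function.update_of_ne, Fin.isValue]
    have h1 : HasDerivAt (fun s : ℝ => Q (2 * Real.pi * s) (2 * Real.pi * X 1))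
        (Qx (2 * Real.pi * X 0) (2 * Real.pi * X 1) * (2 * Real.pi)) (X 0) :=
      HasDerivAt.comp (h₂ := fun x => Q x (2 * Real.pi * X 1)) (X 0)
        (hx (2 * Real.pi * X 0) (2 * Real.pi * X 1)) (hlin (X 0))
    have h2 := (((hasDerivAt_id (X 0)).const_mul a0).add_const (a2 * X 2)).fun_add (h1.const_mul b)
    convert! h2 using 1
    simp
    ring
  · simp only [lift, Fin.mk_one, Function.update_self, ne_eq, Fin.reduceEq, not_false_eq_true,
      Function.update_of_ne, Fin.isValue]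
    have h1 : HasDerivAt (fun s : ℝ => Q (2 * Real.pi * X 0) (2 * Real.pi * s))
        (Qy (2 * Real.pi * X 0) (2 * Real.pi * X 1) * (2 * Real.pi)) (X 1) :=
      HasDerivAt.comp (h₂ := fun y => Q (2 * Real.pi * X 0) y) (X 1)
        (hy (2 * Real.pi * X 0) (2 * Real.pi * X 1)) (hlin (X 1))
    have h2 := (h1.const_mul b).const_add (a0 * X 0 + a2 * X 2)
    convert! h2 using 1
    simp
    ring
  · simp only [lift, Fin.reduceFinMk, Function.update_self, ne_eq, Fin.reduceEq,
      not_false_eq_true, Function.update_of_ne, Fin.isValue]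
    have h2 := (((hasDerivAt_id (X 2)).const_mul a2).const_add (a0 * X 0)).add_const
      (b * Q (2 * Real.pi * X 0) (2 * Real.pi * X 1))
    convert! h2 using 1
    simp

end

end Pool.Agent.T2H73.Geq
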