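import Mathlib
import Pool.Agent.T2H73.Geq5
import Pool.Agent.T2H73.Geq6

set_option autoImplicit false

open Set

namespace Pool.Agent.T2H73.Geq

noncomputable section

lemma bounded_of_periodic {n : ℕ} {h : (Fin n → ℝ) → ℝ} (hc : Continuous h)
    (hp : ∀ (x : Fin n → ℝ) (k : Fin n → ℤ), h (x + fun i => (k i : ℝ)) = h x) :
    ∃ B, ∀ x, |h x| ≤ B := by
  obtain ⟨B, hB⟩ := (isCompact_Icc (a := (0 : Fin n → ℝ)) (b := 1)).exists_bound_of_continuousOn
    hc.continuousOn
  refine ⟨B, fun x => ?_⟩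
  have h1 := hp x (fun i => -⌊x i⌋)
  rw [← h1, ← Real.norm_eq_abs]
  apply hB
  constructor
  · intro i
    simp only [Pi.add_apply, Int.cast_neg, Pi.zero_apply]
    have := Int.floor_le (x i)
    linarith
  · intro i
    simp only [Pi.add_apply, Int.cast_neg, Pi.one_apply]
    have := (Int.lt_floor_add_one (x i)).le
    linarith

lemma lipschitz_of_periodic {n : ℕ} {h : (Fin n → ℝ) → ℝ} (hc : ContDiff ℝ 1 h)
    (hp : ∀ (x : Fin n → ℝ) (k : Fin n → ℤ), h (x + fun i => (k i : ℝ)) = h x) :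
    ∃ K, LipschitzWith K h := by
  obtain ⟨B, hB⟩ := bounded_of_periodic (h := fun x => ‖fderiv ℝ h x‖)
    (hc.continuous_fderiv (by norm_num)).norm (by
      intro x k
      have : fderiv ℝ h (x + fun i => (k i : ℝ)) = fderiv ℝ h x := by
        rw [← fderiv_comp_add_right]
        congr 1
        funext y
        exact hp y k
      rw [this])
  refine ⟨Real.toNNReal B, ?_⟩
  refine lipschitzWith_of_nnnorm_fderiv_le (𝕜 := ℝ) (hc.differentiable (by norm_num)) fun x => ?_
  rw [← NNReal.coe_le_coe, coe_nnnorm]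
  have h1 := hB x
  rw [abs_of_nonneg (norm_nonneg _)] at h1
  exact h1.trans (Real.le_coe_toNNReal B)

/-- periodic data give bounded gradient and Hessian -/
lemma bounded_jets {g : V3 → ℝ} (hg : ContDiff ℝ 2 g) {P : V3}
    (hp : ∀ (X : V3) (k : Fin 3 → ℤ), g (X + fun i => (k i : ℝ)) = g X + dot P (fun i => (k i : ℝ))) :
    (∃ C, ∀ X, |g X - dot P X| ≤ C) ∧ (∃ B, (∀ X i, |grad g X i| ≤ B) ∧
      ∀ X i j, |hess g X i j| ≤ B) := by
  have hgr : ∀ (X : V3) (k : Fin 3 → ℤ), fderiv ℝ g (X + fun i => (k i : ℝ)) = fderiv ℝ g X := by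
    intro X k
    rw [← fderiv_comp_add_right]
    have : (fun x => g (x + fun i => (k i : ℝ))) = fun x => g x + dot P (fun i => (k i : ℝ)) := by
      funext y; exact hp y k
    rw [this, fderiv_add_const]
  have hgrad : ∀ (X : V3) (k : Fin 3 → ℤ), grad g (X + fun i => (k i : ℝ)) = grad g X := by
    intro X k
    unfold grad
    rw [hgr]
  have hhess : ∀ (X : V3) (k : Fin 3 → ℤ), hess g (X + fun i => (k i : ℝ)) = hess g X := by
    intro X k
    funext i j
    unfold hess
    have : fderiv ℝ (fun Y => grad g Y i) (X + fun i => (k i : ℝ))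
        = fderiv ℝ (fun Y => grad g Y i) X := by
      rw [← fderiv_comp_add_right]
      congr 1
      funext y
      exact congrFun (hgrad y k) i
    rw [this]
  constructor
  · refine bounded_of_periodic (h := fun X => g X - dot P X) ?_ ?_
    · exact hg.continuous.sub (by unfold dot; fun_prop)
    · intro X k
      rw [hp]
      have : dot P (X + fun i => (k i : ℝ)) = dot P X + dot P (fun i => (k i : ℝ)) := by
        unfold dot
        rw [← Finset.sum_add_distrib]
        exact Finset.sum_congr rfl fun i _ => by simp [mul_add]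
      rw [this]; ring
  · have h1 : ∀ i : Fin 3, ∃ B, ∀ X, |grad g X i| ≤ B := fun i =>
      bounded_of_periodic (h := fun X => grad g X i) (contDiff_grad hg i).continuous
        (fun X k => congrFun (hgrad X k) i)
    have h2 : ∀ i j : Fin 3, ∃ B, ∀ X, |hess g X i j| ≤ B := fun i j =>
      bounded_of_periodic (h := fun X => hess g X i j) (continuous_hess hg i j)
        (fun X k => congrFun (congrFun (hhess X k) i) j)
    choose B1 hB1 using h1
    choose B2 hB2 using h2
    have hn1 : ∀ i, 0 ≤ B1 i := fun i => (abs_nonneg _).trans (hB1 i 0)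
    have hn2 : ∀ i j, 0 ≤ B2 i j := fun i j => (abs_nonneg _).trans (hB2 i j 0)
    refine ⟨(∑ i, B1 i) + ∑ i, ∑ j, B2 i j, fun X i => ?_, fun X i j => ?_⟩
    · refine (hB1 i X).trans ?_
      have a1 : B1 i ≤ ∑ i, B1 i := Finset.single_le_sum (fun i _ => hn1 i) (Finset.mem_univ i)
      have a2 : 0 ≤ ∑ i, ∑ j, B2 i j := Finset.sum_nonneg fun i _ => Finset.sum_nonneg fun j _ => hn2 i j
      linarith
    · refine (hB2 i j X).trans ?_
      have a1 : 0 ≤ ∑ i, B1 i := Finset.sum_nonneg fun i _ => hn1 i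
      have a2 : B2 i j ≤ ∑ j, B2 i j := Finset.single_le_sum (fun j _ => hn2 i j) (Finset.mem_univ j)
      have a3 : ∑ j, B2 i j ≤ ∑ i, ∑ j, B2 i j :=
        Finset.single_le_sum (f := fun i => ∑ j, B2 i j)
          (fun i _ => Finset.sum_nonneg fun j _ => hn2 i j) (Finset.mem_univ i)
      linarith

/-! ### the data of the counterexample -/

/-- direction `P = (1/2, 0, √3/2)` -/
def PP : V3 := ![1/2, 0, Real.sqrt 3 / 2]

lemma PP_unit : dot PP PP = 1 := by
  have h : Real.sqrt 3 * Real.sqrt 3 = 3 := Real.mul_self_sqrt (by norm_num)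
  simp [dot, PP, Fin.sum_univ_three]
  nlinarith

lemma PP2 : PP 2 = Real.sqrt 3 / 2 := by simp [PP]

lemma PP2_pos : 0 < PP 2 := by rw [PP2]; positivity

def Phi (e : ℝ) : V3 → ℝ := lift (1/2) (Real.sqrt 3 / 2) (1 / (4 * Real.pi)) (w e)

def Psi (e k : ℝ) : V3 → ℝ := lift (1/2) (Real.sqrt 3 / 2) (1 / (4 * Real.pi)) (psi e k)

/-- the point of the torus -/
def pt (X : V3) : ℝ × ℝ × ℝ × ℝ := cv (2 * Real.pi * X 0) (2 * Real.pi * X 1)

lemma pt_mem (X : V3) : pt X ∈ K4 := cv_mem _ _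

lemma pi_aux : 1 / (4 * Real.pi) * (2 * Real.pi) = 1/2 := by
  have := Real.pi_pos
  field_simp
  norm_num

lemma grad_Phi (e : ℝ) (X : V3) : grad (Phi e) X = ![ux e (pt X) / 2, uy e (pt X) / 2, Real.sqrt 3 / 2] := by
  unfold Phi
  rw [grad_lift _ _ _ ((contDiff_w e).differentiable (by norm_num)) (w_x e) (w_y e), pi_aux]
  funext i
  fin_cases i
  · simp [pt]; ring
  · simp [pt]; ring
  · simp

lemma grad_Psi (e k : ℝ) (X : V3) : grad (Psi e k) X = ![(ux e (pt X) - k * hx e (pt X)) / 2,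
    (uy e (pt X) - k * hy e (pt X)) / 2, Real.sqrt 3 / 2] := by
  unfold Psi
  rw [grad_lift _ _ _ ((contDiff_psi e k).differentiable (by norm_num)) (psi_x e k) (psi_y e k),
    pi_aux]
  funext i
  fin_cases i
  · simp [pt]; ring
  · simp [pt]; ring
  · simp

lemma lift_zero (b : ℝ) (Q : ℝ → ℝ → ℝ) (X : V3) :
    lift 0 0 b Q X = b * Q (2 * Real.pi * X 0) (2 * Real.pi * X 1) := by simp [lift]

lemma hess_Phi (e : ℝ) (X : V3) : hess (Phi e) X =
    ![![Real.pi * uxx e (pt X), Real.pi * uxy e (pt X), 0],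
      ![Real.pi * uxy e (pt X), Real.pi * uyy e (pt X), 0], ![0, 0, 0]] := by
  have hux : Differentiable ℝ (fun z : ℝ × ℝ => (fun x y => ux e (cv x y)) z.1 z.2) :=
    (((contDiff_ux e).comp contDiff_cv).differentiable (by norm_num))
  have huy : Differentiable ℝ (fun z : ℝ × ℝ => (fun x y => uy e (cv x y)) z.1 z.2) :=
    (((contDiff_uy e).comp contDiff_cv).differentiable (by norm_num))
  funext i j
  have hgr : hess (Phi e) X i j = grad (fun Y => grad (Phi e) Y i) X j := rfl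
  rw [hgr]
  fin_cases i
  · have h0 : (fun Y => grad (Phi e) Y ((fun i => i) ⟨0, by norm_num⟩))
        = lift 0 0 (1/2) (fun x y => ux e (cv x y)) := by
      funext Y
      rw [grad_Phi, lift_zero]
      simp [pt]; ring
    rw [h0, grad_lift 0 0 (1/2) hux (ux_x e) (ux_y e)]
    fin_cases j
    · simp [pt]
    · simp [pt]
    · simp
  · have h0 : (fun Y => grad (Phi e) Y ((fun i => i) ⟨1, by norm_num⟩))
        = lift 0 0 (1/2) (fun x y => uy e (cv x y)) := by
      funext Y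
      rw [grad_Phi, lift_zero]
      simp [pt]; ring
    rw [h0, grad_lift 0 0 (1/2) huy (uy_x e) (uy_y e)]
    fin_cases j
    · simp [pt]
    · simp [pt]
    · simp
  · have h0 : (fun Y => grad (Phi e) Y ((fun i => i) ⟨2, by norm_num⟩))
        = fun _ => Real.sqrt 3 / 2 := by
      funext Y
      rw [grad_Phi]
      simp
    rw [h0]
    unfold grad
    simp
    fin_cases j <;> simp

lemma periodic_lift {Q : ℝ → ℝ → ℝ} (a0 a2 b : ℝ)
    (hQ : ∀ x y (m n : ℤ), Q (x + m * (2 * Real.pi)) (y + n * (2 * Real.pi)) = Q x y)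
    (X : V3) (k : Fin 3 → ℤ) : lift a0 a2 b Q (X + fun i => (k i : ℝ))
      = lift a0 a2 b Q X + (a0 * k 0 + a2 * k 2) := by
  unfold lift
  simp only [Pi.add_apply]
  have e1 : 2 * Real.pi * (X 0 + (k 0 : ℝ)) = 2 * Real.pi * X 0 + (k 0 : ℝ) * (2 * Real.pi) := by ring
  have e2 : 2 * Real.pi * (X 1 + (k 1 : ℝ)) = 2 * Real.pi * X 1 + (k 1 : ℝ) * (2 * Real.pi) := by ring
  rw [e1, e2, hQ]
  ring

lemma cv_periodic (x y : ℝ) (m n : ℤ) :
    cv (x + m * (2 * Real.pi)) (y + n * (2 * Real.pi)) = cv x y := by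
  unfold cv
  rw [Real.cos_add_int_mul_two_pi, Real.sin_add_int_mul_two_pi, Real.cos_add_int_mul_two_pi,
    Real.sin_add_int_mul_two_pi]

lemma w_periodic (e x y : ℝ) (m n : ℤ) :
    w e (x + m * (2 * Real.pi)) (y + n * (2 * Real.pi)) = w e x y := by
  unfold w
  rw [Real.cos_add_int_mul_two_pi, Real.sin_add_int_mul_two_pi, Real.cos_add_int_mul_two_pi]

lemma psi_periodic (e k x y : ℝ) (m n : ℤ) :
    psi e k (x + m * (2 * Real.pi)) (y + n * (2 * Real.pi)) = psi e k x y := by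
  unfold psi EE
  rw [w_periodic, cv_periodic, Real.cos_add_int_mul_two_pi, Real.sin_add_int_mul_two_pi,
    Real.cos_add_int_mul_two_pi]

lemma dot_PP (X : V3) : dot PP X = 1/2 * X 0 + Real.sqrt 3 / 2 * X 2 := by
  simp [dot, PP, Fin.sum_univ_three]

lemma nrm_of {a b : ℝ} : nrm ![a/2, b/2, Real.sqrt 3 / 2] = Real.sqrt (a^2 + b^2 + 3) / 2 := by
  have h3 : Real.sqrt 3 * Real.sqrt 3 = 3 := Real.mul_self_sqrt (by norm_num)
  unfold nrm
  have h1 : dot ![a/2, b/2, Real.sqrt 3 / 2] ![a/2, b/2, Real.sqrt 3 / 2]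
      = (a^2 + b^2 + 3) * (1/2)^2 := by
    simp [dot, Fin.sum_univ_three]
    nlinarith
  rw [h1, Real.sqrt_mul (by positivity), Real.sqrt_sq (by norm_num)]
  ring

lemma speed_zero_Psi (e k : ℝ) (X : V3) (M : Matrix (Fin 3) (Fin 3) ℝ) :
    speed 0 (grad (Psi e k) X) M
      = Real.sqrt ((ux e (pt X) - k * hx e (pt X))^2 + (uy e (pt X) - k * hy e (pt X))^2 + 3) / 2 := by
  unfold speed
  rw [grad_Psi, nrm_of]
  simp

lemma speed_Phi (e k : ℝ) (X : V3) (hpos : 0 < NN e (pt X) - k * TT e (pt X)) :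
    speed (k / (2 * Real.pi)) (grad (Phi e) X) (hess (Phi e) X)
      = (NN e (pt X) - k * TT e (pt X)) / 2 := by
  have hN := NN_pos e (pt X)
  have hN2 := NN_sq e (pt X)
  have hpi := Real.pi_pos
  have h3 : Real.sqrt 3 * Real.sqrt 3 = 3 := Real.mul_self_sqrt (by norm_num)
  have hnrm : nrm (grad (Phi e) X) = NN e (pt X) / 2 := by
    rw [grad_Phi, nrm_of]; rfl
  have hdot : dot (grad (Phi e) X) (grad (Phi e) X) = NN e (pt X)^2 / 4 := by
    rw [grad_Phi, hN2]
    simp [dot, Fin.sum_univ_three]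
    nlinarith
  have htr : (hess (Phi e) X).trace = Real.pi * (uxx e (pt X) + uyy e (pt X)) := by
    rw [hess_Phi]
    simp [Matrix.trace, Fin.sum_univ_three]
    ring
  have hq : dot ((hess (Phi e) X).mulVec (grad (Phi e) X)) (grad (Phi e) X)
      = Real.pi / 4 * (ux e (pt X) ^2 * uxx e (pt X) + 2 * ux e (pt X) * uy e (pt X) * uxy e (pt X)
    + uy e (pt X) ^2 * uyy e (pt X)) := by
    rw [hess_Phi, grad_Phi]
    simp [dot, Matrix.mulVec, dotProduct, Fin.sum_univ_three]
    ring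
  have hcurv : curv (grad (Phi e) X) (hess (Phi e) X) = 2 * Real.pi * TT e (pt X) / NN e (pt X) := by
    unfold curv TT
    rw [hnrm, hdot, htr, hq]
    field_simp
  unfold speed
  rw [hcurv, hnrm]
  have h1 : 1 - k / (2 * Real.pi) * (2 * Real.pi * TT e (pt X) / NN e (pt X))
      = (NN e (pt X) - k * TT e (pt X)) / NN e (pt X) := by
    field_simp
  rw [h1, max_eq_left (by positivity)]
  field_simp

end

end Pool.Agent.T2H73.Geq
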