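import Mathlib

set_option autoImplicit false

open MeasureTheory Set

namespace Pool.Agent.T2H73.Geh

/-- real inequality for the good part -/
lemma ineq1 {D m t p ε : ℝ} (hm : 0 < m) (hmt : m ≤ t) (htD : t ≤ D * m) (hp : 0 < p)
    (hε : 0 < ε) :
    t ^ p * (t ^ ε - m ^ ε) ≤ D ^ p * (ε / (p + ε)) * (t ^ (p + ε) - m ^ (p + ε)) := by
  have ht : 0 < t := hm.trans_le hmt
  have hD : 0 < D := by
    by_contra h
    push Not at h
    nlinarith
  have h1 : t ^ p ≤ D ^ p * m ^ p := by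
    rw [← Real.mul_rpow hD.le hm.le]
    exact Real.rpow_le_rpow ht.le htD hp.le
  have h2 : m ^ ε ≤ t ^ ε := Real.rpow_le_rpow hm.le hmt hε.le
  -- Bernoulli
  set r := (p + ε) / ε with hr
  have hr1 : 1 ≤ r := by
    rw [hr, le_div_iff₀ hε]; linarith
  set v := (t / m) ^ ε with hv
  have hv1 : 0 < v := Real.rpow_pos_of_pos (div_pos ht hm) _
  have hB := one_add_mul_self_le_rpow_one_add (s := v - 1) (by linarith) hr1
  have hvr : (1 + (v - 1)) ^ r = (t / m) ^ (p + ε) := by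
    rw [add_sub_cancel, hv, ← Real.rpow_mul (div_pos ht hm).le, hr, mul_div_cancel₀ _ hε.ne']
  rw [hvr] at hB
  have h3 : m ^ p * (t ^ ε - m ^ ε) ≤ (ε / (p + ε)) * (t ^ (p + ε) - m ^ (p + ε)) := by
    have e1 : t ^ ε = m ^ ε * v := by
      rw [hv, ← Real.mul_rpow hm.le (div_pos ht hm).le, mul_div_cancel₀ _ hm.ne']
    have e2 : t ^ (p + ε) = m ^ (p + ε) * (t / m) ^ (p + ε) := by
      rw [← Real.mul_rpow hm.le (div_pos ht hm).le, mul_div_cancel₀ _ hm.ne']
    have e3 : m ^ (p + ε) = m ^ p * m ^ ε := Real.rpow_add hm _ _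
    rw [e1, e2]
    have h4 : m ^ p * (m ^ ε * v - m ^ ε) = m ^ (p + ε) * (v - 1) := by
      rw [e3]; ring
    rw [h4]
    have h5 : v - 1 ≤ (ε / (p + ε)) * ((t / m) ^ (p + ε) - 1) := by
      have : r * (v - 1) ≤ (t / m) ^ (p + ε) - 1 := by linarith
      have h6 : (ε / (p + ε)) * (r * (v - 1)) ≤ (ε / (p + ε)) * ((t / m) ^ (p + ε) - 1) :=
        mul_le_mul_of_nonneg_left this (by positivity)
      have h7 : (ε / (p + ε)) * (r * (v - 1)) = v - 1 := by
        rw [hr]; field_simp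
      linarith
    have h8 : 0 < m ^ (p + ε) := Real.rpow_pos_of_pos hm _
    calc m ^ (p + ε) * (v - 1) ≤ m ^ (p + ε) * ((ε / (p + ε)) * ((t / m) ^ (p + ε) - 1)) :=
          mul_le_mul_of_nonneg_left h5 h8.le
      _ = _ := by ring
  calc t ^ p * (t ^ ε - m ^ ε) ≤ D ^ p * m ^ p * (t ^ ε - m ^ ε) :=
        mul_le_mul_of_nonneg_right h1 (by linarith)
    _ = D ^ p * (m ^ p * (t ^ ε - m ^ ε)) := by ring
    _ ≤ D ^ p * ((ε / (p + ε)) * (t ^ (p + ε) - m ^ (p + ε))) :=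
        mul_le_mul_of_nonneg_left h3 (Real.rpow_nonneg hD.le _)
    _ = _ := by ring

/-- Doob step -/
lemma ineq2 {m t q : ℝ} (hm : 0 < m) (ht : 0 < t) (hq : 1 < q) :
    t ^ q - m ^ q ≤ (q / (q - 1)) * t * (t ^ (q - 1) - m ^ (q - 1)) := by
  have hq0 : 0 < q := by linarith
  have hq1 : 0 < q - 1 := by linarith
  have hconj : q.HolderConjugate (q / (q - 1)) := Real.HolderConjugate.conjExponent hq
  have hY := Real.young_inequality_of_nonneg ht.le
    (Real.rpow_nonneg hm.le (q - 1)) hconj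
  have e1 : (m ^ (q - 1)) ^ (q / (q - 1)) = m ^ q := by
    rw [← Real.rpow_mul hm.le]; congr 1; field_simp
  rw [e1] at hY
  have e2 : t ^ q = t * t ^ (q - 1) := by
    rw [← Real.rpow_one_add' ht.le (by linarith)]; congr 1; ring
  have e3 : m ^ q / (q / (q - 1)) = m ^ q * (q - 1) / q := by field_simp
  rw [e3] at hY
  have h1 : q * (t * m ^ (q - 1)) ≤ t ^ q + (q - 1) * m ^ q := by
    have := mul_le_mul_of_nonneg_left hY hq0.le
    have e4 : q * (t ^ q / q + m ^ q * (q - 1) / q) = t ^ q + (q - 1) * m ^ q := by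
      field_simp
    linarith
  have h2 : (q / (q - 1)) * t * (t ^ (q - 1) - m ^ (q - 1))
      = (q * t ^ q - q * (t * m ^ (q - 1))) / (q - 1) := by
    rw [e2]; field_simp
  rw [h2, le_div_iff₀ hq1]
  nlinarith

/-- Young pointwise -/
lemma ineq3 {p ε M w C : ℝ} (hp : 1 < p) (hM : 0 < M) (hw : 0 ≤ w) (hC : 0 ≤ C) :
    C * (w * M ^ (p + ε - 1)) ≤ C ^ p / p * (w ^ p * M ^ ε) + (p - 1) / p * M ^ (p + ε) := by
  have hp0 : 0 < p := by linarith
  have hp1 : 0 < p - 1 := by linarith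
  have hconj : p.HolderConjugate (p / (p - 1)) := Real.HolderConjugate.conjExponent hp
  have hY := Real.young_inequality_of_nonneg (a := C * w * M ^ (ε / p))
    (b := M ^ ((p + ε) * (p - 1) / p)) (by positivity) (by positivity) hconj
  have e1 : (C * w * M ^ (ε / p)) ^ p = C ^ p * w ^ p * M ^ ε := by
    rw [Real.mul_rpow (by positivity) (by positivity), Real.mul_rpow hC hw,
      ← Real.rpow_mul hM.le]
    congr 2; field_simp
  have e2 : (M ^ ((p + ε) * (p - 1) / p)) ^ (p / (p - 1)) = M ^ (p + ε) := by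
    rw [← Real.rpow_mul hM.le]; congr 1; field_simp
  have e3 : C * w * M ^ (ε / p) * M ^ ((p + ε) * (p - 1) / p) = C * (w * M ^ (p + ε - 1)) := by
    have e4 : ε / p + (p + ε) * (p - 1) / p = p + ε - 1 := by field_simp; ring
    rw [mul_assoc, ← Real.rpow_add hM, e4, mul_assoc]
  rw [e1, e2, e3] at hY
  refine hY.trans (le_of_eq ?_)
  field_simp

end Pool.Agent.T2H73.Geh
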