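import Mathlib
import Pool.Agent.T2H73.Geh1

set_option autoImplicit false

open MeasureTheory Set Filter Topology

namespace Pool.Agent.T2H73.Geh

variable {d : ℕ}

/-- half-open cube -/
def hc (c : Fin d → ℝ) (s : ℝ) : Set (Fin d → ℝ) := Set.pi univ (fun i => Ico (c i) (c i + s))

lemma measurableSet_hc (c : Fin d → ℝ) (s : ℝ) : MeasurableSet (hc c s) :=
  MeasurableSet.univ_pi fun _ => measurableSet_Ico

lemma volume_hc (c : Fin d → ℝ) (s : ℝ) : volume (hc c s) = ENNReal.ofReal s ^ d := by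
  rw [hc, Real.volume_pi_Ico]
  simp

lemma volume_hc_lt_top (c : Fin d → ℝ) (s : ℝ) : volume (hc c s) < ⊤ := by
  rw [volume_hc]; exact ENNReal.pow_lt_top ENNReal.ofReal_lt_top

lemma measureReal_hc (c : Fin d → ℝ) {s : ℝ} (hs : 0 ≤ s) : volume.real (hc c s) = s ^ d := by
  rw [Measure.real, volume_hc, ENNReal.toReal_pow, ENNReal.toReal_ofReal hs]

/-- child corner -/
noncomputable def ch (c : Fin d → ℝ) (s : ℝ) (σ : Fin d → Bool) : Fin d → ℝ :=
  fun i => c i + if σ i then s / 2 else 0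

lemma hc_child_subset {c : Fin d → ℝ} {s : ℝ} (hs : 0 < s) (σ : Fin d → Bool) :
    hc (ch c s σ) (s / 2) ⊆ hc c s := by
  intro x hx i _
  have h := hx i (mem_univ _)
  simp only [ch, mem_Ico] at h ⊢
  split_ifs at h <;> constructor <;> linarith [h.1, h.2]

lemma exists_child {c : Fin d → ℝ} {s : ℝ} {x : Fin d → ℝ} (hx : x ∈ hc c s) :
    ∃ σ, x ∈ hc (ch c s σ) (s / 2) := by
  classical
  refine ⟨fun i => decide (c i + s / 2 ≤ x i), fun i _ => ?_⟩
  have h := hx i (mem_univ _)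
  simp only [ch, mem_Ico, decide_eq_true_eq] at h ⊢
  by_cases hi : c i + s / 2 ≤ x i
  · rw [if_pos hi]
    constructor <;> linarith [h.1, h.2]
  · rw [if_neg hi]
    push Not at hi
    constructor <;> linarith [h.1, h.2]

lemma child_unique {c : Fin d → ℝ} {s : ℝ} {x : Fin d → ℝ} {σ τ : Fin d → Bool}
    (h1 : x ∈ hc (ch c s σ) (s / 2)) (h2 : x ∈ hc (ch c s τ) (s / 2)) : σ = τ := by
  funext i
  have a := h1 i (mem_univ _)
  have b := h2 i (mem_univ _)
  simp only [ch, mem_Ico] at a b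
  cases hσ : σ i <;> cases hτ : τ i <;> simp only [hσ, hτ, if_true, Bool.false_eq_true,
    if_false] at a b ⊢ <;> exfalso <;> linarith [a.1, a.2, b.1, b.2]

lemma hc_eq_iUnion {c : Fin d → ℝ} {s : ℝ} (hs : 0 < s) :
    hc c s = ⋃ σ : Fin d → Bool, hc (ch c s σ) (s / 2) := by
  ext x
  simp only [mem_iUnion]
  exact ⟨exists_child, fun ⟨σ, h⟩ => hc_child_subset hs σ h⟩

lemma integral_hc_sum {c : Fin d → ℝ} {s : ℝ} (hs : 0 < s) {f : (Fin d → ℝ) → ℝ}
    (hf : IntegrableOn f (hc c s)) :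
    ∫ x in hc c s, f x = ∑ σ : Fin d → Bool, ∫ x in hc (ch c s σ) (s / 2), f x := by
  rw [hc_eq_iUnion hs, integral_iUnion_fintype]
  · exact fun σ => measurableSet_hc _ _
  · intro σ τ hστ
    rw [Function.onFun, Set.disjoint_left]
    intro x h1 h2
    exact hστ (child_unique h1 h2)
  · exact fun σ => hf.mono_set (hc_child_subset hs σ)

/-- average -/
noncomputable def av (w : (Fin d → ℝ) → ℝ) (c : Fin d → ℝ) (s : ℝ) : ℝ :=
  (∫ x in hc c s, w x) / s ^ d

/-- dyadic maximal function of finite depth -/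
noncomputable def Mx (w : (Fin d → ℝ) → ℝ) : ℕ → ℝ → (Fin d → ℝ) → ℝ → (Fin d → ℝ) → ℝ
  | 0, m, _, _, _ => m
  | N + 1, m, c, s, x => ∑ σ : Fin d → Bool, (hc (ch c s σ) (s / 2)).indicator
      (Mx w N (max m (av w (ch c s σ) (s / 2))) (ch c s σ) (s / 2)) x

lemma Mx_on (w : (Fin d → ℝ) → ℝ) (N : ℕ) (m : ℝ) (c : Fin d → ℝ) (s : ℝ) {x : Fin d → ℝ}
    {σ : Fin d → Bool} (hx : x ∈ hc (ch c s σ) (s / 2)) :
    Mx w (N + 1) m c s x = Mx w N (max m (av w (ch c s σ) (s / 2))) (ch c s σ) (s / 2) x := by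
  rw [Mx, Finset.sum_eq_single σ]
  · rw [indicator_of_mem hx]
  · intro τ _ hτ
    rw [indicator_of_notMem]
    intro h
    exact hτ (child_unique h hx)
  · intro h; exact absurd (Finset.mem_univ _) h

lemma measurable_Mx (w : (Fin d → ℝ) → ℝ) (N : ℕ) (m : ℝ) (c : Fin d → ℝ) (s : ℝ) :
    Measurable (Mx w N m c s) := by
  induction N generalizing m c s with
  | zero => exact measurable_const
  | succ N ih =>
    have : Mx w (N + 1) m c s = fun x => ∑ σ : Fin d → Bool, (hc (ch c s σ) (s / 2)).indicator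
      (Mx w N (max m (av w (ch c s σ) (s / 2))) (ch c s σ) (s / 2)) x := by
      funext x; rw [Mx]
    rw [this]
    refine Finset.measurable_sum _ fun σ _ => ?_
    exact (ih _ _ _).indicator (measurableSet_hc _ _)

lemma av_child_le {w : (Fin d → ℝ) → ℝ} (hw : ∀ x, 0 ≤ w x) {c : Fin d → ℝ} {s : ℝ}
    (hs : 0 < s) (hI : IntegrableOn w (hc c s)) (σ : Fin d → Bool) :
    av w (ch c s σ) (s / 2) ≤ 2 ^ d * av w c s := by
  have h1 : ∫ x in hc (ch c s σ) (s / 2), w x ≤ ∫ x in hc c s, w x :=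
    setIntegral_mono_set hI (Eventually.of_forall hw) (hc_child_subset hs σ).eventuallyLE
  have h2 : 2 ^ d * av w c s = (∫ x in hc c s, w x) / (s / 2) ^ d := by
    rw [av, div_pow]; field_simp
  rw [h2, av]
  exact div_le_div_of_nonneg_right h1 (by positivity)

lemma Mx_bounds {w : (Fin d → ℝ) → ℝ} (hw : ∀ x, 0 ≤ w x) (N : ℕ) {m : ℝ} {c : Fin d → ℝ}
    {s : ℝ} (hs : 0 < s) (hm : 0 < m) (hI : IntegrableOn w (hc c s)) (hav : av w c s ≤ m)
    {x : Fin d → ℝ} (hx : x ∈ hc c s) :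
    m ≤ Mx w N m c s x ∧ Mx w N m c s x ≤ (2 ^ d) ^ N * m := by
  induction N generalizing m c s with
  | zero => simp [Mx]
  | succ N ih =>
    obtain ⟨σ, hσ⟩ := exists_child hx
    rw [Mx_on w N m c s hσ]
    have h1 : av w (ch c s σ) (s / 2) ≤ 2 ^ d * m :=
      (av_child_le hw hs hI σ).trans (mul_le_mul_of_nonneg_left hav (by positivity))
    have h2 : max m (av w (ch c s σ) (s / 2)) ≤ 2 ^ d * m := by
      refine max_le ?_ h1
      have : (1 : ℝ) ≤ 2 ^ d := one_le_pow₀ (by norm_num)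
      nlinarith
    have h3 := ih (m := max m (av w (ch c s σ) (s / 2))) (half_pos hs)
      (lt_max_of_lt_left hm) (hI.mono_set (hc_child_subset hs σ)) (le_max_right _ _) hσ
    refine ⟨(le_max_left _ _).trans h3.1, h3.2.trans ?_⟩
    rw [pow_succ, mul_assoc]
    exact mul_le_mul_of_nonneg_left h2 (by positivity)

lemma integrable_comp {w : (Fin d → ℝ) → ℝ} (hw : ∀ x, 0 ≤ w x) (N : ℕ) {m : ℝ}
    {c : Fin d → ℝ} {s : ℝ} (hs : 0 < s) (hm : 0 < m) (hI : IntegrableOn w (hc c s))
    (hav : av w c s ≤ m) {h : (Fin d → ℝ) → ℝ} (hh : IntegrableOn h (hc c s)) {φ : ℝ → ℝ}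
    (hφ : Continuous φ) : IntegrableOn (fun x => h x * φ (Mx w N m c s x)) (hc c s) := by
  obtain ⟨B, hB⟩ := (isCompact_Icc (a := m) (b := (2 ^ d) ^ N * m)).exists_bound_of_continuousOn
    hφ.continuousOn
  have h1 : ∀ᵐ x ∂(volume.restrict (hc c s)), ‖φ (Mx w N m c s x)‖ ≤ B := by
    filter_upwards [ae_restrict_mem (measurableSet_hc c s)] with x hx
    exact hB _ (Mx_bounds hw N hs hm hI hav hx)
  have h2 : AEStronglyMeasurable (fun x => φ (Mx w N m c s x)) (volume.restrict (hc c s)) :=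
    (hφ.measurable.comp (measurable_Mx w N m c s)).aestronglyMeasurable
  have h3 := Integrable.bdd_mul hh h2 h1
  refine h3.congr (Eventually.of_forall fun x => ?_)
  simp only
  ring

lemma potential {w : (Fin d → ℝ) → ℝ} (hw : ∀ x, 0 ≤ w x)
    (hI : ∀ c s, 0 < s → IntegrableOn w (hc c s)) {h : (Fin d → ℝ) → ℝ}
    (hh : ∀ c s, 0 < s → IntegrableOn h (hc c s)) {φ ψ : ℝ → ℝ} (hφ : Continuous φ)
    (hψ : Continuous ψ)
    (step : ∀ c s m, 0 < s → 0 < m → m ≤ av w c s → av w c s ≤ 2 ^ d * m →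
      av h c s * φ (av w c s) + ψ (av w c s) ≤ av h c s * φ m + ψ m)
    (N : ℕ) {m : ℝ} {c : Fin d → ℝ} {s : ℝ} (hs : 0 < s) (hm : 0 < m) (hav : av w c s ≤ m) :
    ∫ x in hc c s, (h x * φ (Mx w N m c s x) + ψ (Mx w N m c s x))
      ≤ (∫ x in hc c s, h x) * φ m + ψ m * s ^ d := by
  induction N generalizing m c s with
  | zero =>
    simp only [Mx]
    rw [integral_add ((hh c s hs).mul_const _)
      (integrableOn_const (hs := (volume_hc_lt_top c s).ne)), integral_mul_const,
      setIntegral_const, measureReal_hc c hs.le, smul_eq_mul, mul_comm (s ^ d)]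
  | succ N ih =>
    have hint : IntegrableOn (fun x => h x * φ (Mx w (N + 1) m c s x)
        + ψ (Mx w (N + 1) m c s x)) (hc c s) := by
      refine (integrable_comp hw (N + 1) hs hm (hI c s hs) hav (hh c s hs) hφ).add ?_
      have := integrable_comp hw (N + 1) hs hm (hI c s hs) hav
        (h := fun _ => 1) (integrableOn_const (hs := (volume_hc_lt_top c s).ne)) hψ
      simpa using this
    rw [integral_hc_sum hs hint]
    have key : ∀ σ : Fin d → Bool,
        ∫ x in hc (ch c s σ) (s / 2), (h x * φ (Mx w (N + 1) m c s x)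
          + ψ (Mx w (N + 1) m c s x))
        ≤ (∫ x in hc (ch c s σ) (s / 2), h x) * φ m + ψ m * (s / 2) ^ d := by
      intro σ
      set a := av w (ch c s σ) (s / 2) with ha
      have e1 : ∫ x in hc (ch c s σ) (s / 2), (h x * φ (Mx w (N + 1) m c s x)
          + ψ (Mx w (N + 1) m c s x))
          = ∫ x in hc (ch c s σ) (s / 2), (h x * φ (Mx w N (max m a) (ch c s σ) (s / 2) x)
          + ψ (Mx w N (max m a) (ch c s σ) (s / 2) x)) := by
        refine setIntegral_congr_fun (measurableSet_hc _ _) fun x hx => ?_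
        simp only [Mx_on w N m c s hx, ← ha]
      rw [e1]
      have h1 := ih (m := max m a) (c := ch c s σ) (half_pos hs) (lt_max_of_lt_left hm)
        (le_max_right _ _)
      refine h1.trans ?_
      rcases le_total a m with h2 | h2
      · rw [max_eq_left h2]
      · rw [max_eq_right h2]
        have h3 : a ≤ 2 ^ d * m :=
          (av_child_le hw hs (hI c s hs) σ).trans (mul_le_mul_of_nonneg_left hav (by positivity))
        have h4 := step (ch c s σ) (s / 2) m (half_pos hs) hm h2 h3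
        have h5 : av h (ch c s σ) (s / 2) * (s / 2) ^ d
            = ∫ x in hc (ch c s σ) (s / 2), h x := by
          rw [av]; field_simp
        rw [← ha] at h4
        have h6 := mul_le_mul_of_nonneg_right h4 (show 0 ≤ (s / 2) ^ d by positivity)
        rw [← h5]
        nlinarith
    refine (Finset.sum_le_sum fun σ _ => key σ).trans (le_of_eq ?_)
    rw [Finset.sum_add_distrib, ← Finset.sum_mul, ← integral_hc_sum hs (hh c s hs)]
    simp only [Finset.sum_const, Finset.card_univ, Fintype.card_fun, Fintype.card_bool,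
      Fintype.card_fin, nsmul_eq_mul, div_pow]
    push_cast
    field_simp

end Pool.Agent.T2H73.Geh
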