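import Mathlib
import Pool.Agent.T2H73.Geh2

set_option autoImplicit false

open MeasureTheory Set Filter Topology

namespace Pool.Agent.T2H73.Geh

variable {d : ℕ}

/-- The uniform (in the depth) estimate. -/
lemma unif_bound {w : (Fin d → ℝ) → ℝ} (hw : ∀ x, 0 ≤ w x)
    (hI : ∀ c s, 0 < s → IntegrableOn w (hc c s)) {p ε A : ℝ} (hp : 1 < p) (hε : 0 < ε)
    (hA : 0 < A) (hIp : ∀ c s, 0 < s → IntegrableOn (fun x => w x ^ p) (hc c s))
    (hRH : ∀ c s, 0 < s → av (fun x => w x ^ p) c s ≤ A * av w c s ^ p)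
    (hsmall : ε * (A * (2 ^ d) ^ p * (p / (p - 1)) ^ p) ≤ p / 2)
    {c : Fin d → ℝ} {s : ℝ} (hs : 0 < s) (ha : 0 < av w c s) (N : ℕ) :
    ∫ x in hc c s, w x ^ p * Mx w N (av w c s) c s x ^ ε
      ≤ 2 * A * av w c s ^ (p + ε) * s ^ d := by
  obtain ⟨a, hadef⟩ : ∃ a, a = av w c s := ⟨_, rfl⟩
  rw [← hadef] at ha ⊢
  obtain ⟨D, hD⟩ : ∃ D : ℝ, D = 2 ^ d := ⟨_, rfl⟩
  rw [← hD] at hsmall
  have hD0 : 0 < D := by rw [hD]; positivity
  obtain ⟨q, hq⟩ : ∃ q, q = p + ε := ⟨_, rfl⟩
  rw [← hq]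
  have hp0 : 0 < p := by linarith
  have hq1 : 1 < q := by linarith
  have hq10 : 0 < q - 1 := by linarith
  have hq0 : 0 < q := by linarith
  obtain ⟨K, hK⟩ : ∃ K, K = A * (D ^ p * (ε / q)) := ⟨_, rfl⟩
  have hK0 : 0 ≤ K := by rw [hK]; positivity
  obtain ⟨C, hC⟩ : ∃ C, C = q / (q - 1) := ⟨_, rfl⟩
  have hC0 : 0 < C := by rw [hC]; positivity
  have hsd : 0 < s ^ d := by positivity
  -- first potential
  have P1 := potential hw hI (h := fun x => w x ^ p) hIp (φ := fun m => m ^ ε)
    (ψ := fun m => -(K * m ^ q)) (Real.continuous_rpow_const hε.le)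
    ((continuous_const.mul (Real.continuous_rpow_const hq0.le)).neg)
    (by
      intro c s m hs hm hmt htD
      have h0 := hRH c s hs
      revert h0 hmt htD
      generalize av w c s = t
      generalize av (fun x => w x ^ p) c s = u
      intro hmt htD h0
      rw [← hD] at htD
      have h1 := ineq1 hm hmt htD hp0 hε
      have h2 : 0 ≤ t ^ ε - m ^ ε := by
        have := Real.rpow_le_rpow hm.le hmt hε.le
        linarith
      have h3 := mul_le_mul_of_nonneg_right h0 h2
      have h4 := mul_le_mul_of_nonneg_left h1 hA.le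
      have h5 : A * (D ^ p * (ε / (p + ε)) * (t ^ (p + ε) - m ^ (p + ε)))
        = K * t ^ q - K * m ^ q := by rw [hK, hq]; ring
      rw [h5] at h4
      have h6 : u * (t ^ ε - m ^ ε) = u * t ^ ε - u * m ^ ε := by ring
      have h7 : A * t ^ p * (t ^ ε - m ^ ε) = A * (t ^ p * (t ^ ε - m ^ ε)) := by ring
      rw [h6, h7] at h3
      linarith)
    N hs (m := a) (c := c) (s := s) ha hadef.symm.le
  -- second potential
  have P2 := potential hw hI (h := w) hI (φ := fun m => -(C * m ^ (q - 1)))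
    (ψ := fun m => m ^ q) ((continuous_const.mul (Real.continuous_rpow_const hq10.le)).neg)
    (Real.continuous_rpow_const hq0.le)
    (by
      intro c s m hs hm hmt _
      revert hmt
      generalize av w c s = t
      intro hmt
      have h1 := ineq2 hm (hm.trans_le hmt) hq1
      rw [← hC] at h1
      have h6 : C * t * (t ^ (q - 1) - m ^ (q - 1))
        = - (t * -(C * t ^ (q - 1))) + t * -(C * m ^ (q - 1)) := by ring
      rw [h6] at h1
      linarith)
    N hs (m := a) (c := c) (s := s) ha hadef.symm.le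
  have iX : IntegrableOn (fun x => w x ^ p * Mx w N a c s x ^ ε) (hc c s) :=
    integrable_comp hw N hs ha (hI c s hs) hadef.symm.le (hIp c s hs)
      (φ := fun m => m ^ ε) (Real.continuous_rpow_const hε.le)
  have iZ : IntegrableOn (fun x => w x * Mx w N a c s x ^ (q - 1)) (hc c s) :=
    integrable_comp hw N hs ha (hI c s hs) hadef.symm.le (hI c s hs)
      (φ := fun m => m ^ (q - 1)) (Real.continuous_rpow_const hq10.le)
  have iY : IntegrableOn (fun x => Mx w N a c s x ^ q) (hc c s) := by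
    have := integrable_comp hw N hs ha (hI c s hs) hadef.symm.le
      (h := fun _ => 1) (integrableOn_const (hs := (volume_hc_lt_top c s).ne))
      (φ := fun m => m ^ q) (Real.continuous_rpow_const hq0.le)
    simpa using this
  obtain ⟨X, hX⟩ : ∃ X, X = ∫ x in hc c s, w x ^ p * Mx w N a c s x ^ ε := ⟨_, rfl⟩
  obtain ⟨Y, hY⟩ : ∃ Y, Y = ∫ x in hc c s, Mx w N a c s x ^ q := ⟨_, rfl⟩
  obtain ⟨Z, hZ⟩ : ∃ Z, Z = ∫ x in hc c s, w x * Mx w N a c s x ^ (q - 1) := ⟨_, rfl⟩
  rw [← hX]
  have e1 : ∫ x in hc c s, (w x ^ p * Mx w N a c s x ^ ε + -(K * Mx w N a c s x ^ q))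
      = X - K * Y := by
    have : (fun x => w x ^ p * Mx w N a c s x ^ ε + -(K * Mx w N a c s x ^ q))
        = fun x => w x ^ p * Mx w N a c s x ^ ε - K * Mx w N a c s x ^ q := by
      funext x; ring
    rw [this, integral_sub iX (iY.const_mul K), integral_const_mul, hX, hY]
  have e2 : ∫ x in hc c s, (w x * -(C * Mx w N a c s x ^ (q - 1)) + Mx w N a c s x ^ q)
      = -(C * Z) + Y := by
    have : (fun x => w x * -(C * Mx w N a c s x ^ (q - 1)) + Mx w N a c s x ^ q)
        = fun x => Mx w N a c s x ^ q - C * (w x * Mx w N a c s x ^ (q - 1)) := by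
      funext x; ring
    rw [this, integral_sub iY (iZ.const_mul C), integral_const_mul, hY, hZ]
    ring
  rw [e1] at P1
  rw [e2] at P2
  have haw : ∫ x in hc c s, w x = a * s ^ d := by
    rw [hadef, av]; field_simp
  have hawp : ∫ x in hc c s, w x ^ p = av (fun x => w x ^ p) c s * s ^ d := by
    rw [av]; field_simp
  have haq : a ^ q = a * a ^ (q - 1) := by
    rw [← Real.rpow_one_add' ha.le (by linarith)]; congr 1; ring
  rw [haw] at P2
  have hC1 : 1 ≤ C := by rw [hC, le_div_iff₀ hq10]; linarith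
  have P2' : Y ≤ C * Z := by
    have h1 : a * s ^ d * -(C * a ^ (q - 1)) + a ^ q * s ^ d = a ^ q * s ^ d * (1 - C) := by
      rw [haq]; ring
    have h2 : a ^ q * s ^ d * (1 - C) ≤ 0 :=
      mul_nonpos_of_nonneg_of_nonpos (by positivity) (by linarith)
    linarith
  -- Young
  have P3 : C * Z ≤ C ^ p / p * X + (p - 1) / p * Y := by
    rw [hZ, hX, hY, ← integral_const_mul, ← integral_const_mul, ← integral_const_mul,
      ← integral_add (iX.const_mul _) (iY.const_mul _)]
    refine setIntegral_mono_on (iZ.const_mul C) ((iX.const_mul _).add (iY.const_mul _))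
      (measurableSet_hc c s) fun x hx => ?_
    have hM : 0 < Mx w N a c s x :=
      ha.trans_le (Mx_bounds hw N hs ha (hI c s hs) hadef.symm.le hx).1
    have := ineq3 (ε := ε) hp hM (hw x) hC0.le
    rw [← hq] at this
    exact this
  have P4 : Y ≤ C ^ p * X := by
    have h1 : Y ≤ C ^ p / p * X + (p - 1) / p * Y := P2'.trans P3
    have h2 : Y = 1 / p * Y + (p - 1) / p * Y := by field_simp; ring
    have h3 : 1 / p * Y ≤ C ^ p / p * X := by linarith
    have h4 := mul_le_mul_of_nonneg_left h3 hp0.le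
    have h5 : p * (1 / p * Y) = Y := by field_simp
    have h6 : p * (C ^ p / p * X) = C ^ p * X := by field_simp
    rw [h5, h6] at h4
    exact h4
  have hX0 : 0 ≤ X := by
    rw [hX]
    refine setIntegral_nonneg (measurableSet_hc c s) fun x hx => ?_
    have hM : 0 < Mx w N a c s x :=
      ha.trans_le (Mx_bounds hw N hs ha (hI c s hs) hadef.symm.le hx).1
    have := hw x
    positivity
  have hKC : K * C ^ p ≤ 1 / 2 := by
    have h1 : C ≤ p / (p - 1) := by
      rw [hC, div_le_div_iff₀ hq10 (by linarith)]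
      nlinarith
    have h2 : C ^ p ≤ (p / (p - 1)) ^ p := Real.rpow_le_rpow hC0.le h1 hp0.le
    have h3 : K ≤ A * (D ^ p * (ε / p)) := by
      rw [hK]
      have : ε / q ≤ ε / p := div_le_div_of_nonneg_left hε.le hp0 (by linarith)
      have h4 : D ^ p * (ε / q) ≤ D ^ p * (ε / p) := mul_le_mul_of_nonneg_left this (by positivity)
      exact mul_le_mul_of_nonneg_left h4 hA.le
    calc K * C ^ p ≤ (A * (D ^ p * (ε / p))) * (p / (p - 1)) ^ p :=
          mul_le_mul h3 h2 (by positivity) (by positivity)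
      _ = (ε * (A * D ^ p * (p / (p - 1)) ^ p)) / p := by ring
      _ ≤ (p / 2) / p := div_le_div_of_nonneg_right hsmall hp0.le
      _ = 1 / 2 := by field_simp
  have hfin : X ≤ 2 * ((∫ x in hc c s, w x ^ p) * a ^ ε) := by
    have h1 : K * Y ≤ K * C ^ p * X := by
      rw [mul_assoc]; exact mul_le_mul_of_nonneg_left P4 hK0
    have h2 : K * C ^ p * X ≤ 1 / 2 * X := mul_le_mul_of_nonneg_right hKC hX0
    have h3 : 0 ≤ K * a ^ q * s ^ d := by positivity
    nlinarith
  refine hfin.trans ?_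
  rw [hawp]
  have h1 := hRH c s hs
  have h2 : a ^ q = a ^ p * a ^ ε := by rw [hq]; exact Real.rpow_add ha _ _
  rw [h2]
  have h3 : 0 ≤ a ^ ε * s ^ d := by positivity
  have h4 := mul_le_mul_of_nonneg_right h1 h3
  rw [← hadef] at h4
  nlinarith

lemma exists_cube {w : (Fin d → ℝ) → ℝ} (N : ℕ) {m : ℝ} {c : Fin d → ℝ}
    {s : ℝ} (hs : 0 < s) (hav : av w c s ≤ m)
    {x : Fin d → ℝ} (hx : x ∈ hc c s) :
    ∃ c', x ∈ hc c' (s / 2 ^ N) ∧ av w c' (s / 2 ^ N) ≤ Mx w N m c s x := by
  induction N generalizing m c s with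
  | zero => exact ⟨c, by simpa using hx, by simpa [Mx] using hav⟩
  | succ N ih =>
    obtain ⟨σ, hσ⟩ := exists_child hx
    rw [Mx_on w N m c s hσ]
    obtain ⟨c', h1, h2⟩ := ih (m := max m (av w (ch c s σ) (s / 2))) (half_pos hs)
      (le_max_right _ _) hσ
    have e : s / 2 / 2 ^ N = s / 2 ^ (N + 1) := by
      rw [pow_succ]; field_simp
    rw [e] at h1 h2
    exact ⟨c', h1, h2⟩

/-- closed cube -/
def cube (c : Fin d → ℝ) (s : ℝ) : Set (Fin d → ℝ) := Set.Icc c (fun i => c i + s)

lemma cube_ae (c : Fin d → ℝ) (s : ℝ) : hc c s =ᵐ[volume] cube c s :=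
  Measure.univ_pi_Ico_ae_eq_Icc

lemma cube_eq_ball (c : Fin d → ℝ) {s : ℝ} (hs : 0 < s) :
    cube c s = Metric.closedBall (fun i => c i + s / 2) (s / 2) := by
  rw [closedBall_pi _ (by linarith), cube, ← Set.pi_univ_Icc]
  congr 1
  funext i
  rw [Real.closedBall_eq_Icc]
  congr 1 <;> ring

lemma hc_subset_cube (c : Fin d → ℝ) (s : ℝ) : hc c s ⊆ cube c s := by
  intro x hx
  rw [cube, ← Set.pi_univ_Icc]
  intro i hi
  exact Ico_subset_Icc_self (hx i hi)

lemma av_eq_average (w : (Fin d → ℝ) → ℝ) (c : Fin d → ℝ) {s : ℝ} (hs : 0 < s) :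
    av w c s = ⨍ y in Metric.closedBall (fun i => c i + s / 2) (s / 2), w y := by
  rw [← cube_eq_ball c hs, setAverage_eq, measureReal_def, ← measure_congr (cube_ae c s),
    ← measureReal_def, measureReal_hc c hs.le,
    setIntegral_congr_set (cube_ae c s).symm, smul_eq_mul, av]
  field_simp

/-- limiting estimate -/
lemma limit_bound {w : (Fin d → ℝ) → ℝ} (hw : ∀ x, 0 ≤ w x) (hloc : LocallyIntegrable w volume)
    (hI : ∀ c s, 0 < s → IntegrableOn w (hc c s)) {p ε A : ℝ} (hp : 1 < p) (hε : 0 < ε)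
    (hA : 0 < A) (hIp : ∀ c s, 0 < s → IntegrableOn (fun x => w x ^ p) (hc c s))
    (hRH : ∀ c s, 0 < s → av (fun x => w x ^ p) c s ≤ A * av w c s ^ p)
    (hsmall : ε * (A * (2 ^ d) ^ p * (p / (p - 1)) ^ p) ≤ p / 2)
    {c : Fin d → ℝ} {s : ℝ} (hs : 0 < s) (ha : 0 < av w c s) :
    ∫⁻ x in hc c s, ENNReal.ofReal (w x ^ (p + ε))
      ≤ ENNReal.ofReal (2 * A * av w c s ^ (p + ε) * s ^ d) := by
  have hp0 : 0 < p := by linarith
  set a := av w c s with hadef
  have hae : ∀ᵐ x ∂(volume.restrict (hc c s)), ENNReal.ofReal (w x ^ (p + ε)) ≤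
      liminf (fun N => ENNReal.ofReal (w x ^ p * Mx w N a c s x ^ ε)) atTop := by
    have hL := ae_restrict_of_ae (s := hc c s)
      (IsUnifLocDoublingMeasure.ae_tendsto_average (μ := (volume : Measure (Fin d → ℝ))) hloc 1)
    filter_upwards [hL, ae_restrict_mem (measurableSet_hc c s)] with x hx hxm
    choose c' h1 h2 using fun N => exists_cube (w := w) N hs (le_refl (av w c s)) hxm
    have hpos : ∀ N : ℕ, 0 < s / 2 ^ N := fun N => by positivity
    have hδ : Tendsto (fun N : ℕ => s / 2 ^ N / 2) atTop (𝓝[>] 0) := by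
      rw [tendsto_nhdsWithin_iff]
      refine ⟨?_, Eventually.of_forall fun N => half_pos (hpos N)⟩
      have h3 : Tendsto (fun N : ℕ => s / 2 * (1 / 2 : ℝ) ^ N) atTop (𝓝 (s / 2 * 0)) :=
        (tendsto_pow_atTop_nhds_zero_of_lt_one (by norm_num) (by norm_num)).const_mul _
      rw [mul_zero] at h3
      refine h3.congr fun N => ?_
      rw [one_div, inv_pow]
      field_simp
    have h4 := hx (fun N : ℕ => fun i => c' N i + s / 2 ^ N / 2) (fun N : ℕ => s / 2 ^ N / 2) hδ
      (Eventually.of_forall fun N => by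
        rw [one_mul, ← cube_eq_ball (c' N) (hpos N)]
        exact hc_subset_cube _ _ (h1 N))
    have h5 : Tendsto (fun N => av w (c' N) (s / 2 ^ N)) atTop (𝓝 (w x)) := by
      refine h4.congr fun N => ?_
      rw [av_eq_average w (c' N) (hpos N)]
    have h6 : Tendsto (fun N => ENNReal.ofReal (w x ^ p * av w (c' N) (s / 2 ^ N) ^ ε)) atTop
        (𝓝 (ENNReal.ofReal (w x ^ (p + ε)))) := by
      rw [Real.rpow_add' (hw x) (by linarith)]
      refine (ENNReal.continuous_ofReal.tendsto _).comp ?_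
      exact (((Real.continuous_rpow_const hε.le).tendsto _).comp h5).const_mul _
    rw [← h6.liminf_eq]
    refine liminf_le_liminf (Eventually.of_forall fun N => ?_)
    refine ENNReal.ofReal_le_ofReal ?_
    have h7 : 0 ≤ av w (c' N) (s / 2 ^ N) :=
      div_nonneg (integral_nonneg fun x => hw x) (by positivity)
    exact mul_le_mul_of_nonneg_left (Real.rpow_le_rpow h7 (h2 N) hε.le)
      (Real.rpow_nonneg (hw x) _)
  have hmeas : ∀ N, AEMeasurable (fun x => ENNReal.ofReal (w x ^ p * Mx w N a c s x ^ ε))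
      (volume.restrict (hc c s)) := fun N =>
    (integrable_comp hw N hs ha (hI c s hs) le_rfl (hIp c s hs)
      (φ := fun m => m ^ ε) (Real.continuous_rpow_const hε.le)).aestronglyMeasurable.aemeasurable.ennreal_ofReal
  calc ∫⁻ x in hc c s, ENNReal.ofReal (w x ^ (p + ε))
      ≤ ∫⁻ x in hc c s, liminf (fun N => ENNReal.ofReal (w x ^ p * Mx w N a c s x ^ ε)) atTop :=
        lintegral_mono_ae hae
    _ ≤ liminf (fun N => ∫⁻ x in hc c s, ENNReal.ofReal (w x ^ p * Mx w N a c s x ^ ε)) atTop :=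
        lintegral_liminf_le' hmeas
    _ ≤ liminf (fun _ : ℕ => ENNReal.ofReal (2 * A * a ^ (p + ε) * s ^ d)) atTop := by
        refine liminf_le_liminf (Eventually.of_forall fun N => ?_)
        rw [← ofReal_integral_eq_lintegral_ofReal]
        · exact ENNReal.ofReal_le_ofReal (unif_bound hw hI hp hε hA hIp hRH hsmall hs ha N)
        · exact integrable_comp hw N hs ha (hI c s hs) le_rfl (hIp c s hs)
            (φ := fun m => m ^ ε) (Real.continuous_rpow_const hε.le)
        · filter_upwards [ae_restrict_mem (measurableSet_hc c s)] with x hx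
          have hM : 0 < Mx w N a c s x :=
            ha.trans_le (Mx_bounds hw N hs ha (hI c s hs) le_rfl hx).1
          have := hw x
          simp only [Pi.zero_apply]
          positivity
    _ = _ := by simp

end Pool.Agent.T2H73.Geh
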