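import Pool.Agent.T2H73.Lac5

set_option autoImplicit false

open MeasureTheory Filter Topology Set Metric

namespace Pool.Agent.T2H73.Lac

variable {n : ℕ → ℕ} {q : ℝ}

/-- Almost every point has partial sums `ε`-close to `ξ` after time `M`. -/
theorem ae_close (h : Gap n q) (ξ ε : ℝ) (hε : 0 < ε) (M : ℕ) :
    ∀ᵐ x : ℝ, ∃ p ≥ M, |S n p x - ξ| < ε := by
  have hq := h.one_lt
  have hpi := Real.pi_pos
  set A : Set ℝ := {x | ∃ p ≥ M, |S n p x - ξ| < ε} with hA
  set C : ℝ := q / (q - 1) with hC
  have hC0 : 0 < C := div_pos (by linarith) (by linarith)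
  set τ : ℝ := ε / (2 * C) with hτ
  have hτ0 : 0 < τ := by positivity
  set r : ℕ → ℝ := fun m => (2 * Real.pi + τ) / n m with hr
  have hn : ∀ m, (0:ℝ) < n m := fun m => by exact_mod_cast h.pos m
  have hr0 : ∀ m, 0 < r m := fun m => div_pos (by linarith) (hn m)
  have hrt : Tendsto r atTop (𝓝[>] 0) := by
    rw [tendsto_nhdsWithin_iff]
    refine ⟨?_, Eventually.of_forall hr0⟩
    refine Tendsto.div_atTop tendsto_const_nhds ?_
    exact tendsto_natCast_atTop_atTop.comp h.strictMono.tendsto_atTop
  have h1 := Besicovitch.ae_tendsto_measure_inter_div (volume : Measure ℝ) Aᶜ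
  have h2 : ∀ᵐ x ∂(volume.restrict Aᶜ), False := by
    filter_upwards [h1, ae_restrict_of_ae (ae_cross h ξ)] with x hx hcr
    have h3 := hx.comp hrt
    -- frequently the density is at most `2π / (2π + τ)`
    have hfr : ∃ᶠ m in atTop, (volume (Aᶜ ∩ closedBall x (r m)) / volume (closedBall x (r m))) ≤
        ENNReal.ofReal (2 * Real.pi / (2 * Real.pi + τ)) := by
      rw [frequently_atTop]
      intro M'
      obtain ⟨m, hm, hcm⟩ := hcr (max M M')
      refine ⟨m, (le_max_right _ _).trans hm, ?_⟩
      obtain ⟨y, hy, hy0⟩ := near_zero h m x ξ hcm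
      obtain ⟨p, hp, hpy⟩ : ∃ p, (p = m ∨ p = m + 1) ∧ S n p y = ξ := by
        rcases hy0 with e | e
        · exact ⟨m, Or.inl rfl, e⟩
        · exact ⟨m + 1, Or.inr rfl, e⟩
      have hpM : M ≤ p := by
        have := (le_max_left M M').trans hm
        rcases hp with rfl | rfl <;> omega
      have hsub1 : closedBall y (τ / n m) ⊆ A := by
        intro z hz
        refine ⟨p, hpM, ?_⟩
        rw [← hpy]
        refine (lip' h m p hp z y).trans_lt ?_
        rw [mem_closedBall, Real.dist_eq] at hz
        calc q / (q - 1) * n m * |z - y| ≤ q / (q - 1) * n m * (τ / n m) := by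
              gcongr
          _ = C * τ := by
              have := (hn m).ne'
              rw [← hC]; field_simp
          _ = ε / 2 := by rw [hτ]; field_simp
          _ < ε := by linarith
      have hsub2 : closedBall y (τ / n m) ⊆ closedBall x (r m) := by
        refine closedBall_subset_closedBall' ?_
        rw [Real.dist_eq]
        have : r m = τ / n m + 2 * Real.pi / n m := by
          show (2 * Real.pi + τ) / n m = _
          ring
        rw [this]
        linarith
      have hle : volume (Aᶜ ∩ closedBall x (r m)) ≤ ENNReal.ofReal (2 * r m - 2 * (τ / n m)) := by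
        have hs : Aᶜ ∩ closedBall x (r m) ⊆ closedBall x (r m) \ closedBall y (τ / n m) := by
          rintro z ⟨hz1, hz2⟩
          exact ⟨hz2, fun hz3 => hz1 (hsub1 hz3)⟩
        refine (measure_mono hs).trans ?_
        rw [measure_diff hsub2 measurableSet_closedBall.nullMeasurableSet (by
          rw [Real.volume_closedBall]; exact ENNReal.ofReal_ne_top), Real.volume_closedBall,
          Real.volume_closedBall, ← ENNReal.ofReal_sub]
        exact mul_nonneg zero_le_two (div_nonneg hτ0.le (hn m).le)
      rw [Real.volume_closedBall]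
      calc volume (Aᶜ ∩ closedBall x (r m)) / ENNReal.ofReal (2 * r m)
          ≤ ENNReal.ofReal (2 * r m - 2 * (τ / n m)) / ENNReal.ofReal (2 * r m) := by gcongr
        _ = ENNReal.ofReal ((2 * r m - 2 * (τ / n m)) / (2 * r m)) := by
            rw [ENNReal.ofReal_div_of_pos]
            have := hr0 m
            linarith
        _ = _ := by
            congr 1
            have h4 := (hn m).ne'
            have h5 : (2 * Real.pi + τ) ≠ 0 := by positivity
            show (2 * ((2 * Real.pi + τ) / n m) - 2 * (τ / n m)) / (2 * ((2 * Real.pi + τ) / n m)) = _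
            field_simp
            ring
    have hlt : ENNReal.ofReal (2 * Real.pi / (2 * Real.pi + τ)) < 1 := by
      rw [ENNReal.ofReal_lt_one, div_lt_one (by positivity)]
      linarith
    have hev := h3.eventually (lt_mem_nhds hlt)
    obtain ⟨m, hm1, hm2⟩ := (hfr.and_eventually hev).exists
    exact absurd hm2 (not_lt.2 hm1)
  have h3 : volume.restrict Aᶜ = 0 := by
    rw [← Measure.measure_univ_eq_zero]
    rw [ae_iff] at h2
    simpa using h2
  rw [Measure.restrict_eq_zero] at h3
  rw [ae_iff]
  exact h3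

/-- The answer. -/
theorem ae_dense (h : Gap n q) : ∀ᵐ x : ℝ, ∀ ξ : ℝ, ∀ ε : ℝ, 0 < ε →
    ∃ᶠ m in atTop, |S n m x - ξ| < ε := by
  have h1 : ∀ᵐ x : ℝ, ∀ (a : ℚ) (k : ℕ) (M : ℕ), ∃ p ≥ M, |S n p x - a| < 1 / ((k : ℝ) + 1) := by
    rw [ae_all_iff]; intro a
    rw [ae_all_iff]; intro k
    rw [ae_all_iff]; intro M
    exact ae_close h a _ (by positivity) M
  filter_upwards [h1] with x hx ξ ε hε
  rw [frequently_atTop]
  intro M
  obtain ⟨k, hk⟩ := exists_nat_one_div_lt (show 0 < ε / 2 by linarith)
  obtain ⟨a, ha1, ha2⟩ := exists_rat_btwn (show ξ < ξ + ε / 2 by linarith)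
  obtain ⟨p, hp, hpa⟩ := hx a k M
  refine ⟨p, hp, ?_⟩
  have e : S n p x - ξ = (S n p x - a) + (a - ξ) := by ring
  rw [e]
  refine (abs_add_le _ _).trans_lt ?_
  rw [abs_of_pos (by linarith : (0:ℝ) < a - ξ)]
  linarith

end Pool.Agent.T2H73.Lac
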