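import Pool.Agent.T2H73.FrT2

/-!
# Overcomplete frames of translates are never orbits `{V^k f_0}` of a bounded operator

For every overcomplete frame sequence of translates `{T_{kb} φ}`, `k` in `ℤ`, and for every ordering
of it by `0, 1, 2, …` there is no bounded operator `V` on its span with `f_k = V^k f_0` for all `k`.

Proof. If `V` is bounded then the kernel `N` of the synthesis operator on `ℓ²(ℤ)` is invariant under
the isometry `R` which shifts the ordering. Let `P` be the orthogonal projection to `N`. As the Gram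
matrix is invariant under translations, the vectors `P δ_m` all have the same norm. Since
`⟨P δ_{τ m}, R P δ_m⟩ = ‖P δ_m‖²` for the permuting map `τ` of `R`, it follows that
`R P δ_m = P δ_{τ m}`, and these vectors vanish at the first index of the ordering. So `P` is
diagonal, hence `P = 0` or `P = 1`, which both are excluded.
-/

set_option autoImplicit false

open MeasureTheory Filter Topology Set
open scoped InnerProductSpace ComplexConjugate

namespace Pool.Agent.Results.MP_909498_an.NoBoundedOrdering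

/-- The complex Hilbert space `L²(ℝ)`. -/
abbrev L2 : Type := Lp ℂ 2 (volume : Measure ℝ)

/-- The translation `(T_a f)(x) = f(x - a)` of `L²(ℝ)`. -/
noncomputable def T (a : ℝ) : L2 →ₗᵢ[ℂ] L2 :=
  Lp.compMeasurePreservingₗᵢ ℂ (fun x : ℝ => x - a) (measurePreserving_sub_right volume a)

/-- `{f_k}` is a frame sequence: a frame for its closed linear span. -/
def IsFrameSequence {I : Type} (f : I → L2) : Prop :=
  ∃ A B : ℝ, 0 < A ∧ 0 < B ∧ ∀ g ∈ (Submodule.span ℂ (range f)).topologicalClosure,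
    Summable (fun k => ‖⟪g, f k⟫_ℂ‖ ^ 2) ∧ A * ‖g‖ ^ 2 ≤ ∑' k, ‖⟪g, f k⟫_ℂ‖ ^ 2 ∧
      ∑' k, ‖⟪g, f k⟫_ℂ‖ ^ 2 ≤ B * ‖g‖ ^ 2

/-- `{f_k}` is a Riesz basis for its closed linear span. -/
def IsRieszBasisOfClosedSpan {I : Type} (f : I → L2) : Prop :=
  ∃ A B : ℝ, 0 < A ∧ 0 < B ∧ ∀ c : I →₀ ℂ,
    A * ∑ k ∈ c.support, ‖c k‖ ^ 2 ≤ ‖∑ k ∈ c.support, c k • f k‖ ^ 2 ∧
    ‖∑ k ∈ c.support, c k • f k‖ ^ 2 ≤ B * ∑ k ∈ c.support, ‖c k‖ ^ 2

/-- `{T_{kb} φ}`, `k` in `ℤ`, is an overcomplete frame sequence. -/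
def IsOvercompleteFrameOfTranslates (φ : L2) (b : ℝ) : Prop :=
  IsFrameSequence (fun k : ℤ => T (k * b) φ) ∧
    ¬ IsRieszBasisOfClosedSpan (fun k : ℤ => T (k * b) φ)

/-- There is a bounded linear operator `V : span {f_k} → L²(ℝ)` with `f_k = V^k f_0` for all `k`,
that is, with `V f_k = f_{k+1}` for all `k`. -/
def RepresentedByBoundedOperator (f : ℕ → L2) : Prop :=
  ∃ V : Submodule.span ℂ (range f) →L[ℂ] L2,
    ∀ k : ℕ, V ⟨f k, Submodule.subset_span (mem_range_self k)⟩ = f (k + 1)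

lemma T_add (a c : ℝ) (φ : L2) : T a (T c φ) = T (c + a) φ := by
  have h1 : (T a (T c φ) : L2) =ᵐ[volume] fun x => (T c φ : L2) (x - a) :=
    Lp.coeFn_compMeasurePreserving (T c φ) (measurePreserving_sub_right volume a)
  have h2 : (T c φ : L2) =ᵐ[volume] fun x => φ (x - c) :=
    Lp.coeFn_compMeasurePreserving φ (measurePreserving_sub_right volume c)
  have h3 : (T (c + a) φ : L2) =ᵐ[volume] fun x => φ (x - (c + a)) :=
    Lp.coeFn_compMeasurePreserving φ (measurePreserving_sub_right volume (c + a))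
  have h4 := (measurePreserving_sub_right (volume : Measure ℝ) a).quasiMeasurePreserving.ae_eq_comp h2
  refine Lp.ext ?_
  filter_upwards [h1, h3, h4] with x e1 e3 e4
  rw [e1, e3]
  have e5 : (T c φ : L2) (x - a) = φ (x - a - c) := e4
  rw [e5]
  congr 1
  ring

lemma gram (φ : L2) (b : ℝ) (j k : ℤ) :
    ⟪T (((j + 1 : ℤ) : ℝ) * b) φ, T (((k + 1 : ℤ) : ℝ) * b) φ⟫_ℂ =
      ⟪T ((j : ℝ) * b) φ, T ((k : ℝ) * b) φ⟫_ℂ := by
  have h : ∀ i : ℤ, T (((i + 1 : ℤ) : ℝ) * b) φ = T b (T ((i : ℝ) * b) φ) := by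
    intro i
    rw [T_add]
    congr 2
    push_cast; ring
  rw [h, h, LinearIsometry.inner_map_map]

lemma T_ne_zero (φ : L2) (h : φ ≠ 0) (a : ℝ) : T a φ ≠ 0 := by
  intro h0
  apply h
  rw [← norm_eq_zero, ← (T a).norm_map, h0, norm_zero]

/-- **No overcomplete frame of translates is an orbit of a bounded operator.** For every nonzero
`φ` in `L²(ℝ)` and every `b > 0` such that `{T_{kb} φ}`, `k` in `ℤ`, is an overcomplete frame
sequence, and for every ordering `σ : ℕ ≃ ℤ` of it, there is no bounded linear operator `V` on the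
span with `f_k = V^k f_0`, `k = 0, 1, 2, …`, where `f_k = T_{σ(k) b} φ`. -/
theorem result : ∀ (φ : L2) (b : ℝ), φ ≠ 0 → 0 < b → IsOvercompleteFrameOfTranslates φ b →
    ∀ σ : ℕ ≃ ℤ, ¬ RepresentedByBoundedOperator (fun k : ℕ => T (σ k * b) φ) := by
  rintro φ b hφ _ ⟨⟨A, B, hA, hB, hAB⟩, hR⟩ σ ⟨V, hV⟩
  set f : ℤ → L2 := fun k => T (k * b) φ with hf
  set K := (Submodule.span ℂ (range f)).topologicalClosure with hK
  have : CompleteSpace K := (Submodule.isClosed_topologicalClosure _).completeSpace_coe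
  have hsymm : ∀ g k, ‖⟪f k, g⟫_ℂ‖ = ‖⟪g, f k⟫_ℂ‖ := fun g k => norm_inner_symm _ _
  have hproj : ∀ g k, ⟪f k, g⟫_ℂ = ⟪f k, K.starProjection g⟫_ℂ := by
    intro g k
    rw [← Submodule.inner_starProjection_left_eq_right, Submodule.starProjection_eq_self_iff.2]
    exact Submodule.le_topologicalClosure _ (Submodule.subset_span (mem_range_self k))
  have hmem : ∀ g, K.starProjection g ∈ K := fun g => Submodule.starProjection_apply_mem _ _
  have hBes : Pool.Agent.T2H73.FrT.Bessel f B := by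
    refine ⟨hB.le, fun g => ?_, fun g => ?_⟩
    · have h1 := (hAB _ (hmem g)).1
      refine h1.congr fun k => ?_
      rw [hproj g k, hsymm]
    · have h1 := (hAB _ (hmem g)).2.2
      have h2 : ‖K.starProjection g‖ ≤ ‖g‖ := K.norm_starProjection_apply_le g
      calc ∑' k, ‖⟪f k, g⟫_ℂ‖ ^ 2 = ∑' k, ‖⟪K.starProjection g, f k⟫_ℂ‖ ^ 2 := by
            refine tsum_congr fun k => ?_
            rw [hproj g k, hsymm]
        _ ≤ B * ‖K.starProjection g‖ ^ 2 := h1
        _ ≤ B * ‖g‖ ^ 2 := by gcongr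
  refine Pool.Agent.T2H73.FrT.main hBes hA (fun g hg => ?_) (fun j k => gram φ b j k)
    (T_ne_zero φ hφ _) hR σ V hV
  have h1 := (hAB g hg).2.1
  refine h1.trans (le_of_eq ?_)
  refine tsum_congr fun k => ?_
  rw [hsymm]

end Pool.Agent.Results.MP_909498_an.NoBoundedOrdering
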