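import Mathlib

set_option autoImplicit false
set_option linter.unusedSectionVars false

/-!
# Orbits `{U^k φ}` of a unitary group which form overcomplete frame sequences

A one-sided ordering `V^k f_0` of such a system by a bounded operator `V` does not exist: the kernel
of the synthesis operator would be invariant under the isometry which shifts the ordering, all the
projections of the unit vectors to this kernel have the same norm, and then the isometry must map
these projections to each other. This forces the projection to be diagonal.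
-/

open Filter Topology Set
open scoped InnerProductSpace ComplexConjugate

namespace Pool.Agent.T2H73.FrT

/-- `ℓ²(ℤ)` -/
abbrev E : Type := lp (fun _ : ℤ => ℂ) 2

/-- unit vectors -/
noncomputable def d (m : ℤ) : E := lp.single 2 m (1 : ℂ)

lemma inner_d (m : ℤ) (x : E) : ⟪d m, x⟫_ℂ = x m := by
  rw [d, lp.inner_single_left]
  simp

lemma inner_d' (x : E) (m : ℤ) : ⟪x, d m⟫_ℂ = conj (x m) := by
  rw [← inner_conj_symm, inner_d]

lemma d_apply (m k : ℤ) : (d m : E) k = if k = m then 1 else 0 := by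
  rw [d, lp.single_apply]
  by_cases h : k = m
  · subst h; simp
  · simp [h]

lemma orthonormal_d : Orthonormal ℂ d := by
  rw [orthonormal_iff_ite]
  intro i j
  rw [inner_d, d_apply]

lemma norm_d (m : ℤ) : ‖d m‖ = 1 := orthonormal_d.1 m

lemma norm_sq_E (x : E) : HasSum (fun k => ‖x k‖ ^ 2) (‖x‖ ^ 2) := by
  have h := lp.hasSum_norm (p := 2) (by norm_num) x
  simpa using h

lemma dense_d : (Submodule.span ℂ (range d)).topologicalClosure = ⊤ := by
  rw [Submodule.topologicalClosure_eq_top_iff, Submodule.eq_bot_iff]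
  intro x hx
  rw [Submodule.mem_orthogonal] at hx
  ext m
  have := hx (d m) (Submodule.subset_span (mem_range_self m))
  rw [inner_d] at this
  simpa using this

/-- a closed condition which holds on the span of the unit vectors holds everywhere -/
lemma closed_of_span {p : E → Prop} (hp : IsClosed {x | p x})
    (h : ∀ x ∈ Submodule.span ℂ (range d), p x) (x : E) : p x := by
  have h1 : x ∈ (Submodule.span ℂ (range d)).topologicalClosure := by rw [dense_d]; trivial
  have h2 : closure ((Submodule.span ℂ (range d) : Submodule ℂ E) : Set E) ⊆ {x | p x} :=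
    closure_minimal h hp
  exact h2 h1

section

variable {H : Type*} [NormedAddCommGroup H] [InnerProductSpace ℂ H] [CompleteSpace H]

/-- the isometry of `ℓ²(ℤ)` which moves the unit vectors by an injective map -/
noncomputable def shiftBy (τ : ℤ → ℤ) (hτ : Function.Injective τ) : E →ₗᵢ[ℂ] E :=
  (orthonormal_d.comp τ hτ).orthogonalFamily.linearIsometry

lemma shiftBy_d (τ : ℤ → ℤ) (hτ : Function.Injective τ) (m : ℤ) :
    shiftBy τ hτ (d m) = d (τ m) := by
  have h := (orthonormal_d.comp τ hτ).orthogonalFamily.linearIsometry_apply_single (i := m) (1 : ℂ)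
  rw [shiftBy, d, h]
  simp

/-- Bessel sequences -/
structure Bessel (f : ℤ → H) (B : ℝ) : Prop where
  nonneg : 0 ≤ B
  summable : ∀ g : H, Summable fun k => ‖⟪f k, g⟫_ℂ‖ ^ 2
  le : ∀ g : H, ∑' k, ‖⟪f k, g⟫_ℂ‖ ^ 2 ≤ B * ‖g‖ ^ 2

variable {f : ℤ → H} {B : ℝ}

lemma memlp (hf : Bessel f B) (g : H) : Memℓp (fun k : ℤ => ⟪f k, g⟫_ℂ) 2 := by
  refine memℓp_gen ?_
  have := hf.summable g
  simpa using this

/-- the analysis operator -/
noncomputable def ana (hf : Bessel f B) : H →L[ℂ] E :=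
  LinearMap.mkContinuous
    { toFun := fun g => ⟨fun k => ⟪f k, g⟫_ℂ, memlp hf g⟩
      map_add' := by
        intro a b; ext k; exact inner_add_right _ _ _
      map_smul' := by
        intro c a; ext k; exact inner_smul_right _ _ _ } (Real.sqrt B) (by
    intro g
    have h1 := (norm_sq_E (⟨fun k => ⟪f k, g⟫_ℂ, memlp hf g⟩ : E)).tsum_eq
    have h2 := hf.le g
    have h3 : ‖(⟨fun k => ⟪f k, g⟫_ℂ, memlp hf g⟩ : E)‖ ^ 2 ≤ B * ‖g‖ ^ 2 := by
      rw [← h1]; exact h2
    refine le_of_sq_le_sq ?_ (by positivity)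
    rw [mul_pow, Real.sq_sqrt hf.nonneg]
    exact h3)

lemma ana_apply (hf : Bessel f B) (g : H) (k : ℤ) : (ana hf g : E) k = ⟪f k, g⟫_ℂ := rfl

lemma norm_ana_sq (hf : Bessel f B) (g : H) : ‖ana hf g‖ ^ 2 = ∑' k, ‖⟪f k, g⟫_ℂ‖ ^ 2 :=
  (norm_sq_E (ana hf g)).tsum_eq.symm

/-- the synthesis operator -/
noncomputable def syn (hf : Bessel f B) : E →L[ℂ] H := ContinuousLinearMap.adjoint (ana hf)

lemma syn_d (hf : Bessel f B) (m : ℤ) : syn hf (d m) = f m := by
  refine ext_inner_right ℂ fun g => ?_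
  rw [syn, ContinuousLinearMap.adjoint_inner_left, inner_d, ana_apply]

/-- the kernel of the synthesis operator -/
noncomputable def NU (hf : Bessel f B) : Submodule ℂ E := (syn hf).ker

lemma mem_NU (hf : Bessel f B) (x : E) : x ∈ NU hf ↔ syn hf x = 0 := Iff.rfl

instance (hf : Bessel f B) : CompleteSpace (NU hf) := by
  have : IsClosed ((NU hf : Submodule ℂ E) : Set E) := (syn hf).isClosed_ker
  exact this.completeSpace_coe

/-- projections of the unit vectors to the kernel -/
noncomputable def e (hf : Bessel f B) (m : ℤ) : E := (NU hf).starProjection (d m)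

lemma e_mem (hf : Bessel f B) (m : ℤ) : e hf m ∈ NU hf := Submodule.starProjection_apply_mem _ _

lemma inner_e (hf : Bessel f B) (m : ℤ) {x : E} (hx : x ∈ NU hf) : ⟪e hf m, x⟫_ℂ = x m := by
  rw [e, Submodule.inner_starProjection_left_eq_right, Submodule.starProjection_eq_self_iff.2 hx,
    inner_d]

lemma norm_e_sq (hf : Bessel f B) (m : ℤ) : ((‖e hf m‖ ^ 2 : ℝ) : ℂ) = (e hf m : E) m := by
  rw [← inner_e hf m (e_mem hf m), inner_self_eq_norm_sq_to_K]
  push_cast; rfl

/-- Main computation: an isometry which permutes unit vectors and preserves the kernel. -/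
lemma inner_e_shift (hf : Bessel f B) (τ : ℤ → ℤ) (hτ : Function.Injective τ)
    (hN : ∀ x ∈ NU hf, shiftBy τ hτ x ∈ NU hf) (m : ℤ) :
    ⟪e hf (τ m), shiftBy τ hτ (e hf m)⟫_ℂ = ((‖e hf m‖ ^ 2 : ℝ) : ℂ) := by
  rw [inner_e hf (τ m) (hN _ (e_mem hf m)), ← inner_d, ← shiftBy_d τ hτ m,
    LinearIsometry.inner_map_map, inner_d, norm_e_sq]

lemma norm_e_le (hf : Bessel f B) (τ : ℤ → ℤ) (hτ : Function.Injective τ)
    (hN : ∀ x ∈ NU hf, shiftBy τ hτ x ∈ NU hf) (m : ℤ) : ‖e hf m‖ ≤ ‖e hf (τ m)‖ := by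
  have h1 := inner_e_shift hf τ hτ hN m
  have h2 : ‖e hf m‖ ^ 2 ≤ ‖e hf (τ m)‖ * ‖e hf m‖ := by
    have h3 := norm_inner_le_norm (𝕜 := ℂ) (e hf (τ m)) (shiftBy τ hτ (e hf m))
    rw [h1, LinearIsometry.norm_map, Complex.norm_real, Real.norm_of_nonneg (by positivity)] at h3
    exact h3
  rcases (norm_nonneg (e hf m)).eq_or_lt with h4 | h4
  · rw [← h4]; exact norm_nonneg _
  · nlinarith

lemma e_shift_eq (hf : Bessel f B) (τ : ℤ → ℤ) (hτ : Function.Injective τ)
    (hN : ∀ x ∈ NU hf, shiftBy τ hτ x ∈ NU hf) (m : ℤ) (hm : ‖e hf (τ m)‖ = ‖e hf m‖) :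
    e hf (τ m) = shiftBy τ hτ (e hf m) := by
  have h1 := inner_e_shift hf τ hτ hN m
  have h2 : ‖e hf (τ m) - shiftBy τ hτ (e hf m)‖ ^ 2 = 0 := by
    rw [@norm_sub_sq ℂ, h1, LinearIsometry.norm_map, hm]
    have : RCLike.re (((‖e hf m‖ ^ 2 : ℝ) : ℂ)) = ‖e hf m‖ ^ 2 := Complex.ofReal_re _
    rw [this]; ring
  exact sub_eq_zero.1 (norm_eq_zero.1 (pow_eq_zero_iff (two_ne_zero) |>.1 h2))

/-- the kernel is invariant under an isometry as soon as there is a bound -/
lemma NU_inv (hf : Bessel f B) (R : E →ₗᵢ[ℂ] E) (C : ℝ)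
    (h : ∀ x ∈ Submodule.span ℂ (range d), ‖syn hf (R x)‖ ≤ C * ‖syn hf x‖) :
    ∀ x ∈ NU hf, R x ∈ NU hf := by
  intro x hx
  have h1 := closed_of_span (p := fun x => ‖syn hf (R x)‖ ≤ C * ‖syn hf x‖) (by
    refine isClosed_le ?_ ?_
    · exact ((syn hf).continuous.comp R.continuous).norm
    · exact continuous_const.mul (syn hf).continuous.norm) h x
  rw [mem_NU] at hx ⊢
  rw [hx, norm_zero, mul_zero] at h1
  exact norm_le_zero_iff.1 h1

/-- Gram matrices which are invariant under the translation -/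
lemma syn_shift_norm (hf : Bessel f B) (τ : ℤ → ℤ) (hτ : Function.Injective τ)
    (hG : ∀ j k, ⟪f (τ j), f (τ k)⟫_ℂ = ⟪f j, f k⟫_ℂ) {x : E}
    (hx : x ∈ Submodule.span ℂ (range d)) : ‖syn hf (shiftBy τ hτ x)‖ = ‖syn hf x‖ := by
  rw [Finsupp.mem_span_range_iff_exists_finsupp] at hx
  obtain ⟨c, rfl⟩ := hx
  have h1 : ∀ g : ℤ → H, ‖c.sum fun i a => a • g i‖ ^ 2 =
      RCLike.re (∑ i ∈ c.support, ∑ j ∈ c.support, conj (c i) * (c j * ⟪g i, g j⟫_ℂ)) := by
    intro g
    rw [← @inner_self_eq_norm_sq ℂ]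
    congr 1
    rw [Finsupp.sum, sum_inner]
    refine Finset.sum_congr rfl fun i _ => ?_
    rw [inner_sum]
    refine Finset.sum_congr rfl fun j _ => ?_
    rw [inner_smul_left, inner_smul_right]
  have h2 : syn hf (shiftBy τ hτ (c.sum fun i a => a • d i)) = c.sum fun i a => a • f (τ i) := by
    rw [Finsupp.sum, map_sum, map_sum]
    refine Finset.sum_congr rfl fun i _ => ?_
    rw [map_smul, map_smul, shiftBy_d, syn_d]
  have h3 : syn hf (c.sum fun i a => a • d i) = c.sum fun i a => a • f i := by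
    rw [Finsupp.sum, map_sum]
    refine Finset.sum_congr rfl fun i _ => ?_
    rw [map_smul, syn_d]
  have h4 : ‖c.sum fun i a => a • f (τ i)‖ ^ 2 = ‖c.sum fun i a => a • f i‖ ^ 2 := by
    rw [h1, h1]; simp only [hG]
  rw [h2, h3]
  exact (sq_eq_sq₀ (norm_nonneg _) (norm_nonneg _)).1 h4

/-- all the projections have the same norm -/
lemma norm_e_const (hf : Bessel f B) (hG : ∀ j k, ⟪f (j + 1), f (k + 1)⟫_ℂ = ⟪f j, f k⟫_ℂ)
    (m : ℤ) : ‖e hf m‖ = ‖e hf 0‖ := by
  have hinj1 : Function.Injective (fun k : ℤ => k + 1) := fun a b h => by simpa using h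
  have hinj2 : Function.Injective (fun k : ℤ => k - 1) := fun a b h => by simpa using h
  have hG2 : ∀ j k, ⟪f (j - 1), f (k - 1)⟫_ℂ = ⟪f j, f k⟫_ℂ := by
    intro j k
    have := hG (j - 1) (k - 1)
    rw [sub_add_cancel, sub_add_cancel] at this
    exact this.symm
  have hN1 := NU_inv hf (shiftBy _ hinj1) 1 (fun x hx => by
    rw [one_mul]; exact (syn_shift_norm hf _ hinj1 hG hx).le)
  have hN2 := NU_inv hf (shiftBy _ hinj2) 1 (fun x hx => by
    rw [one_mul]; exact (syn_shift_norm hf _ hinj2 hG2 hx).le)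
  have hstep : ∀ k : ℤ, ‖e hf (k + 1)‖ = ‖e hf k‖ := by
    intro k
    refine le_antisymm ?_ (norm_e_le hf _ hinj1 hN1 k)
    have := norm_e_le hf _ hinj2 hN2 (k + 1)
    simpa using this
  induction m using Int.induction_on with
  | zero => rfl
  | succ i ih => rw [hstep]; exact ih
  | pred i ih =>
    rw [← ih, ← hstep (-(i:ℤ) - 1)]
    congr 2
    ring

/-- The lower frame bound gives a lower bound for the synthesis operator when its kernel is zero. -/
lemma lower (hf : Bessel f B) {A : ℝ} (hA : 0 < A)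
    (hlow : ∀ g : H, g ∈ (Submodule.span ℂ (range f)).topologicalClosure →
      A * ‖g‖ ^ 2 ≤ ∑' k, ‖⟪f k, g⟫_ℂ‖ ^ 2) (h0 : NU hf = ⊥) (x : E) :
    A * ‖x‖ ^ 2 ≤ ‖syn hf x‖ ^ 2 := by
  have hr : ((ana hf).range).topologicalClosure = ⊤ := by
    rw [Submodule.topologicalClosure_eq_top_iff, ContinuousLinearMap.orthogonal_range]
    exact h0
  have hcl : IsClosed {x : E | A * ‖x‖ ^ 2 ≤ ‖syn hf x‖ ^ 2} :=
    isClosed_le (by fun_prop) (by fun_prop)
  have hsub : (((ana hf).range : Submodule ℂ E) : Set E) ⊆ {x : E | A * ‖x‖ ^ 2 ≤ ‖syn hf x‖ ^ 2} := by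
    rintro _ ⟨g, rfl⟩
    set K := (Submodule.span ℂ (range f)).topologicalClosure with hK
    have : CompleteSpace K := (Submodule.isClosed_topologicalClosure _).completeSpace_coe
    set g' := K.starProjection g with hg'
    have hgK : g' ∈ K := Submodule.starProjection_apply_mem _ _
    have he : ana hf g = ana hf g' := by
      ext k
      rw [ana_apply, ana_apply, hg', ← Submodule.inner_starProjection_left_eq_right,
        Submodule.starProjection_eq_self_iff.2]
      exact Submodule.le_topologicalClosure _ (Submodule.subset_span (mem_range_self k))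
    show A * ‖ana hf g‖ ^ 2 ≤ ‖syn hf (ana hf g)‖ ^ 2
    rw [he]
    have h1 := hlow g' hgK
    rw [← norm_ana_sq hf g'] at h1
    have h2 : ‖ana hf g'‖ ^ 2 ≤ ‖syn hf (ana hf g')‖ * ‖g'‖ := by
      have h3 : ((‖ana hf g'‖ ^ 2 : ℝ) : ℂ) = ⟪syn hf (ana hf g'), g'⟫_ℂ := by
        rw [syn, ContinuousLinearMap.adjoint_inner_left, inner_self_eq_norm_sq_to_K]
        push_cast; rfl
      have h4 := norm_inner_le_norm (𝕜 := ℂ) (syn hf (ana hf g')) g'
      rw [← h3, Complex.norm_real, Real.norm_of_nonneg (by positivity)] at h4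
      exact h4
    set a := ‖ana hf g'‖
    set s := ‖syn hf (ana hf g')‖
    set t := ‖g'‖
    have ha : 0 ≤ a := norm_nonneg _
    have hs : 0 ≤ s := norm_nonneg _
    have ht : 0 ≤ t := norm_nonneg _
    -- A t² ≤ a², a² ≤ s t  ⟹  A a² ≤ s²
    rcases ha.eq_or_lt with h5 | h5
    · rw [← h5]; simp; positivity
    · have h6 : (a ^ 2) ^ 2 ≤ s ^ 2 * t ^ 2 := by
        rw [← mul_pow]; gcongr
      have h7 : A * (a ^ 2) ^ 2 ≤ s ^ 2 * a ^ 2 := by
        calc A * (a ^ 2) ^ 2 ≤ A * (s ^ 2 * t ^ 2) := by gcongr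
          _ = s ^ 2 * (A * t ^ 2) := by ring
          _ ≤ s ^ 2 * a ^ 2 := by gcongr
      have h8 : 0 < a ^ 2 := by positivity
      nlinarith
  have h1 : x ∈ ((ana hf).range).topologicalClosure := by rw [hr]; trivial
  exact closure_minimal hsub hcl h1

end

end Pool.Agent.T2H73.FrT
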