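import Pool.Agent.T2H73.FrT1

set_option autoImplicit false
set_option linter.unusedSectionVars false

open Filter Topology Set
open scoped InnerProductSpace ComplexConjugate

namespace Pool.Agent.T2H73.FrT

variable {H : Type*} [NormedAddCommGroup H] [InnerProductSpace ℂ H] [CompleteSpace H]
  {f : ℤ → H} {B : ℝ}

lemma syn_bound (hf : Bessel f B) (σ : ℕ ≃ ℤ)
    (V : Submodule.span ℂ (range fun k : ℕ => f (σ k)) →L[ℂ] H)
    (hV : ∀ k, V ⟨f (σ k), Submodule.subset_span (mem_range_self k)⟩ = f (σ (k + 1)))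
    (τ : ℤ → ℤ) (hτ : Function.Injective τ) (hτσ : ∀ k, τ (σ k) = σ (k + 1)) {x : E}
    (hx : x ∈ Submodule.span ℂ (range d)) :
    ‖syn hf (shiftBy τ hτ x)‖ ≤ ‖V‖ * ‖syn hf x‖ := by
  have key : ∃ h : syn hf x ∈ Submodule.span ℂ (range fun k : ℕ => f (σ k)),
      V ⟨syn hf x, h⟩ = syn hf (shiftBy τ hτ x) := by
    induction hx using Submodule.span_induction with
    | mem x hx =>
      obtain ⟨m, rfl⟩ := hx
      obtain ⟨k, rfl⟩ := σ.surjective m
      have h1 : syn hf (d (σ k)) = f (σ k) := syn_d hf _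
      have h2 : syn hf (d (σ k)) ∈ Submodule.span ℂ (range fun k : ℕ => f (σ k)) := by
        rw [h1]; exact Submodule.subset_span (mem_range_self k)
      refine ⟨h2, ?_⟩
      have e3 : (⟨syn hf (d (σ k)), h2⟩ : Submodule.span ℂ (range fun k : ℕ => f (σ k))) =
          ⟨f (σ k), Submodule.subset_span (mem_range_self k)⟩ := Subtype.ext h1
      rw [e3, hV k, shiftBy_d, syn_d, hτσ]
    | zero =>
      have h2 : syn hf 0 ∈ Submodule.span ℂ (range fun k : ℕ => f (σ k)) := by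
        rw [map_zero]; exact zero_mem _
      refine ⟨h2, ?_⟩
      have e3 : (⟨syn hf 0, h2⟩ : Submodule.span ℂ (range fun k : ℕ => f (σ k))) = 0 :=
        Subtype.ext (map_zero _)
      rw [e3, map_zero, map_zero, map_zero]
    | add x y _ _ hx hy =>
      obtain ⟨h1, e1⟩ := hx
      obtain ⟨h2, e2⟩ := hy
      refine ⟨by rw [map_add]; exact add_mem h1 h2, ?_⟩
      rw [map_add (shiftBy τ hτ), map_add (syn hf) (shiftBy τ hτ x), ← e1, ← e2, ← map_add V]
      congr 1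
      ext
      simp
    | smul a x _ hx =>
      obtain ⟨h1, e1⟩ := hx
      refine ⟨by rw [map_smul]; exact Submodule.smul_mem _ _ h1, ?_⟩
      rw [map_smul (shiftBy τ hτ), map_smul (syn hf) a (shiftBy τ hτ x), ← e1, ← map_smul V]
      congr 1
      ext
      simp
  obtain ⟨h, e⟩ := key
  rw [← e]
  exact V.le_opNorm _

/-- The abstract theorem. -/
theorem main (hf : Bessel f B) {A : ℝ} (hA : 0 < A)
    (hlow : ∀ g : H, g ∈ (Submodule.span ℂ (range f)).topologicalClosure →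
      A * ‖g‖ ^ 2 ≤ ∑' k, ‖⟪f k, g⟫_ℂ‖ ^ 2)
    (hG : ∀ j k, ⟪f (j + 1), f (k + 1)⟫_ℂ = ⟪f j, f k⟫_ℂ) (hf0 : f 0 ≠ 0)
    (hR : ¬ ∃ A' B' : ℝ, 0 < A' ∧ 0 < B' ∧ ∀ c : ℤ →₀ ℂ,
      A' * ∑ k ∈ c.support, ‖c k‖ ^ 2 ≤ ‖∑ k ∈ c.support, c k • f k‖ ^ 2 ∧
      ‖∑ k ∈ c.support, c k • f k‖ ^ 2 ≤ B' * ∑ k ∈ c.support, ‖c k‖ ^ 2)
    (σ : ℕ ≃ ℤ) (V : Submodule.span ℂ (range fun k : ℕ => f (σ k)) →L[ℂ] H)
    (hV : ∀ k, V ⟨f (σ k), Submodule.subset_span (mem_range_self k)⟩ = f (σ (k + 1))) : False := by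
  set τ : ℤ → ℤ := fun m => σ (σ.symm m + 1) with hτd
  have hτ : Function.Injective τ := by
    intro a b h
    have h1 := σ.injective h
    exact σ.symm.injective (by omega)
  have hτσ : ∀ k, τ (σ k) = σ (k + 1) := by
    intro k
    show σ (σ.symm (σ k) + 1) = _
    rw [Equiv.symm_apply_apply]
  have hτ0 : ∀ m, τ m ≠ σ 0 := by
    intro m h
    have := σ.injective h
    omega
  have hτs : ∀ j, j ≠ σ 0 → ∃ m, τ m = j := by
    intro j hj
    have h1 : σ.symm j ≠ 0 := by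
      intro h
      apply hj
      rw [← h, Equiv.apply_symm_apply]
    obtain ⟨k, hk⟩ := Nat.exists_eq_succ_of_ne_zero h1
    refine ⟨σ k, ?_⟩
    rw [hτσ, ← Nat.succ_eq_add_one, ← hk, Equiv.apply_symm_apply]
  have hN := NU_inv hf (shiftBy τ hτ) ‖V‖ (fun x hx => syn_bound hf σ V hV τ hτ hτσ hx)
  have hnorm : ∀ m, ‖e hf m‖ = ‖e hf 0‖ := norm_e_const hf hG
  have he : ∀ m, e hf (τ m) = shiftBy τ hτ (e hf m) := fun m =>
    e_shift_eq hf τ hτ hN m (by rw [hnorm, hnorm m])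
  have hzero : ∀ y : E, ⟪d (σ 0), shiftBy τ hτ y⟫_ℂ = 0 := by
    refine closed_of_span ?_ ?_
    · exact isClosed_eq (continuous_const.inner (shiftBy τ hτ).continuous) continuous_const
    · intro x hx
      induction hx using Submodule.span_induction with
      | mem x hx =>
        obtain ⟨m, rfl⟩ := hx
        rw [shiftBy_d, inner_d, d_apply, if_neg (hτ0 m).symm]
      | zero => simp
      | add x y _ _ hx hy => rw [map_add, inner_add_right, hx, hy, add_zero]
      | smul a x _ hx => rw [map_smul, inner_smul_right, hx, mul_zero]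
  have hoff : ∀ j, j ≠ σ 0 → (e hf j : E) (σ 0) = 0 := by
    intro j hj
    obtain ⟨m, rfl⟩ := hτs j hj
    rw [← inner_d, he]
    exact hzero _
  have hoff2 : ∀ j, j ≠ σ 0 → (e hf (σ 0) : E) j = 0 := by
    intro j hj
    have h1 : (e hf (σ 0) : E) j = conj ((e hf j : E) (σ 0)) := by
      rw [← inner_d, ← inner_d', e, e, ← Submodule.inner_starProjection_left_eq_right]
    rw [h1, hoff j hj, map_zero]
  set lam : ℂ := (e hf (σ 0) : E) (σ 0) with hlam
  have hdiag : e hf (σ 0) = lam • d (σ 0) := by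
    ext j
    rw [lp.coeFn_smul, Pi.smul_apply, d_apply]
    by_cases hj : j = σ 0
    · subst hj; simp [hlam]
    · rw [if_neg hj, smul_zero, hoff2 j hj]
  have hl1 : ‖e hf (σ 0)‖ = ‖lam‖ := by
    rw [hdiag, norm_smul, norm_d, mul_one]
  have hl2 : ‖lam‖ = ‖e hf (σ 0)‖ ^ 2 := by
    rw [hlam, ← norm_e_sq, Complex.norm_real, Real.norm_of_nonneg (by positivity)]
  have hcase : ‖e hf (σ 0)‖ = 0 ∨ ‖e hf (σ 0)‖ = 1 := by
    have h1 : ‖e hf (σ 0)‖ * (‖e hf (σ 0)‖ - 1) = 0 := by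
      have := hl1.trans hl2
      linear_combination -this
    rcases mul_eq_zero.1 h1 with h | h
    · exact Or.inl h
    · exact Or.inr (by linarith)
  rcases hcase with h0 | h1
  · -- kernel zero
    have hall : ∀ m, e hf m = 0 := by
      intro m
      rw [← norm_eq_zero, hnorm m, ← hnorm (σ 0), h0]
    have hbot : NU hf = ⊥ := by
      rw [Submodule.eq_bot_iff]
      intro x hx
      ext m
      rw [← inner_e hf m hx, hall, inner_zero_left]
      rfl
    apply hR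
    refine ⟨A, max 1 (‖syn hf‖ ^ 2), hA, lt_max_of_lt_left one_pos, fun c => ?_⟩
    set x : E := ∑ k ∈ c.support, c k • d k with hx
    have e1 : syn hf x = ∑ k ∈ c.support, c k • f k := by
      rw [hx, map_sum]
      refine Finset.sum_congr rfl fun k _ => ?_
      rw [map_smul, syn_d]
    have e2 : ‖x‖ ^ 2 = ∑ k ∈ c.support, ‖c k‖ ^ 2 := by
      have h3 := orthonormal_d.inner_sum (fun k => c k) (fun k => c k) c.support
      have h4 : ((‖x‖ ^ 2 : ℝ) : ℂ) = ((∑ k ∈ c.support, ‖c k‖ ^ 2 : ℝ) : ℂ) := by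
        have h5 : ((‖x‖ ^ 2 : ℝ) : ℂ) = ⟪x, x⟫_ℂ := by
          rw [inner_self_eq_norm_sq_to_K]; push_cast; rfl
        rw [h5, hx, h3]
        push_cast
        refine Finset.sum_congr rfl fun k _ => ?_
        rw [← Complex.normSq_eq_conj_mul_self, Complex.normSq_eq_norm_sq]
        push_cast; rfl
      exact_mod_cast h4
    rw [← e1, ← e2]
    constructor
    · exact lower hf hA hlow hbot x
    · have h3 := (syn hf).le_opNorm x
      calc ‖syn hf x‖ ^ 2 ≤ (‖syn hf‖ * ‖x‖) ^ 2 := by gcongr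
        _ = ‖syn hf‖ ^ 2 * ‖x‖ ^ 2 := by ring
        _ ≤ max 1 (‖syn hf‖ ^ 2) * ‖x‖ ^ 2 := by gcongr; exact le_max_right _ _
  · -- everything in the kernel
    apply hf0
    have h2 : ‖e hf 0‖ = 1 := by rw [← hnorm (σ 0), h1]
    have h3 : ‖d 0 - e hf 0‖ ^ 2 = 0 := by
      rw [@norm_sub_sq ℂ, norm_d, h2, inner_d, ← norm_e_sq, h2]
      norm_num
    have h4 : d 0 = e hf 0 := sub_eq_zero.1 (norm_eq_zero.1 (pow_eq_zero_iff two_ne_zero |>.1 h3))
    have h5 : d 0 ∈ NU hf := by rw [h4]; exact e_mem hf 0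
    rw [mem_NU, syn_d] at h5
    exact h5

end Pool.Agent.T2H73.FrT
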