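import Mathlib

set_option autoImplicit false

/-!
# Lacunary trigonometric sums: weak limits of the normalised sums and of their squares
-/

open MeasureTheory Filter Topology Set AddCircle Finset
open scoped InnerProductSpace ComplexConjugate

namespace Pool.Agent.T2H73.Lac

instance fact2pi : Fact (0 < 2 * Real.pi) := ⟨by positivity⟩

/-- the circle of length `2π` -/
abbrev Ci : Type := AddCircle (2 * Real.pi)

/-- the Hilbert space `L²` of the circle -/
abbrev H : Type := Lp ℂ 2 (haarAddCircle (T := 2 * Real.pi))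

/-- a bounded sequence which tends to zero against all monomials tends weakly to zero -/
lemma weak (t : ℕ → H) (C : ℝ) (hC : ∀ N, ‖t N‖ ≤ C)
    (h : ∀ m : ℤ, Tendsto (fun N => ⟪(fourierLp (T := 2 * Real.pi) 2 m : H), t N⟫_ℂ) atTop (𝓝 0))
    (f : H) : Tendsto (fun N => ⟪f, t N⟫_ℂ) atTop (𝓝 0) := by
  let K : Submodule ℂ H :=
    { carrier := {f | Tendsto (fun N => ⟪f, t N⟫_ℂ) atTop (𝓝 0)}
      add_mem' := by
        intro a b ha hb
        have := Tendsto.add ha hb
        simpa [inner_add_left] using this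
      zero_mem' := by simp
      smul_mem' := by
        intro c a ha
        have := Tendsto.const_mul ((starRingEnd ℂ) c) ha
        simpa [inner_smul_left] using this }
  have hK : IsClosed (K : Set H) := by
    rw [← isSeqClosed_iff_isClosed]
    intro u a hu hua
    show Tendsto (fun N => ⟪a, t N⟫_ℂ) atTop (𝓝 0)
    rw [Metric.tendsto_atTop]
    intro ε hε
    have hC0 : 0 ≤ C := (norm_nonneg _).trans (hC 0)
    have h1 : ∀ᶠ k in atTop, ‖u k - a‖ < ε / (2 * (C + 1)) := by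
      have h2 := tendsto_iff_norm_sub_tendsto_zero.1 hua
      exact h2.eventually (gt_mem_nhds (by positivity))
    obtain ⟨k, hk⟩ := h1.exists
    have h3 : Tendsto (fun N => ⟪u k, t N⟫_ℂ) atTop (𝓝 0) := hu k
    rw [Metric.tendsto_atTop] at h3
    obtain ⟨N0, hN0⟩ := h3 (ε / 2) (by positivity)
    refine ⟨N0, fun N hN => ?_⟩
    have h4 := hN0 N hN
    rw [dist_zero_right] at h4 ⊢
    have h5 : ⟪a, t N⟫_ℂ = ⟪u k, t N⟫_ℂ - ⟪u k - a, t N⟫_ℂ := by
      rw [inner_sub_left]; ring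
    rw [h5]
    have h6 : ‖⟪u k - a, t N⟫_ℂ‖ ≤ ‖u k - a‖ * C :=
      (norm_inner_le_norm _ _).trans (by gcongr; exact hC N)
    have h7 : ‖u k - a‖ * C ≤ ε / (2 * (C + 1)) * (C + 1) := by
      gcongr
      linarith
    have h8 : ε / (2 * (C + 1)) * (C + 1) = ε / 2 := by field_simp
    calc ‖⟪u k, t N⟫_ℂ - ⟪u k - a, t N⟫_ℂ‖ ≤ ‖⟪u k, t N⟫_ℂ‖ + ‖⟪u k - a, t N⟫_ℂ‖ := norm_sub_le _ _
      _ < ε := by linarith
  have h1 : (Submodule.span ℂ (range (fun m : ℤ => (fourierLp (T := 2 * Real.pi) 2 m : H)))).topologicalClosure ≤ K := by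
    refine Submodule.topologicalClosure_minimal _ ?_ hK
    rw [Submodule.span_le]
    rintro _ ⟨m, rfl⟩
    exact h m
  have h2 := span_fourierLp_closure_eq_top (T := 2 * Real.pi) (p := 2) (by norm_num)
  have h3 : f ∈ (Submodule.span ℂ (range (fun m : ℤ => (fourierLp (T := 2 * Real.pi) 2 m : H)))).topologicalClosure := by
    have : f ∈ (⊤ : Submodule ℂ H) := trivial
    rw [← h2] at this
    exact this
  exact h1 h3

lemma inner_fourierLp (a b : ℤ) :
    ⟪(fourierLp (T := 2 * Real.pi) 2 a : H), (fourierLp (T := 2 * Real.pi) 2 b : H)⟫_ℂ =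
      if a = b then 1 else 0 :=
  orthonormal_iff_ite.1 (orthonormal_fourier (T := 2 * Real.pi)) a b

/-- norm of a sum of monomials -/
lemma norm_sq_sum {ι : Type*} (P : Finset ι) (ν : ι → ℤ) (C : ℕ)
    (hC : ∀ m : ℤ, (P.filter (fun p => ν p = m)).card ≤ C) :
    ‖∑ p ∈ P, (fourierLp (T := 2 * Real.pi) 2 (ν p) : H)‖ ^ 2 ≤ C * P.card := by
  have h1 : ((‖∑ p ∈ P, (fourierLp (T := 2 * Real.pi) 2 (ν p) : H)‖ ^ 2 : ℝ) : ℂ) =
      ∑ p ∈ P, ((P.filter (fun p' => ν p' = ν p)).card : ℂ) := by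
    have h2 := inner_self_eq_norm_sq_to_K (𝕜 := ℂ) (∑ p ∈ P, (fourierLp (T := 2 * Real.pi) 2 (ν p) : H))
    refine Eq.trans (Eq.trans (by push_cast; rfl) h2.symm) ?_
    rw [inner_sum]
    refine Finset.sum_congr rfl fun p _ => ?_
    rw [sum_inner]
    simp only [inner_fourierLp]
    rw [Finset.sum_ite, Finset.sum_const_zero, add_zero, Finset.sum_const, nsmul_eq_mul, mul_one]
  have h3 : (‖∑ p ∈ P, (fourierLp (T := 2 * Real.pi) 2 (ν p) : H)‖ ^ 2 : ℝ) =
      ∑ p ∈ P, ((P.filter (fun p' => ν p' = ν p)).card : ℝ) := by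
    have := congrArg Complex.re h1
    rw [Complex.ofReal_re] at this
    rw [this, Complex.re_sum]
    refine Finset.sum_congr rfl fun p _ => ?_
    simp
  rw [h3]
  calc ∑ p ∈ P, ((P.filter (fun p' => ν p' = ν p)).card : ℝ) ≤ ∑ _p ∈ P, (C : ℝ) := by
        refine Finset.sum_le_sum fun p _ => ?_
        exact_mod_cast hC (ν p)
    _ = C * P.card := by rw [Finset.sum_const, nsmul_eq_mul, mul_comm]

end Pool.Agent.T2H73.Lac
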