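import Pool.Agent.T2H73.Lac1

set_option autoImplicit false

open MeasureTheory Filter Topology Set AddCircle Finset
open scoped InnerProductSpace ComplexConjugate

namespace Pool.Agent.T2H73.Lac

/-- Hadamard gap sequence -/
structure Gap (n : ℕ → ℕ) (q : ℝ) : Prop where
  one_lt : 1 < q
  pos : ∀ k, 0 < n k
  gap : ∀ k, q * (n k : ℝ) ≤ (n (k + 1) : ℝ)

variable {n : ℕ → ℕ} {q : ℝ}

namespace Gap

lemma pow_le (h : Gap n q) (k r : ℕ) : q ^ r * (n k : ℝ) ≤ (n (k + r) : ℝ) := by
  induction r with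
  | zero => simp
  | succ r ih =>
    have h1 := h.gap (k + r)
    have h2 := h.one_lt
    calc q ^ (r + 1) * (n k : ℝ) = q * (q ^ r * (n k : ℝ)) := by ring
      _ ≤ q * (n (k + r) : ℝ) := by gcongr
      _ ≤ _ := h1

lemma strictMono (h : Gap n q) : StrictMono n := by
  refine strictMono_nat_of_lt_succ fun k => ?_
  have h1 := h.gap k
  have h2 := h.one_lt
  have h3 : (0:ℝ) < n k := by exact_mod_cast h.pos k
  have : (n k : ℝ) < n (k + 1) := by nlinarith
  exact_mod_cast this

/-- few indices in a dyadic window -/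
lemma card_window (h : Gap n q) {K : ℕ} (hK : 2 < q ^ K) (N s : ℕ) :
    ((range N).filter (fun i => s ≤ 2 * n i ∧ n i ≤ s)).card ≤ K := by
  classical
  rcases ((range N).filter (fun i => s ≤ 2 * n i ∧ n i ≤ s)).eq_empty_or_nonempty with h0 | h0
  · rw [h0]; simp
  · set W := (range N).filter (fun i => s ≤ 2 * n i ∧ n i ≤ s) with hW
    set i0 := W.min' h0 with hi0
    have h1 : i0 ∈ W := W.min'_mem h0
    have h2 : W ⊆ Finset.Ico i0 (i0 + K) := by
      intro i hi
      have h3 : i0 ≤ i := W.min'_le i hi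
      rw [Finset.mem_Ico]
      refine ⟨h3, ?_⟩
      by_contra h4
      push Not at h4
      have h5 := h.pow_le i0 K
      have h6 : n (i0 + K) ≤ n i := h.strictMono.monotone h4
      rw [hW, Finset.mem_filter] at h1 hi
      have h7 : (n i : ℝ) ≤ s := by exact_mod_cast hi.2.2
      have h8 : (s : ℝ) ≤ 2 * n i0 := by exact_mod_cast h1.2.1
      have h9 : (n (i0 + K) : ℝ) ≤ n i := by exact_mod_cast h6
      have h10 : (0:ℝ) < n i0 := by exact_mod_cast h.pos i0
      nlinarith
    calc W.card ≤ (Finset.Ico i0 (i0 + K)).card := Finset.card_le_card h2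
      _ = K := by simp

lemma card_add (h : Gap n q) {K : ℕ} (hK : 2 < q ^ K) (N : ℕ) (m : ℤ) :
    (((range N) ×ˢ (range N)).filter (fun p : ℕ × ℕ => (n p.1 : ℤ) + (n p.2 : ℤ) = m)).card
      ≤ 2 * K := by
  classical
  by_cases hm : m < 0
  · rw [Finset.filter_eq_empty_iff.2]
    · simp
    · intro p _ hp
      omega
  push Not at hm
  obtain ⟨s, rfl⟩ := Int.eq_ofNat_of_zero_le hm
  set P := ((range N) ×ˢ (range N)).filter (fun p : ℕ × ℕ => (n p.1 : ℤ) + (n p.2 : ℤ) = (s : ℤ))
  set W := (range N).filter (fun i => s ≤ 2 * n i ∧ n i ≤ s) with hW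
  have h1 : P ⊆ P.filter (fun p => p.1 ∈ W) ∪ P.filter (fun p => p.2 ∈ W) := by
    intro p hp
    have hp' := hp
    rw [Finset.mem_filter, Finset.mem_product] at hp'
    obtain ⟨⟨ha, hb⟩, hs⟩ := hp'
    have hs' : n p.1 + n p.2 = s := by exact_mod_cast hs
    rcases le_total (n p.1) (n p.2) with h2 | h2
    · refine Finset.mem_union_right _ (Finset.mem_filter.2 ⟨hp, ?_⟩)
      exact Finset.mem_filter.2 ⟨hb, by omega, by omega⟩
    · refine Finset.mem_union_left _ (Finset.mem_filter.2 ⟨hp, ?_⟩)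
      exact Finset.mem_filter.2 ⟨ha, by omega, by omega⟩
  have h2 : (P.filter (fun p => p.1 ∈ W)).card ≤ W.card := by
    refine Finset.card_le_card_of_injOn (fun p => p.1) ?_ ?_
    · intro p hp
      rw [Finset.mem_coe, Finset.mem_filter] at hp
      exact hp.2
    · intro p hp p' hp' hpp
      simp only [Finset.mem_coe] at hp hp'
      rw [Finset.mem_filter, Finset.mem_filter] at hp hp'
      have e1 := hp.1.2
      have e2 := hp'.1.2
      have e3 : p.1 = p'.1 := hpp
      rw [e3] at e1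
      have e4 : n p.2 = n p'.2 := by
        have : (n p.2 : ℤ) = n p'.2 := by linarith
        exact_mod_cast this
      exact Prod.ext e3 (h.strictMono.injective e4)
  have h3 : (P.filter (fun p => p.2 ∈ W)).card ≤ W.card := by
    refine Finset.card_le_card_of_injOn (fun p => p.2) ?_ ?_
    · intro p hp
      rw [Finset.mem_coe, Finset.mem_filter] at hp
      exact hp.2
    · intro p hp p' hp' hpp
      simp only [Finset.mem_coe] at hp hp'
      rw [Finset.mem_filter, Finset.mem_filter] at hp hp'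
      have e1 := hp.1.2
      have e2 := hp'.1.2
      have e3 : p.2 = p'.2 := hpp
      rw [e3] at e1
      have e4 : n p.1 = n p'.1 := by
        have : (n p.1 : ℤ) = n p'.1 := by linarith
        exact_mod_cast this
      exact Prod.ext (h.strictMono.injective e4) e3
  calc P.card ≤ (P.filter (fun p => p.1 ∈ W) ∪ P.filter (fun p => p.2 ∈ W)).card :=
        Finset.card_le_card h1
    _ ≤ (P.filter (fun p => p.1 ∈ W)).card + (P.filter (fun p => p.2 ∈ W)).card :=
        Finset.card_union_le _ _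
    _ ≤ K + K := add_le_add (h2.trans (h.card_window hK N s)) (h3.trans (h.card_window hK N s))
    _ = 2 * K := by ring

lemma le_self (h : Gap n q) (k : ℕ) : k ≤ n k := h.strictMono.le_apply

lemma sub_le (h : Gap n q) {a b : ℕ} (hab : a < b) :
    (q - 1) * (b : ℝ) ≤ q * ((n b : ℝ) - n a) := by
  have h1 : q * (n a : ℝ) ≤ n b := by
    have h2 := h.gap a
    have h3 : (n (a + 1) : ℝ) ≤ n b := by exact_mod_cast h.strictMono.monotone hab
    linarith
  have h4 : (b : ℝ) ≤ n b := by exact_mod_cast h.le_self b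
  have h5 := h.one_lt
  nlinarith

lemma card_sub (h : Gap n q) (m : ℤ) (hm : m ≠ 0) : ∃ C : ℕ, ∀ N : ℕ,
    (((range N) ×ˢ (range N)).filter (fun p : ℕ × ℕ => (n p.2 : ℤ) - (n p.1 : ℤ) = m)).card
      ≤ C := by
  classical
  have hq := h.one_lt
  obtain ⟨L, hL⟩ := exists_nat_gt (q * |(m : ℝ)| / (q - 1))
  refine ⟨L * L, fun N => ?_⟩
  have h1 : ((range N) ×ˢ (range N)).filter (fun p : ℕ × ℕ => (n p.2 : ℤ) - (n p.1 : ℤ) = m) ⊆
      (range L) ×ˢ (range L) := by
    intro p hp
    rw [Finset.mem_filter] at hp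
    have e := hp.2
    have e' : (n p.2 : ℝ) - n p.1 = m := by exact_mod_cast e
    have hne : p.1 ≠ p.2 := by
      intro h2
      rw [h2, sub_self] at e
      exact hm e.symm
    have hL' : q * |(m:ℝ)| < L * (q - 1) := by
      rwa [div_lt_iff₀ (by linarith)] at hL
    rw [Finset.mem_product, Finset.mem_range, Finset.mem_range]
    rcases lt_or_gt_of_ne hne with h2 | h2
    · have h3 := h.sub_le h2
      have h4 : ((p.2 : ℕ) : ℝ) < L := by
        rw [e'] at h3
        have h5 := le_abs_self (m : ℝ)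
        by_contra h6
        push Not at h6
        nlinarith
      have h5 : p.2 < L := by exact_mod_cast h4
      exact ⟨h2.trans h5, h5⟩
    · have h3 := h.sub_le h2
      have h4 : ((p.1 : ℕ) : ℝ) < L := by
        have e2 : (n p.1 : ℝ) - n p.2 = -m := by linarith
        rw [e2] at h3
        have h5 := neg_le_abs (m : ℝ)
        by_contra h6
        push Not at h6
        nlinarith
      have h5 : p.1 < L := by exact_mod_cast h4
      exact ⟨h5, h2.trans h5⟩
  calc _ ≤ ((range L) ×ˢ (range L)).card := Finset.card_le_card h1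
    _ = L * L := by simp

lemma card_sub_zero (h : Gap n q) (N : ℕ) :
    (((range N) ×ˢ (range N)).filter (fun p : ℕ × ℕ => (n p.2 : ℤ) - (n p.1 : ℤ) = 0)).card = N := by
  classical
  have h1 : ((range N) ×ˢ (range N)).filter (fun p : ℕ × ℕ => (n p.2 : ℤ) - (n p.1 : ℤ) = 0) =
      (range N).image (fun i => (i, i)) := by
    ext p
    rw [Finset.mem_filter, Finset.mem_product, Finset.mem_image]
    constructor
    · rintro ⟨⟨ha, hb⟩, e⟩
      refine ⟨p.1, ha, ?_⟩
      have : n p.2 = n p.1 := by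
        have : (n p.2 : ℤ) = n p.1 := by linarith
        exact_mod_cast this
      have := h.strictMono.injective this
      exact Prod.ext rfl this.symm
    · rintro ⟨i, hi, rfl⟩
      exact ⟨⟨hi, hi⟩, by simp⟩
  rw [h1, Finset.card_image_of_injective _ (fun a b hab => (Prod.ext_iff.1 hab).1), Finset.card_range]

end Gap

/-- The analytic sum as a continuous function on the circle. -/
noncomputable def Z (n : ℕ → ℕ) (N : ℕ) : C(Ci, ℂ) :=
  ∑ k ∈ range N, fourier (T := 2 * Real.pi) (n k : ℤ)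

/-- embedding of the continuous functions in `L²` -/
noncomputable def F : C(Ci, ℂ) →L[ℂ] H := ContinuousMap.toLp 2 haarAddCircle ℂ

lemma F_fourier (m : ℤ) : F (fourier m) = (fourierLp (T := 2 * Real.pi) 2 m : H) := rfl

lemma Z_apply (n : ℕ → ℕ) (N : ℕ) (x : Ci) : Z n N x = ∑ k ∈ range N, fourier (n k : ℤ) x := by
  simp [Z]

lemma Z_sq (n : ℕ → ℕ) (N : ℕ) : Z n N * Z n N =
    ∑ p ∈ (range N) ×ˢ (range N), fourier (T := 2 * Real.pi) ((n p.1 : ℤ) + (n p.2 : ℤ)) := by
  ext x
  rw [ContinuousMap.mul_apply, Z_apply, Finset.sum_mul_sum, Finset.sum_product,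
    ContinuousMap.sum_apply]
  refine Finset.sum_congr rfl fun a _ => ?_
  rw [ContinuousMap.sum_apply]
  refine Finset.sum_congr rfl fun b _ => ?_
  rw [fourier_add]

lemma Z_star (n : ℕ → ℕ) (N : ℕ) : star (Z n N) * Z n N =
    ∑ p ∈ (range N) ×ˢ (range N), fourier (T := 2 * Real.pi) ((n p.2 : ℤ) - (n p.1 : ℤ)) := by
  ext x
  rw [ContinuousMap.mul_apply, ContinuousMap.star_apply, Z_apply, star_sum, Finset.sum_mul_sum,
    Finset.sum_product, ContinuousMap.sum_apply]
  refine Finset.sum_congr rfl fun a _ => ?_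
  rw [ContinuousMap.sum_apply]
  refine Finset.sum_congr rfl fun b _ => ?_
  rw [sub_eq_add_neg, fourier_add, fourier_neg, mul_comm]
  rfl

lemma inner_F_sum {ι : Type*} (P : Finset ι) (ν : ι → ℤ) (m : ℤ) :
    ⟪(fourierLp (T := 2 * Real.pi) 2 m : H), F (∑ p ∈ P, fourier (ν p))⟫_ℂ =
      ((P.filter (fun p => ν p = m)).card : ℂ) := by
  rw [map_sum, inner_sum]
  simp only [F_fourier, inner_fourierLp]
  rw [Finset.sum_ite, Finset.sum_const_zero, add_zero, Finset.sum_const, nsmul_eq_mul, mul_one]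
  congr 2
  ext p
  simp [eq_comm]

end Pool.Agent.T2H73.Lac
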