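import Pool.Agent.T2H73.Lac2

set_option autoImplicit false

open MeasureTheory Filter Topology Set AddCircle Finset
open scoped InnerProductSpace ComplexConjugate

namespace Pool.Agent.T2H73.Lac

variable {n : ℕ → ℕ} {q : ℝ}

lemma norm_F_sq (g : C(Ci, ℂ)) : ‖F g‖ ^ 2 = ∫ x, ‖g x‖ ^ 2 ∂(haarAddCircle (T := 2 * Real.pi)) := by
  have h1 : ⟪F g, F g⟫_ℂ = ∫ x, g x * conj (g x) ∂(haarAddCircle (T := 2 * Real.pi)) :=
    ContinuousMap.inner_toLp haarAddCircle g g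
  have h2 : ⟪F g, F g⟫_ℂ = ((‖F g‖ ^ 2 : ℝ) : ℂ) := by
    rw [inner_self_eq_norm_sq_to_K]; push_cast; rfl
  have h3 : ∫ x, g x * conj (g x) ∂(haarAddCircle (T := 2 * Real.pi)) =
      ((∫ x, ‖g x‖ ^ 2 ∂(haarAddCircle (T := 2 * Real.pi)) : ℝ) : ℂ) := by
    rw [← integral_complex_ofReal]
    refine integral_congr_ae (Eventually.of_forall fun x => ?_)
    show g x * conj (g x) = ((‖g x‖ ^ 2 : ℝ) : ℂ)
    rw [Complex.mul_conj, Complex.normSq_eq_norm_sq]
  rw [h2, h3] at h1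
  exact_mod_cast h1

lemma setIntegral_eq_inner {B : Set Ci} (hB : MeasurableSet B) (g : C(Ci, ℂ)) :
    ⟪(indicatorConstLp 2 hB (measure_ne_top haarAddCircle B) (1:ℂ) : H), F g⟫_ℂ =
      ∫ x in B, g x ∂haarAddCircle := by
  rw [L2.inner_indicatorConstLp_one hB (measure_ne_top haarAddCircle B) (F g)]
  refine integral_congr_ae (ae_restrict_of_ae ?_)
  exact ContinuousMap.coeFn_toLp (p := 2) (𝕜 := ℂ) haarAddCircle g

lemma norm_FZ_sq (h : Gap n q) (N : ℕ) : ‖F (Z n N)‖ ^ 2 ≤ N := by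
  have h1 := norm_sq_sum (range N) (fun k => (n k : ℤ)) 1 (fun m => by
    rw [Finset.card_le_one]
    intro a ha b hb
    rw [Finset.mem_filter] at ha hb
    have : (n a : ℤ) = n b := ha.2.trans hb.2.symm
    exact h.strictMono.injective (by exact_mod_cast this))
  have h2 : F (Z n N) = ∑ k ∈ range N, (fourierLp (T := 2 * Real.pi) 2 (n k : ℤ) : H) := by
    rw [Z, map_sum]; rfl
  rw [h2]
  simpa using h1

lemma norm_FZZ_sq (h : Gap n q) {K : ℕ} (hK : 2 < q ^ K) (N : ℕ) :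
    ‖F (Z n N * Z n N)‖ ^ 2 ≤ 2 * K * N ^ 2 := by
  have h1 := norm_sq_sum ((range N) ×ˢ (range N)) (fun p => (n p.1 : ℤ) + (n p.2 : ℤ)) (2 * K)
    (fun m => h.card_add hK N m)
  have h2 : F (Z n N * Z n N) = ∑ p ∈ (range N) ×ˢ (range N),
      (fourierLp (T := 2 * Real.pi) 2 ((n p.1 : ℤ) + (n p.2 : ℤ)) : H) := by
    rw [Z_sq, map_sum]; rfl
  rw [h2]
  refine h1.trans (le_of_eq ?_)
  rw [Finset.card_product, Finset.card_range]
  push_cast; ring

lemma norm_star_mul (N : ℕ) : ‖F (star (Z n N) * Z n N)‖ = ‖F (Z n N * Z n N)‖ := by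
  have h1 : ‖F (star (Z n N) * Z n N)‖ ^ 2 = ‖F (Z n N * Z n N)‖ ^ 2 := by
    rw [norm_F_sq, norm_F_sq]
    congr 1
    ext x
    rw [ContinuousMap.mul_apply, ContinuousMap.mul_apply, ContinuousMap.star_apply, norm_mul,
      norm_mul, norm_star]
  exact (sq_eq_sq₀ (norm_nonneg _) (norm_nonneg _)).1 h1

lemma tendsto_inv_nat : Tendsto (fun N : ℕ => ((N : ℝ))⁻¹) atTop (𝓝 0) :=
  tendsto_inv_atTop_zero.comp tendsto_natCast_atTop_atTop

lemma tendsto_inv_sqrt : Tendsto (fun N : ℕ => (Real.sqrt N)⁻¹) atTop (𝓝 0) :=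
  tendsto_inv_atTop_zero.comp (Real.tendsto_sqrt_atTop.comp tendsto_natCast_atTop_atTop)

lemma tendsto_of_bound {u : ℕ → ℂ} {c : ℕ → ℝ} {C : ℝ} (hc : Tendsto c atTop (𝓝 0))
    (h : ∀ N, ‖u N‖ ≤ c N * C) : Tendsto u atTop (𝓝 0) := by
  refine squeeze_zero_norm h ?_
  simpa using hc.mul_const C

/-- first weak limit -/
lemma lim1 (h : Gap n q) {B : Set Ci} (hB : MeasurableSet B) :
    Tendsto (fun N : ℕ => (((Real.sqrt N)⁻¹ : ℝ) : ℂ) * ∫ x in B, Z n N x ∂haarAddCircle) atTop (𝓝 0) := by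
  have h1 := weak (fun N : ℕ => (((Real.sqrt N)⁻¹ : ℝ) : ℂ) • F (Z n N)) 1 (fun N => by
    rw [norm_smul]
    have h2 := norm_FZ_sq h N
    have h3 : ‖(((Real.sqrt N)⁻¹ : ℝ) : ℂ)‖ = (Real.sqrt N)⁻¹ := by
      rw [Complex.norm_real, Real.norm_of_nonneg (by positivity)]
    rw [h3]
    have h4 : ‖F (Z n N)‖ ≤ Real.sqrt N := Real.le_sqrt_of_sq_le h2
    calc (Real.sqrt N)⁻¹ * ‖F (Z n N)‖ ≤ (Real.sqrt N)⁻¹ * Real.sqrt N := by gcongr
      _ ≤ 1 := inv_mul_le_one) (fun m => by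
    refine tendsto_of_bound (C := 1) tendsto_inv_sqrt fun N => ?_
    rw [inner_smul_right, norm_mul]
    have h3 : ‖(((Real.sqrt N)⁻¹ : ℝ) : ℂ)‖ = (Real.sqrt N)⁻¹ := by
      rw [Complex.norm_real, Real.norm_of_nonneg (by positivity)]
    rw [h3]
    gcongr
    rw [Z, inner_F_sum, Complex.norm_natCast]
    have : ((range N).filter (fun p => (n p : ℤ) = m)).card ≤ 1 := by
      rw [Finset.card_le_one]
      intro a ha b hb
      rw [Finset.mem_filter] at ha hb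
      have : (n a : ℤ) = n b := ha.2.trans hb.2.symm
      exact h.strictMono.injective (by exact_mod_cast this)
    exact_mod_cast this) (indicatorConstLp 2 hB (measure_ne_top haarAddCircle B) (1:ℂ))
  refine h1.congr fun N => ?_
  rw [inner_smul_right, setIntegral_eq_inner]

/-- second weak limit -/
lemma lim2 (h : Gap n q) {B : Set Ci} (hB : MeasurableSet B) :
    Tendsto (fun N : ℕ => (((N : ℝ)⁻¹ : ℝ) : ℂ) * ∫ x in B, (Z n N * Z n N) x ∂haarAddCircle) atTop (𝓝 0) := by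
  obtain ⟨K, hK⟩ := pow_unbounded_of_one_lt 2 h.one_lt
  have h1 := weak (fun N : ℕ => (((N : ℝ)⁻¹ : ℝ) : ℂ) • F (Z n N * Z n N)) (Real.sqrt (2 * K)) (fun N => by
    rw [norm_smul]
    have h2 := norm_FZZ_sq h hK N
    have h3 : ‖(((N : ℝ)⁻¹ : ℝ) : ℂ)‖ = (N : ℝ)⁻¹ := by
      rw [Complex.norm_real, Real.norm_of_nonneg (by positivity)]
    rw [h3]
    have h4 : ‖F (Z n N * Z n N)‖ ≤ Real.sqrt (2 * K) * N := by
      refine le_of_sq_le_sq ?_ (by positivity)
      rw [mul_pow, Real.sq_sqrt (by positivity)]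
      exact h2
    calc (N : ℝ)⁻¹ * ‖F (Z n N * Z n N)‖ ≤ (N : ℝ)⁻¹ * (Real.sqrt (2 * K) * N) := by gcongr
      _ = Real.sqrt (2 * K) * ((N : ℝ)⁻¹ * N) := by ring
      _ ≤ Real.sqrt (2 * K) * 1 := by gcongr; exact inv_mul_le_one
      _ = _ := mul_one _) (fun m => by
    refine tendsto_of_bound (C := 2 * K) tendsto_inv_nat fun N => ?_
    rw [inner_smul_right, norm_mul]
    have h3 : ‖(((N : ℝ)⁻¹ : ℝ) : ℂ)‖ = (N : ℝ)⁻¹ := by
      rw [Complex.norm_real, Real.norm_of_nonneg (by positivity)]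
    rw [h3]
    gcongr
    rw [Z_sq, inner_F_sum, Complex.norm_natCast]
    exact_mod_cast h.card_add hK N m) (indicatorConstLp 2 hB (measure_ne_top haarAddCircle B) (1:ℂ))
  refine h1.congr fun N => ?_
  rw [inner_smul_right, setIntegral_eq_inner]

/-- third weak limit -/
lemma lim3 (h : Gap n q) {B : Set Ci} (hB : MeasurableSet B) :
    Tendsto (fun N : ℕ => (((N : ℝ)⁻¹ : ℝ) : ℂ) * ∫ x in B, (star (Z n N) * Z n N) x ∂haarAddCircle) atTop
      (𝓝 ((haarAddCircle (T := 2 * Real.pi)).real B : ℂ)) := by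
  obtain ⟨K, hK⟩ := pow_unbounded_of_one_lt 2 h.one_lt
  have h1 := weak (fun N : ℕ => (((N : ℝ)⁻¹ : ℝ) : ℂ) • F (star (Z n N) * Z n N) - F (fourier 0))
    (Real.sqrt (2 * K) + ‖F (fourier 0)‖) (fun N => by
    refine (norm_sub_le _ _).trans ?_
    gcongr
    rw [norm_smul, norm_star_mul]
    have h2 := norm_FZZ_sq h hK N
    have h3 : ‖(((N : ℝ)⁻¹ : ℝ) : ℂ)‖ = (N : ℝ)⁻¹ := by
      rw [Complex.norm_real, Real.norm_of_nonneg (by positivity)]
    rw [h3]
    have h4 : ‖F (Z n N * Z n N)‖ ≤ Real.sqrt (2 * K) * N := by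
      refine le_of_sq_le_sq ?_ (by positivity)
      rw [mul_pow, Real.sq_sqrt (by positivity)]
      exact h2
    calc (N : ℝ)⁻¹ * ‖F (Z n N * Z n N)‖ ≤ (N : ℝ)⁻¹ * (Real.sqrt (2 * K) * N) := by gcongr
      _ = Real.sqrt (2 * K) * ((N : ℝ)⁻¹ * N) := by ring
      _ ≤ Real.sqrt (2 * K) * 1 := by gcongr; exact inv_mul_le_one
      _ = _ := mul_one _) (fun m => by
    by_cases hm : m = 0
    · subst hm
      refine tendsto_const_nhds.congr' ?_
      filter_upwards [eventually_gt_atTop 0] with N hN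
      have hN' : (N : ℂ) ≠ 0 := by exact_mod_cast hN.ne'
      rw [inner_sub_right, inner_smul_right, Z_star, inner_F_sum, h.card_sub_zero N, F_fourier,
        inner_fourierLp, if_pos rfl]
      push_cast
      rw [inv_mul_cancel₀ hN', sub_self]
    · obtain ⟨C, hC⟩ := h.card_sub m hm
      refine tendsto_of_bound (C := C) tendsto_inv_nat fun N => ?_
      rw [inner_sub_right, inner_smul_right, F_fourier, inner_fourierLp, if_neg hm, sub_zero, norm_mul]
      have h3 : ‖(((N : ℝ)⁻¹ : ℝ) : ℂ)‖ = (N : ℝ)⁻¹ := by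
        rw [Complex.norm_real, Real.norm_of_nonneg (by positivity)]
      rw [h3]
      gcongr
      rw [Z_star, inner_F_sum, Complex.norm_natCast]
      exact_mod_cast hC N) (indicatorConstLp 2 hB (measure_ne_top haarAddCircle B) (1:ℂ))
  have h2 : ⟪(indicatorConstLp 2 hB (measure_ne_top haarAddCircle B) (1:ℂ) : H), F (fourier 0)⟫_ℂ =
      ((haarAddCircle (T := 2 * Real.pi)).real B : ℂ) := by
    rw [setIntegral_eq_inner]
    simp only [fourier_zero]
    rw [setIntegral_const]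
    simp
  have h3 := h1.add_const ((haarAddCircle (T := 2 * Real.pi)).real B : ℂ)
  rw [zero_add] at h3
  refine h3.congr fun N => ?_
  rw [inner_sub_right, inner_smul_right, setIntegral_eq_inner, h2, sub_add_cancel]

end Pool.Agent.T2H73.Lac
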