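import Pool.Agent.T2H73.Lac3

set_option autoImplicit false

open MeasureTheory Filter Topology Set AddCircle Finset
open scoped InnerProductSpace ComplexConjugate

namespace Pool.Agent.T2H73.Lac

variable {n : ℕ → ℕ} {q : ℝ}

/-- the real lacunary sum on the circle -/
noncomputable def sC (n : ℕ → ℕ) (N : ℕ) (x : Ci) : ℝ := (Z n N x).re

lemma continuous_sC (N : ℕ) : Continuous (sC n N) :=
  Complex.continuous_re.comp (Z n N).continuous

lemma integrable_of_cont {g : Ci → ℝ} (hg : Continuous g) :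
    Integrable g (haarAddCircle (T := 2 * Real.pi)) :=
  hg.integrable_of_hasCompactSupport (HasCompactSupport.of_compactSpace g)

lemma integrable_of_contC {g : Ci → ℂ} (hg : Continuous g) :
    Integrable g (haarAddCircle (T := 2 * Real.pi)) :=
  hg.integrable_of_hasCompactSupport (HasCompactSupport.of_compactSpace g)

lemma lim_s (h : Gap n q) {B : Set Ci} (hB : MeasurableSet B) :
    Tendsto (fun N : ℕ => (Real.sqrt N)⁻¹ * ∫ x in B, sC n N x ∂haarAddCircle) atTop (𝓝 0) := by
  have h1 := (Complex.continuous_re.tendsto _).comp (lim1 h hB)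
  rw [Complex.zero_re] at h1
  refine h1.congr fun N => ?_
  show ((((Real.sqrt N)⁻¹ : ℝ) : ℂ) * ∫ x in B, Z n N x ∂haarAddCircle).re = _
  rw [Complex.re_ofReal_mul]
  congr 1
  have := integral_re (𝕜 := ℂ) (μ := (haarAddCircle (T := 2 * Real.pi)).restrict B)
    (f := fun x => Z n N x) (integrable_of_contC (Z n N).continuous).restrict
  exact this.symm

lemma lim_s2 (h : Gap n q) {B : Set Ci} (hB : MeasurableSet B) :
    Tendsto (fun N : ℕ => (N : ℝ)⁻¹ * ∫ x in B, sC n N x ^ 2 ∂haarAddCircle) atTop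
      (𝓝 ((haarAddCircle (T := 2 * Real.pi)).real B / 2)) := by
  have h1 := (Complex.continuous_re.tendsto _).comp (lim2 h hB)
  have h2 := (Complex.continuous_re.tendsto _).comp (lim3 h hB)
  have h3 := (h1.add h2).const_mul (1 / 2 : ℝ)
  have e : (1 / 2 : ℝ) * ((0:ℂ).re + (((haarAddCircle (T := 2 * Real.pi)).real B : ℝ) : ℂ).re) =
      (haarAddCircle (T := 2 * Real.pi)).real B / 2 := by
    rw [Complex.zero_re, Complex.ofReal_re]; ring
  rw [e] at h3
  refine h3.congr fun N => ?_
  show (1 / 2 : ℝ) * (((((N:ℝ)⁻¹ : ℝ) : ℂ) * ∫ x in B, (Z n N * Z n N) x ∂haarAddCircle).re +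
    ((((N:ℝ)⁻¹ : ℝ) : ℂ) * ∫ x in B, (star (Z n N) * Z n N) x ∂haarAddCircle).re) = _
  rw [Complex.re_ofReal_mul, Complex.re_ofReal_mul]
  have i1 := integral_re (𝕜 := ℂ) (μ := (haarAddCircle (T := 2 * Real.pi)).restrict B)
    (f := fun x => (Z n N * Z n N) x) (integrable_of_contC (Z n N * Z n N).continuous).restrict
  have i2 := integral_re (𝕜 := ℂ) (μ := (haarAddCircle (T := 2 * Real.pi)).restrict B)
    (f := fun x => (star (Z n N) * Z n N) x) (integrable_of_contC (star (Z n N) * Z n N).continuous).restrict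
  have j1 : (∫ x in B, (Z n N * Z n N) x ∂haarAddCircle).re =
      ∫ x in B, ((Z n N * Z n N) x).re ∂haarAddCircle := i1.symm
  have j2 : (∫ x in B, (star (Z n N) * Z n N) x ∂haarAddCircle).re =
      ∫ x in B, ((star (Z n N) * Z n N) x).re ∂haarAddCircle := i2.symm
  rw [j1, j2, ← mul_add, ← integral_add]
  · rw [show (1 / 2 : ℝ) * ((N:ℝ)⁻¹ * ∫ x in B, (((Z n N * Z n N) x).re +
        ((star (Z n N) * Z n N) x).re) ∂haarAddCircle) = (N:ℝ)⁻¹ * ((1 / 2 : ℝ) *
        ∫ x in B, (((Z n N * Z n N) x).re + ((star (Z n N) * Z n N) x).re) ∂haarAddCircle) by ring,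
      ← integral_const_mul]
    congr 2
    ext x
    rw [ContinuousMap.mul_apply, ContinuousMap.mul_apply, ContinuousMap.star_apply, sC]
    set z := Z n N x
    rw [Complex.mul_re, Complex.mul_re]
    have : (star z).re = z.re := Complex.conj_re z
    have h' : (star z).im = -z.im := Complex.conj_im z
    rw [this, h']
    ring
  · exact (integrable_of_cont (Complex.continuous_re.comp (Z n N * Z n N).continuous)).restrict
  · exact (integrable_of_cont (Complex.continuous_re.comp (star (Z n N) * Z n N).continuous)).restrict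

lemma fourth (h : Gap n q) {K : ℕ} (hK : 2 < q ^ K) (N : ℕ) :
    ∫ x, sC n N x ^ 4 ∂(haarAddCircle (T := 2 * Real.pi)) ≤ 2 * K * N ^ 2 := by
  refine le_trans ?_ (norm_FZZ_sq h hK N)
  rw [norm_F_sq]
  refine integral_mono (integrable_of_cont ((continuous_sC N).pow 4))
    (integrable_of_cont ((Z n N * Z n N).continuous.norm.pow 2)) fun x => ?_
  show sC n N x ^ 4 ≤ ‖(Z n N * Z n N) x‖ ^ 2
  rw [ContinuousMap.mul_apply, norm_mul, sC]
  have h1 : |(Z n N x).re| ≤ ‖Z n N x‖ := Complex.abs_re_le_norm _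
  have h2 : (Z n N x).re ^ 2 ≤ ‖Z n N x‖ ^ 2 := by
    rw [← sq_abs]
    gcongr
  nlinarith [sq_nonneg ((Z n N x).re ^ 2), sq_nonneg (‖Z n N x‖ ^ 2), sq_nonneg ((Z n N x).re), sq_nonneg (‖Z n N x‖)]

/-- one-sided boundedness is only possible on null sets -/
theorem null_circle (h : Gap n q) {B : Set Ci} (hB : MeasurableSet B) (σ ξ : ℝ) (hσ : |σ| = 1)
    (M : ℕ) (hM : ∀ N ≥ M, ∀ x ∈ B, ξ ≤ σ * sC n N x) : haarAddCircle B = 0 := by
  obtain ⟨K, hK⟩ := pow_unbounded_of_one_lt 2 h.one_lt
  set β := (haarAddCircle (T := 2 * Real.pi)).real B with hβ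
  have key : ∀ lam : ℝ, 0 < lam → β / 2 ≤ 2 * K / lam ^ 2 := by
    intro lam hlam
    have hL : Tendsto (fun N : ℕ => lam * (σ * ((Real.sqrt N)⁻¹ * ∫ x in B, sC n N x ∂haarAddCircle) +
        2 * |ξ| * β * (Real.sqrt N)⁻¹) + 2 * K / lam ^ 2) atTop (𝓝 (2 * K / lam ^ 2)) := by
      have h1 := (((lim_s h hB).const_mul σ).add (tendsto_inv_sqrt.const_mul (2 * |ξ| * β))).const_mul lam
      have h2 := h1.add_const (2 * K / lam ^ 2)
      simpa using h2
    refine le_of_tendsto_of_tendsto (lim_s2 h hB) hL ?_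
    filter_upwards [eventually_ge_atTop M, eventually_gt_atTop 0] with N hN hN0
    have hN0' : (0:ℝ) < N := by exact_mod_cast hN0
    set r := Real.sqrt N with hr
    have hr0 : 0 < r := Real.sqrt_pos.2 hN0'
    have hr2 : r ^ 2 = N := Real.sq_sqrt hN0'.le
    -- pointwise inequality
    have hpt : ∀ x ∈ B, sC n N x ^ 2 ≤ lam * r * (σ * sC n N x + 2 * |ξ|) + sC n N x ^ 4 / (lam ^ 2 * N) := by
      intro x hx
      have h1 := hM N hN x hx
      set s := sC n N x
      have h2 : |s| ≤ σ * s + 2 * |ξ| := by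
        have h3 : |σ * s| = |s| := by rw [abs_mul, hσ, one_mul]
        have h4 := neg_abs_le ξ
        rcases le_total 0 (σ * s) with h5 | h5
        · rw [abs_of_nonneg h5] at h3
          have := abs_nonneg ξ
          linarith
        · rw [abs_of_nonpos h5] at h3
          linarith
      have h6 : s ^ 2 ≤ lam * r * |s| + s ^ 4 / (lam ^ 2 * N) := by
        rcases le_total |s| (lam * r) with h7 | h7
        · have h8 : s ^ 2 ≤ lam * r * |s| := by
            rw [← sq_abs, sq]
            gcongr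
          have h9 : 0 ≤ s ^ 4 / (lam ^ 2 * N) := by positivity
          linarith
        · have h8 : lam ^ 2 * N ≤ s ^ 2 := by
            rw [← hr2, ← sq_abs s, ← mul_pow]
            gcongr
          have h9 : s ^ 2 ≤ s ^ 4 / (lam ^ 2 * N) := by
            rw [le_div_iff₀ (by positivity)]
            calc s ^ 2 * (lam ^ 2 * N) ≤ s ^ 2 * s ^ 2 := by gcongr
              _ = s ^ 4 := by ring
          have h10 : 0 ≤ lam * r * |s| := by positivity
          linarith
      calc s ^ 2 ≤ lam * r * |s| + s ^ 4 / (lam ^ 2 * N) := h6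
        _ ≤ _ := by gcongr
    have hi1 : Integrable (fun x => sC n N x) (haarAddCircle (T := 2 * Real.pi)) :=
      integrable_of_cont (continuous_sC N)
    have hi2 : Integrable (fun x => sC n N x ^ 2) (haarAddCircle (T := 2 * Real.pi)) :=
      integrable_of_cont ((continuous_sC N).pow 2)
    have hi4 : Integrable (fun x => sC n N x ^ 4) (haarAddCircle (T := 2 * Real.pi)) :=
      integrable_of_cont ((continuous_sC N).pow 4)
    have hA : ∫ x in B, sC n N x ^ 2 ∂haarAddCircle ≤
        ∫ x in B, (lam * r * (σ * sC n N x + 2 * |ξ|) + sC n N x ^ 4 / (lam ^ 2 * N)) ∂haarAddCircle := by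
      refine setIntegral_mono_on hi2.integrableOn ?_ hB hpt
      exact ((((hi1.const_mul σ).add (integrable_const _)).const_mul _).add (hi4.div_const _)).integrableOn
    have hC : ∫ x in B, (lam * r * (σ * sC n N x + 2 * |ξ|) + sC n N x ^ 4 / (lam ^ 2 * N)) ∂haarAddCircle =
        lam * r * (σ * (∫ x in B, sC n N x ∂haarAddCircle) + 2 * |ξ| * β) +
          (∫ x in B, sC n N x ^ 4 ∂haarAddCircle) / (lam ^ 2 * N) := by
      rw [integral_add, integral_const_mul, integral_add, integral_const_mul, integral_div,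
        setIntegral_const]
      · rw [smul_eq_mul]; ring
      · exact (hi1.const_mul σ).restrict
      · exact (integrable_const _)
      · exact (((hi1.const_mul σ).add (integrable_const _)).const_mul _).restrict
      · exact (hi4.div_const _).restrict
    have hD : ∫ x in B, sC n N x ^ 4 ∂haarAddCircle ≤ 2 * K * N ^ 2 := by
      refine le_trans (setIntegral_le_integral hi4 ?_) (fourth h hK N)
      exact Eventually.of_forall fun x => by positivity
    have hE : (∫ x in B, sC n N x ^ 4 ∂haarAddCircle) / (lam ^ 2 * N) ≤ 2 * K * N / lam ^ 2 := by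
      rw [div_le_div_iff₀ (by positivity) (by positivity)]
      calc (∫ x in B, sC n N x ^ 4 ∂haarAddCircle) * lam ^ 2 ≤ (2 * K * N ^ 2) * lam ^ 2 := by gcongr
        _ = 2 * K * N * (lam ^ 2 * N) := by ring
    calc (N:ℝ)⁻¹ * ∫ x in B, sC n N x ^ 2 ∂haarAddCircle
        ≤ (N:ℝ)⁻¹ * (lam * r * (σ * (∫ x in B, sC n N x ∂haarAddCircle) + 2 * |ξ| * β) +
          2 * K * N / lam ^ 2) := by
          gcongr
          rw [hC] at hA
          linarith
      _ = _ := by
          have e1 : (N:ℝ)⁻¹ * r = r⁻¹ := by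
            rw [← hr2, sq]; field_simp
          have e2 : (N:ℝ)⁻¹ * N = 1 := inv_mul_cancel₀ hN0'.ne'
          calc (N:ℝ)⁻¹ * (lam * r * (σ * (∫ x in B, sC n N x ∂haarAddCircle) + 2 * |ξ| * β) +
              2 * K * N / lam ^ 2) = lam * ((N:ℝ)⁻¹ * r) * (σ * (∫ x in B, sC n N x ∂haarAddCircle) + 2 * |ξ| * β)
                + ((N:ℝ)⁻¹ * N) * (2 * K / lam ^ 2) := by ring
            _ = _ := by rw [e1, e2]; ring
  have hβ0 : β ≤ 0 := by
    by_contra hcon
    push Not at hcon
    have hK0 : (0:ℝ) ≤ K := by positivity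
    have h1 := key (Real.sqrt ((4 * K + 1) * (2 / β))) (by positivity)
    rw [Real.sq_sqrt (by positivity)] at h1
    rw [le_div_iff₀ (by positivity)] at h1
    have h2 : β / 2 * ((4 * K + 1) * (2 / β)) = 4 * K + 1 := by field_simp
    linarith
  have hβ1 : β = 0 := le_antisymm hβ0 measureReal_nonneg
  rwa [hβ, measureReal_eq_zero_iff] at hβ1

end Pool.Agent.T2H73.Lac
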