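import Pool.Agent.T2H73.Lac4

set_option autoImplicit false

open MeasureTheory Filter Topology Set Finset

namespace Pool.Agent.T2H73.Lac

variable {n : ℕ → ℕ} {q : ℝ}

/-- the lacunary partial sums -/
noncomputable def S (n : ℕ → ℕ) (m : ℕ) (x : ℝ) : ℝ := ∑ k ∈ Finset.range m, Real.cos ((n k : ℝ) * x)

lemma sC_coe (N : ℕ) (x : ℝ) : sC n N (x : Ci) = S n N x := by
  rw [sC, Z_apply, Complex.re_sum, S]
  refine Finset.sum_congr rfl fun k _ => ?_
  rw [fourier_coe_apply]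
  have h1 : 2 * (Real.pi : ℂ) * Complex.I * ((n k : ℤ) : ℂ) * (x : ℂ) / ((2 * Real.pi : ℝ) : ℂ) =
      (((n k : ℝ) * x : ℝ) : ℂ) * Complex.I := by
    have : (Real.pi : ℂ) ≠ 0 := by exact_mod_cast Real.pi_ne_zero
    push_cast
    field_simp
  rw [h1, Complex.exp_ofReal_mul_I_re]

lemma continuous_S (m : ℕ) : Continuous (S n m) := by
  unfold S
  fun_prop

lemma null_real (h : Gap n q) (σ ξ : ℝ) (hσ : |σ| = 1) (M : ℕ) :
    volume {x : ℝ | ∀ N ≥ M, ξ ≤ σ * S n N x} = 0 := by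
  set B : Set Ci := {x | ∀ N ≥ M, ξ ≤ σ * sC n N x} with hB
  have hBc : IsClosed B := by
    have : B = ⋂ N : ℕ, ⋂ _ : N ≥ M, {x | ξ ≤ σ * sC n N x} := by
      ext x; simp [hB]
    rw [this]
    exact isClosed_iInter fun N => isClosed_iInter fun _ =>
      isClosed_le continuous_const (continuous_const.mul (continuous_sC N))
  have h1 := null_circle h hBc.measurableSet σ ξ hσ M (fun N hN x hx => hx N hN)
  have h2 : (volume : Measure Ci) B = 0 := by
    rw [AddCircle.volume_eq_smul_haarAddCircle, Measure.smul_apply, h1, smul_zero]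
  refine measure_null_of_locally_null _ fun x _ => ?_
  refine ⟨{x : ℝ | ∀ N ≥ M, ξ ≤ σ * S n N x} ∩ Ioc (x - Real.pi) (x - Real.pi + 2 * Real.pi), ?_, ?_⟩
  · refine Filter.inter_mem self_mem_nhdsWithin (mem_nhdsWithin_of_mem_nhds ?_)
    have hpi := Real.pi_pos
    exact mem_of_superset (Ioo_mem_nhds (by linarith : x - Real.pi < x)
      (by linarith : x < x - Real.pi + 2 * Real.pi)) Ioo_subset_Ioc_self
  · have h3 := (AddCircle.measurePreserving_mk (2 * Real.pi) (x - Real.pi)).measure_preimage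
      hBc.measurableSet.nullMeasurableSet
    rw [h2, Measure.restrict_apply (hBc.measurableSet.preimage AddCircle.measurable_mk')] at h3
    refine le_antisymm (le_trans (measure_mono ?_) h3.le) bot_le
    rintro y ⟨hy, hy2⟩
    refine ⟨?_, hy2⟩
    show (y : Ci) ∈ B
    intro N hN
    rw [sC_coe]
    exact hy N hN

/-- the sums cross every level infinitely often -/
lemma ae_cross (h : Gap n q) (ξ : ℝ) : ∀ᵐ x : ℝ, ∀ M : ℕ, ∃ m ≥ M,
    (S n m x ≤ ξ ∧ ξ ≤ S n (m + 1) x) ∨ (S n (m + 1) x ≤ ξ ∧ ξ ≤ S n m x) := by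
  have h1 : ∀ᵐ x : ℝ, ∀ M : ℕ, ¬ (∀ N ≥ M, ξ ≤ S n N x) := by
    rw [ae_all_iff]
    intro M
    have := null_real h 1 ξ (by simp) M
    simp only [one_mul] at this
    rw [ae_iff]
    simpa using this
  have h2 : ∀ᵐ x : ℝ, ∀ M : ℕ, ¬ (∀ N ≥ M, S n N x ≤ ξ) := by
    rw [ae_all_iff]
    intro M
    have := null_real h (-1) (-ξ) (by simp) M
    rw [ae_iff]
    simpa using this
  filter_upwards [h1, h2] with x hx1 hx2 M
  by_contra hcon
  push Not at hcon
  rcases le_total (S n M x) ξ with h3 | h3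
  · refine hx2 M ?_
    intro N hN
    induction N, hN using Nat.le_induction with
    | base => exact h3
    | succ N hN ih => exact ((hcon N hN).1 ih).le
  · refine hx1 M ?_
    intro N hN
    induction N, hN using Nat.le_induction with
    | base => exact h3
    | succ N hN ih =>
      by_contra h4
      push Not at h4
      exact absurd ((hcon N hN).2 h4.le) (not_lt.2 ih)

/-- intermediate values -/
lemma ivt2 {f g : ℝ → ℝ} (hf : Continuous f) (hg : Continuous g) {x y ξ : ℝ}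
    (h1 : g x ≤ ξ) (h2 : ξ ≤ f x) (h3 : f y ≤ g y) : ∃ z ∈ uIcc x y, f z = ξ ∨ g z = ξ := by
  rcases le_total (f y) ξ with h4 | h4
  · obtain ⟨z, hz, e⟩ := intermediate_value_uIcc hf.continuousOn
      (show ξ ∈ uIcc (f x) (f y) from mem_uIcc.2 (Or.inr ⟨h4, h2⟩))
    exact ⟨z, hz, Or.inl e⟩
  · obtain ⟨z, hz, e⟩ := intermediate_value_uIcc hg.continuousOn
      (show ξ ∈ uIcc (g x) (g y) from mem_uIcc.2 (Or.inl ⟨h1, h4.trans h3⟩))
    exact ⟨z, hz, Or.inr e⟩

lemma exists_phase (N : ℝ) (hN : 0 < N) (x θ : ℝ) : ∃ y : ℝ, |y - x| ≤ 2 * Real.pi / N ∧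
    Real.cos (N * y) = Real.cos θ := by
  have hpi := Real.pi_pos
  set k : ℤ := ⌊(N * x - θ) / (2 * Real.pi)⌋ with hk
  refine ⟨(θ + k * (2 * Real.pi)) / N, ?_, ?_⟩
  · have h1 : (k : ℝ) ≤ (N * x - θ) / (2 * Real.pi) := Int.floor_le _
    have h2 : (N * x - θ) / (2 * Real.pi) < k + 1 := Int.lt_floor_add_one _
    rw [le_div_iff₀ (by positivity)] at h1
    rw [div_lt_iff₀ (by positivity)] at h2
    have e : (θ + k * (2 * Real.pi)) / N - x = (θ + k * (2 * Real.pi) - N * x) / N := by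
      field_simp
    rw [e, abs_div, abs_of_pos hN]
    gcongr
    rw [abs_le]
    constructor <;> linarith
  · rw [mul_div_cancel₀ _ hN.ne', Real.cos_add_int_mul_two_pi]

/-- near a crossing there is a zero -/
lemma near_zero (h : Gap n q) (m : ℕ) (x ξ : ℝ)
    (hx : (S n m x ≤ ξ ∧ ξ ≤ S n (m + 1) x) ∨ (S n (m + 1) x ≤ ξ ∧ ξ ≤ S n m x)) :
    ∃ y : ℝ, |y - x| ≤ 2 * Real.pi / n m ∧ (S n m y = ξ ∨ S n (m + 1) y = ξ) := by
  have hn : (0:ℝ) < n m := by exact_mod_cast h.pos m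
  have hsucc : ∀ y, S n (m + 1) y = S n m y + Real.cos ((n m : ℝ) * y) := by
    intro y
    rw [S, Finset.sum_range_succ]; rfl
  have hle : ∀ {z y : ℝ}, z ∈ uIcc x y → |y - x| ≤ 2 * Real.pi / n m → |z - x| ≤ 2 * Real.pi / n m := by
    intro z y hz hy
    refine le_trans ?_ hy
    rw [abs_sub_comm z x, abs_sub_comm y x]
    have := abs_sub_left_of_mem_uIcc hz
    rw [abs_sub_comm x z, abs_sub_comm x y]
    exact this
  rcases hx with ⟨h1, h2⟩ | ⟨h1, h2⟩
  · obtain ⟨y, hy, hc⟩ := exists_phase (n m) hn x Real.pi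
    rw [Real.cos_pi] at hc
    obtain ⟨z, hz, e⟩ := ivt2 (continuous_S (n := n) (m + 1)) (continuous_S (n := n) m) h1 h2
      (show S n (m + 1) y ≤ S n m y by rw [hsucc, hc]; linarith)
    exact ⟨z, hle hz hy, e.symm⟩
  · obtain ⟨y, hy, hc⟩ := exists_phase (n m) hn x 0
    rw [Real.cos_zero] at hc
    obtain ⟨z, hz, e⟩ := ivt2 (continuous_S (n := n) m) (continuous_S (n := n) (m + 1)) h1 h2
      (show S n m y ≤ S n (m + 1) y by rw [hsucc, hc]; linarith)
    exact ⟨z, hle hz hy, e⟩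

lemma sum_le (h : Gap n q) (m : ℕ) : (q - 1) * ∑ k ∈ Finset.range (m + 1), (n k : ℝ) ≤ q * n m := by
  have hq := h.one_lt
  induction m with
  | zero =>
    have h0 : (0:ℝ) ≤ n 0 := Nat.cast_nonneg _
    simp
    nlinarith
  | succ m ih =>
    rw [Finset.sum_range_succ, mul_add]
    have := h.gap m
    linarith

lemma lip (m : ℕ) (x y : ℝ) : |S n m x - S n m y| ≤ (∑ k ∈ Finset.range m, (n k : ℝ)) * |x - y| := by
  rw [S, S, ← Finset.sum_sub_distrib, Finset.sum_mul]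
  refine (Finset.abs_sum_le_sum_abs _ _).trans (Finset.sum_le_sum fun k _ => ?_)
  have h1 := Real.abs_cos_sub_cos_le ((n k : ℝ) * x) ((n k : ℝ) * y)
  rw [← mul_sub, abs_mul, abs_of_nonneg (Nat.cast_nonneg (n k) : (0:ℝ) ≤ n k)] at h1
  exact h1

lemma lip' (h : Gap n q) (m p : ℕ) (hp : p = m ∨ p = m + 1) (x y : ℝ) :
    |S n p x - S n p y| ≤ q / (q - 1) * n m * |x - y| := by
  have hq := h.one_lt
  have hs : ∑ k ∈ Finset.range (m + 1), (n k : ℝ) ≤ q / (q - 1) * n m := by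
    rw [div_mul_eq_mul_div, le_div_iff₀ (by linarith), mul_comm]
    exact sum_le h m
  refine (lip p x y).trans ?_
  gcongr
  refine le_trans ?_ hs
  rcases hp with rfl | rfl
  · rw [Finset.sum_range_succ]
    have : (0:ℝ) ≤ n p := Nat.cast_nonneg _
    linarith
  · exact le_rfl

end Pool.Agent.T2H73.Lac
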